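import Mathlib

/-!
# HI: Hilbert irreducibility over `ℤ[t₁, ..., tᵣ]`. Definitions
-/

set_option autoImplicit false

namespace Pool.Agent.Helper26.HI

open MvPolynomial

noncomputable section

/-- the value of `P` in `ℤ[t][x]` at the point `(t, x)` -/
def V {r : ℕ} (P : Polynomial (MvPolynomial (Fin r) ℤ)) (t : Fin r → ℤ) (x : ℤ) : ℤ :=
  (P.map (eval t)).eval x

/-- the integer points of the cube `[0, N)ʳ` -/
def box (r N : ℕ) : Finset (Fin r → ℕ) := Fintype.piFinset fun _ => Finset.range N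

theorem mem_box {r N : ℕ} {t : Fin r → ℕ} : t ∈ box r N ↔ ∀ k, t k < N := by
  unfold box
  rw [Fintype.mem_piFinset]
  simp

theorem card_box (r N : ℕ) : (box r N).card = N ^ r := by
  unfold box
  rw [Fintype.card_piFinset]
  simp

open scoped Classical in
/-- the points of the cube for which `P(t, x)` has an integral root `x` -/
def bad {r : ℕ} (P : Polynomial (MvPolynomial (Fin r) ℤ)) (N : ℕ) : Finset (Fin r → ℕ) :=
  (box r N).filter fun t => ∃ x : ℤ, V P (fun k => (t k : ℤ)) x = 0

theorem mem_bad {r N : ℕ} {P : Polynomial (MvPolynomial (Fin r) ℤ)} {t : Fin r → ℕ} :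
    t ∈ bad P N ↔ (∀ k, t k < N) ∧ ∃ x : ℤ, V P (fun k => (t k : ℤ)) x = 0 := by
  classical
  unfold bad
  rw [Finset.mem_filter, mem_box]

end

end Pool.Agent.Helper26.HI
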