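import Mathlib
import Pool.Agent.Helper26.HI.Defs
import Pool.Agent.Helper53.RE.PB

/-!
# HI: the field generated by finitely many numbers with finite orbits
-/

set_option autoImplicit false

namespace Pool.Agent.Helper26.HI

open Polynomial

noncomputable section

/-- the homomorphism `ℤ[t] → ℂ` -/
def atZ {r : ℕ} (t : Fin r → ℂ) : MvPolynomial (Fin r) ℤ →+* ℂ := MvPolynomial.eval₂Hom (Int.castRingHom ℂ) t

theorem atZ_X {r : ℕ} (t : Fin r → ℂ) (j : Fin r) : atZ t (MvPolynomial.X j) = t j := by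
  simp [atZ]

theorem atZ_C {r : ℕ} (t : Fin r → ℂ) (n : ℤ) : atZ t (MvPolynomial.C n) = n := by
  simp [atZ]

theorem atZ_inj {r : ℕ} {t : Fin r → ℂ} (ht : AlgebraicIndependent ℚ t) : Function.Injective (atZ t) := by
  have h : ∀ P : MvPolynomial (Fin r) ℤ, atZ t P = MvPolynomial.aeval t (MvPolynomial.map (Int.castRingHom ℚ) P) := by
    intro P
    rw [MvPolynomial.aeval_def, MvPolynomial.eval₂_map]
    change MvPolynomial.eval₂ _ _ _ = _
    congr 1
  intro P Q hPQ
  rw [h, h] at hPQ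
  exact MvPolynomial.map_injective _ Int.cast_injective (ht hPQ)

/-- elements of `ℚ(t)` are fractions -/
theorem frac_mem {r : ℕ} (t : Fin r → ℂ) (ht : AlgebraicIndependent ℚ t) {e : ℂ}
    (he : e ∈ IntermediateField.adjoin ℚ (Set.range t)) :
    ∃ N M : MvPolynomial (Fin r) ℤ, M ≠ 0 ∧ atZ t M * e = atZ t N := by
  have hinj := atZ_inj ht
  have h0 : ∀ M : MvPolynomial (Fin r) ℤ, M ≠ 0 → atZ t M ≠ 0 := fun M hM h => hM (hinj (by rw [h, map_zero]))
  induction he using IntermediateField.adjoin_induction with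
  | mem x hx =>
    obtain ⟨j, rfl⟩ := hx
    exact ⟨MvPolynomial.X j, 1, one_ne_zero, by rw [map_one, one_mul, atZ_X]⟩
  | algebraMap q =>
    refine ⟨MvPolynomial.C q.num, MvPolynomial.C (q.den : ℤ), ?_, ?_⟩
    · rw [ne_eq, MvPolynomial.C_eq_zero]
      exact_mod_cast q.den_ne_zero
    · rw [atZ_C, atZ_C, eq_ratCast, Int.cast_natCast]
      have h1 : (q.den : ℂ) ≠ 0 := by exact_mod_cast q.den_ne_zero
      conv_lhs => rhs; rw [Rat.cast_def]
      field_simp
  | add x y _ _ hx hy =>
    obtain ⟨N, M, hM, h⟩ := hx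
    obtain ⟨N', M', hM', h'⟩ := hy
    exact ⟨N * M' + M * N', M * M', mul_ne_zero hM hM', by
      rw [map_mul, map_add, map_mul, map_mul, ← h, ← h']
      ring⟩
  | mul x y _ _ hx hy =>
    obtain ⟨N, M, hM, h⟩ := hx
    obtain ⟨N', M', hM', h'⟩ := hy
    exact ⟨N * N', M * M', mul_ne_zero hM hM', by
      rw [map_mul, map_mul, ← h, ← h']
      ring⟩
  | inv x _ hx =>
    obtain ⟨N, M, hM, h⟩ := hx
    by_cases hx0 : x = 0
    · exact ⟨0, 1, one_ne_zero, by rw [hx0, inv_zero, mul_zero, map_zero]⟩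
    · refine ⟨M, N, fun hN => ?_, ?_⟩
      · rw [hN, map_zero] at h
        exact mul_ne_zero (h0 M hM) hx0 h
      · rw [← h]
        field_simp

/-- the coefficients of the product over an orbit are fixed -/
theorem orbit_coeff (s : ℂ ≃+* ℂ) (M : ℕ) (z : ℂ) (hz : s^[M] z = z) (n : ℕ) :
    s ((∏ j ∈ Finset.range M, (X - C (s^[j] z))).coeff n) = (∏ j ∈ Finset.range M, (X - C (s^[j] z))).coeff n := by
  have h : (∏ j ∈ Finset.range M, (X - C (s^[j] z))).map (s : ℂ →+* ℂ) = ∏ j ∈ Finset.range M, (X - C (s^[j] z)) := by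
    rw [Polynomial.map_prod]
    have h1 : ∀ j, (X - C (s^[j] z) : ℂ[X]).map (s : ℂ →+* ℂ) = X - C (s^[j + 1] z) := by
      intro j
      rw [Polynomial.map_sub, map_X, map_C, Function.iterate_succ_apply']
      rfl
    rw [Finset.prod_congr rfl fun j _ => h1 j]
    have h2 := Finset.prod_range_succ (fun j => (X - C (s^[j] z) : ℂ[X])) M
    have h3 := Finset.prod_range_succ' (fun j => (X - C (s^[j] z) : ℂ[X])) M
    rw [h2, hz] at h3
    have h4 : (X - C z : ℂ[X]) ≠ 0 := X_sub_C_ne_zero z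
    exact (mul_right_cancel₀ h4 h3).symm
  conv_rhs => rw [← h]
  rw [coeff_map]
  rfl

theorem setup (s : ℂ ≃+* ℂ) (M : ℕ) (V : Finset ℂ) (hM : 1 ≤ M) (hV : ∀ z ∈ V, s^[M] z = z) :
    ∃ (r : ℕ) (t : Fin r → ℂ) (η : ℂ) (P : (MvPolynomial (Fin r) ℤ)[X]) (D : MvPolynomial (Fin r) ℤ)
      (G : ℂ → (MvPolynomial (Fin r) ℤ)[X]), AlgebraicIndependent ℚ t ∧ (∀ j, s (t j) = t j) ∧
      IsAlgebraic (IntermediateField.adjoin ℚ (Set.range t)) η ∧ P.Monic ∧ Irreducible P ∧
      (minpoly (IntermediateField.adjoin ℚ (Set.range t)) η).map (algebraMap _ ℂ) = P.map (atZ t) ∧ D ≠ 0 ∧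
      ∀ z ∈ V, atZ t D * z = (G z).eval₂ (atZ t) η := by
  classical
  let g : ℂ → ℂ[X] := fun z => ∏ j ∈ Finset.range M, (X - C (s^[j] z))
  have hgm : ∀ z, (g z).Monic := fun z => monic_prod_of_monic _ _ fun j _ => monic_X_sub_C _
  have hg0 : ∀ z, (g z).eval z = 0 := by
    intro z
    change (∏ j ∈ Finset.range M, (X - C (s^[j] z))).eval z = 0
    rw [eval_prod]
    exact Finset.prod_eq_zero (Finset.mem_range.2 hM) (by simp)
  let T : Finset ℂ := V.biUnion fun z => (g z).coeffs
  have hT : ∀ c ∈ T, s c = c := by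
    intro c hc
    obtain ⟨z, hz, hc⟩ := Finset.mem_biUnion.1 hc
    obtain ⟨n, -, rfl⟩ := mem_coeffs_iff.1 hc
    exact orbit_coeff s M z (hV z hz) n
  obtain ⟨r, t, ηT, ht, htT, hηT, -, hA⟩ := Pool.Agent.Helper26.RE.prim_basis T
  set E : IntermediateField ℚ ℂ := IntermediateField.adjoin ℚ (Set.range t) with hEdef
  have hinj := atZ_inj ht
  have hmem : ∀ a : MvPolynomial (Fin r) ℤ, atZ t a ∈ E := by
    intro a
    induction a using MvPolynomial.induction_on with
    | C n =>
      rw [atZ_C]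
      exact intCast_mem E n
    | add a b ha hb =>
      rw [map_add]
      exact E.add_mem ha hb
    | mul_X a j ha =>
      rw [map_mul, atZ_X]
      exact E.mul_mem ha (IntermediateField.subset_adjoin _ _ ⟨j, rfl⟩)
  -- the numbers of `V` are algebraic over `E`
  have hTalg : ∀ c ∈ T, IsAlgebraic E c := by
    intro c hc
    obtain ⟨A, hA⟩ := hA c hc
    have h1 : c ∈ IntermediateField.adjoin E {ηT} := by
      rw [← hA]
      exact (IntermediateField.algebra_adjoin_le_adjoin E {ηT}) (by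
        rw [Algebra.adjoin_singleton_eq_range_aeval]
        exact ⟨A, rfl⟩)
    have h2 : FiniteDimensional E (IntermediateField.adjoin E {ηT}) :=
      IntermediateField.adjoin.finiteDimensional hηT.isIntegral
    have h3 : IsAlgebraic E (⟨c, h1⟩ : IntermediateField.adjoin E {ηT}) := Algebra.IsAlgebraic.isAlgebraic _
    exact h3.algebraMap (A := ℂ)
  have hValg : ∀ z ∈ V, IsAlgebraic E z := by
    intro z hz
    let AC := algebraicClosure E ℂ
    have h1 : ∀ n, (g z).coeff n ∈ AC := by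
      intro n
      rw [mem_algebraicClosure_iff]
      by_cases h2 : (g z).coeff n = 0
      · rw [h2]
        exact isAlgebraic_zero
      · exact hTalg _ (Finset.mem_biUnion.2 ⟨z, hz, mem_coeffs_iff.2 ⟨n, mem_support_iff.2 h2, rfl⟩⟩)
    obtain ⟨q, hq⟩ : ∃ q : AC[X], q.map (algebraMap AC ℂ) = g z := by
      have h2 : g z ∈ Polynomial.lifts (algebraMap AC ℂ) := by
        rw [Polynomial.lifts_iff_coeff_lifts]
        intro n
        exact ⟨⟨_, h1 n⟩, rfl⟩
      rw [Polynomial.mem_lifts] at h2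
      exact h2
    have h2 : IsAlgebraic AC z := by
      refine ⟨q, fun h3 => ?_, ?_⟩
      · rw [h3, Polynomial.map_zero] at hq
        exact (hgm z).ne_zero hq.symm
      · rw [aeval_def, ← eval_map, hq]
        exact hg0 z
    exact h2.restrictScalars E
  -- the primitive element
  have hfd : FiniteDimensional E (IntermediateField.adjoin E (V : Set ℂ)) := by
    have : Finite (V : Set ℂ) := V.finite_toSet
    exact IntermediateField.finiteDimensional_adjoin fun z hz => (hValg z hz).isIntegral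
  obtain ⟨α, hα⟩ := Field.exists_primitive_element E (IntermediateField.adjoin E (V : Set ℂ))
  have hαalg : IsAlgebraic E (α : ℂ) := (Algebra.IsAlgebraic.isAlgebraic (R := E) α).algebraMap (A := ℂ)
  have hVα : ∀ z ∈ V, z ∈ IntermediateField.adjoin E {(α : ℂ)} := by
    intro z hz
    have h1 : z ∈ IntermediateField.adjoin E (V : Set ℂ) := IntermediateField.subset_adjoin _ _ hz
    have h2 : (⟨z, h1⟩ : IntermediateField.adjoin E (V : Set ℂ)) ∈ IntermediateField.adjoin E {α} := by
      rw [hα]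
      trivial
    have h3 := (IntermediateField.adjoin_map E {α} (IntermediateField.adjoin E (V : Set ℂ)).val)
    rw [Set.image_singleton] at h3
    have h4 : z ∈ (IntermediateField.adjoin E {α}).map (IntermediateField.adjoin E (V : Set ℂ)).val :=
      ⟨_, h2, rfl⟩
    rw [h3] at h4
    exact h4
  -- integrality over `ℤ[t]`
  let : Algebra (MvPolynomial (Fin r) ℤ) ℂ := (atZ t).toAlgebra
  let : Algebra (MvPolynomial (Fin r) ℤ) E := ((atZ t).codRestrict E.toSubfield hmem).toAlgebra
  have : IsScalarTower (MvPolynomial (Fin r) ℤ) E ℂ := IsScalarTower.of_algebraMap_eq fun a => rfl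
  have hAC : ∀ a, algebraMap (MvPolynomial (Fin r) ℤ) ℂ a = atZ t a := fun a => rfl
  have hfs : FaithfulSMul (MvPolynomial (Fin r) ℤ) ℂ := (faithfulSMul_iff_algebraMap_injective _ _).2 hinj
  have hfsE : FaithfulSMul (MvPolynomial (Fin r) ℤ) E := (faithfulSMul_iff_algebraMap_injective _ _).2 (by
    intro a b hab
    exact hinj (congrArg (fun z : E => (z : ℂ)) hab))
  have hfr : IsFractionRing (MvPolynomial (Fin r) ℤ) E := by
    refine IsFractionRing.of_field _ _ fun z => ?_
    obtain ⟨N, M, hM0, h⟩ := frac_mem t ht z.2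
    refine ⟨N, M, ?_⟩
    apply Subtype.ext
    change (z : ℂ) = atZ t N / atZ t M
    rw [← h, mul_comm, mul_div_assoc, div_self, mul_one]
    intro h1
    exact hM0 (hinj (by rw [h1, map_zero]))
  have hαA : IsAlgebraic (MvPolynomial (Fin r) ℤ) (α : ℂ) :=
    (IsFractionRing.isAlgebraic_iff (MvPolynomial (Fin r) ℤ) E ℂ).2 hαalg
  obtain ⟨d, hd0, hd⟩ := hαA.exists_integral_multiple
  set η : ℂ := d • (α : ℂ) with hηdef
  have hη : η = atZ t d * α := Algebra.smul_def _ _
  have hd1 : atZ t d ≠ 0 := fun h => hd0 (hinj (by rw [h, map_zero]))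
  have hVη : ∀ z ∈ V, z ∈ IntermediateField.adjoin E {η} := by
    intro z hz
    have h1 : IntermediateField.adjoin E {(α : ℂ)} ≤ IntermediateField.adjoin E {η} := by
      rw [IntermediateField.adjoin_simple_le_iff]
      have h2 : (α : ℂ) = (algebraMap E ℂ ⟨atZ t d, hmem d⟩)⁻¹ * η := by
        change (α : ℂ) = (atZ t d)⁻¹ * η
        rw [hη]
        field_simp
      rw [h2]
      exact IntermediateField.mul_mem _ (IntermediateField.inv_mem _ (IntermediateField.algebraMap_mem _ _))
        (IntermediateField.mem_adjoin_simple_self _ _)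
    exact h1 (hVα z hz)
  have hηalg : IsAlgebraic E η := (IsFractionRing.isAlgebraic_iff (MvPolynomial (Fin r) ℤ) E ℂ).1 hd.isAlgebraic
  have hden : ∀ z ∈ V, ∃ (D : MvPolynomial (Fin r) ℤ) (G : (MvPolynomial (Fin r) ℤ)[X]), D ≠ 0 ∧
      atZ t D * z = G.eval₂ (atZ t) η := by
    intro z hz
    have h1 : z ∈ Algebra.adjoin E {η} := by
      have h2 := hVη z hz
      rw [← IntermediateField.mem_toSubalgebra, IntermediateField.adjoin_simple_toSubalgebra_of_isAlgebraic hηalg] at h2
      exact h2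
    rw [Algebra.adjoin_singleton_eq_range_aeval] at h1
    obtain ⟨q, hq⟩ := h1
    obtain ⟨b, hb0, hb⟩ := IsLocalization.integerNormalization_spec (nonZeroDivisors (MvPolynomial (Fin r) ℤ)) q
    refine ⟨b, IsLocalization.integerNormalization (nonZeroDivisors (MvPolynomial (Fin r) ℤ)) q,
      nonZeroDivisors.ne_zero hb0, ?_⟩
    rw [← algebraMap_smul E b q] at hb
    have h2 := congrArg (fun P : E[X] => aeval η P) hb
    rw [aeval_map_algebraMap, map_smul, aeval_def, Algebra.smul_def] at h2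
    rw [← hAC b, ← hq]
    exact h2.symm
  choose! D G hD hG using hden
  refine ⟨r, t, η, minpoly (MvPolynomial (Fin r) ℤ) η, ∏ z ∈ V, D z,
    fun z => C (∏ w ∈ V.erase z, D w) * G z, ht, fun j => hT _ (htT j), hηalg, minpoly.monic hd,
    minpoly.irreducible hd, ?_, Finset.prod_ne_zero_iff.2 fun z hz => hD z hz, fun z hz => ?_⟩
  · rw [minpoly.isIntegrallyClosed_eq_field_fractions' E hd, Polynomial.map_map]
    rfl
  · rw [eval₂_mul, eval₂_C, ← hG z hz, ← Finset.mul_prod_erase V D hz, map_mul]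
    ring

end

end Pool.Agent.Helper26.HI
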