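import Mathlib
import Pool.Agent.Helper26.HI.Ex1

/-!
# HI: conjugate algebraic numbers
-/

set_option autoImplicit false

namespace Pool.Agent.Helper26.HI

open Polynomial

noncomputable section

/-- automorphisms of a subfield extend to the complex numbers -/
theorem ext_aut {F : Type} [Field F] [Algebra F ℂ] (L : IntermediateField F ℂ) (s : L ≃ₐ[F] L) :
    ∃ σ : ℂ ≃+* ℂ, ∀ z : L, σ z = s z := by
  obtain ⟨b, hb⟩ := exists_isTranscendenceBasis L ℂ
  let := IsAlgClosed.isAlgClosure_of_transcendence_basis _ hb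
  let e' : Algebra.adjoin L (Set.range (Subtype.val : b → ℂ)) ≃+*
      Algebra.adjoin L (Set.range (Subtype.val : b → ℂ)) :=
    (hb.1.aevalEquiv.symm.toRingEquiv.trans (MvPolynomial.mapEquiv b s.toRingEquiv)).trans
      hb.1.aevalEquiv.toRingEquiv
  let σ : ℂ ≃+* ℂ := IsAlgClosure.equivOfEquiv ℂ ℂ e'
  have hσ : ∀ z : L, σ z = s z := by
    intro z
    have h4 := IsAlgClosure.equivOfEquiv_algebraMap ℂ ℂ e'
      (algebraMap L (Algebra.adjoin L (Set.range (Subtype.val : b → ℂ))) z)
    have h5 : e' (algebraMap L (Algebra.adjoin L (Set.range (Subtype.val : b → ℂ))) z) =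
        algebraMap L (Algebra.adjoin L (Set.range (Subtype.val : b → ℂ))) (s z) := by
      show hb.1.aevalEquiv (MvPolynomial.map (s.toRingEquiv : L →+* L) (hb.1.aevalEquiv.symm
        (algebraMap L (Algebra.adjoin L (Set.range (Subtype.val : b → ℂ))) z))) = _
      rw [AlgEquiv.commutes, MvPolynomial.algebraMap_eq, MvPolynomial.map_C]
      exact hb.1.aevalEquiv.commutes (s z)
    rw [h5] at h4
    exact h4
  exact ⟨σ, hσ⟩

/-- two roots of an irreducible polynomial over a field are conjugate -/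
theorem conj_field {F : Type} [Field F] [Algebra F ℂ] (P : F[X]) (hP : P.Monic) (hirr : Irreducible P) (a b : ℂ)
    (ha : aeval a P = 0) (hb : aeval b P = 0) : ∃ σ : ℂ ≃+* ℂ, σ a = b := by
  have halg : ∀ z : ℂ, aeval z P = 0 → z ∈ algebraicClosure F ℂ := by
    intro z hz
    rw [mem_algebraicClosure_iff]
    exact ⟨P, hP.ne_zero, hz⟩
  let x : algebraicClosure F ℂ := ⟨a, halg a ha⟩
  let y : algebraicClosure F ℂ := ⟨b, halg b hb⟩
  have hev' : ∀ z : algebraicClosure F ℂ, aeval (z : ℂ) P = 0 → aeval z P = 0 := by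
    intro z hz
    apply Subtype.ext
    have h1 := aeval_algebraMap_apply ℂ z P
    rw [show algebraMap (algebraicClosure F ℂ) ℂ z = (z : ℂ) from rfl, hz] at h1
    exact h1.symm
  have hm : P = minpoly F y := minpoly.eq_of_irreducible_of_monic hirr (hev' y hb) hP
  have h1 : IsAlgClosure F (algebraicClosure F ℂ) := inferInstance
  have hnorm : Normal F (algebraicClosure F ℂ) := IsAlgClosure.normal _ _
  obtain ⟨s, hs⟩ := minpoly.exists_algEquiv_of_root (K := F) (L := algebraicClosure F ℂ) (x := x) (y := y)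
    (Algebra.IsAlgebraic.isAlgebraic y) (by rw [← hm]; exact hev' x ha)
  obtain ⟨σ, hσ⟩ := ext_aut (algebraicClosure F ℂ) s
  refine ⟨σ, ?_⟩
  have h1 := hσ x
  rw [hs] at h1
  exact h1

/-- two roots of an irreducible polynomial over `ℤ` are conjugate -/
theorem conj_roots (P : ℤ[X]) (hP : P.Monic) (hirr : Irreducible P) (a b : ℂ)
    (ha : P.eval₂ (Int.castRingHom ℂ) a = 0) (hb : P.eval₂ (Int.castRingHom ℂ) b = 0) :
    ∃ σ : ℂ ≃+* ℂ, σ a = b := by
  refine conj_field (F := ℚ) (P.map (algebraMap ℤ ℚ)) (hP.map _)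
    ((hP.irreducible_iff_irreducible_map_fraction_map (K := ℚ)).1 hirr) a b ?_ ?_
  · rw [aeval_map_algebraMap, aeval_def]
    exact ha
  · rw [aeval_map_algebraMap, aeval_def]
    exact hb

end

end Pool.Agent.Helper26.HI
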