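import Mathlib
import Pool.Agent.Helper26.HI.Ex2
import Pool.Agent.Helper64.HI.LO
import Pool.Agent.Helper26.RE.Cong
import Pool.Agent.Helper98.RE.R3
import Pool.Agent.Helper53.OB.Frob

/-!
# HI: the embedding theorem for an arbitrary automorphism
-/

set_option autoImplicit false

namespace Pool.Agent.Helper26.HI

open Polynomial Pool.Agent.Helper87.FK Pool.Agent.Helper26.OB Pool.Agent.Helper26.RE

noncomputable section

/-- the homomorphism `ℤ[t] → ℤ → ℂ` -/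
def sp {r : ℕ} (t' : Fin r → ℤ) : MvPolynomial (Fin r) ℤ →+* ℂ := (Int.castRingHom ℂ).comp (MvPolynomial.eval t')

/-- the specialisation of integral elements -/
theorem spec {r : ℕ} (t : Fin r → ℂ) (ht : AlgebraicIndependent ℚ t) (s : ℂ ≃+* ℂ) (hs : ∀ j, s (t j) = t j)
    (t' : Fin r → ℤ) : ∃ (O : Subring ℂ) (φ : ℂ → ℂ), (∀ a, atZ t a ∈ O) ∧ (∀ a, φ (atZ t a) = sp t' a) ∧
      (∀ x ∈ O, s x ∈ O) ∧ (∀ (Q : (MvPolynomial (Fin r) ℤ)[X]) (x : ℂ), Q.Monic → Q.eval₂ (atZ t) x = 0 → x ∈ O) ∧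
      (∀ x ∈ O, ∀ y ∈ O, φ (x + y) = φ x + φ y) ∧ (∀ x ∈ O, ∀ y ∈ O, φ (x * y) = φ x * φ y) ∧
      ∀ x ∈ O, IsAlgebraic ℚ (φ x) := by
  classical
  let : Algebra (MvPolynomial (Fin r) ℤ) ℂ := (atZ t).toAlgebra
  have hAC : ∀ a, algebraMap (MvPolynomial (Fin r) ℤ) ℂ a = atZ t a := fun a => rfl
  have hinj := atZ_inj ht
  let B := integralClosure (MvPolynomial (Fin r) ℤ) ℂ
  have hinjB : Function.Injective (algebraMap (MvPolynomial (Fin r) ℤ) B) := by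
    intro a b hab
    exact hinj (congrArg (fun z : B => (z : ℂ)) hab)
  obtain ⟨φ, hφ⟩ := extend_hom (B := B) hinjB (sp t')
  refine ⟨B.toSubring, fun z => if h : z ∈ B then φ ⟨z, h⟩ else 0, fun a => ?_, fun a => ?_, fun x hx => ?_,
    fun Q x hQ hx => ?_, fun x hx y hy => ?_, fun x hx y hy => ?_, fun x hx => ?_⟩
  · exact B.algebraMap_mem a
  · have h1 : atZ t a ∈ B := B.algebraMap_mem a
    change (if h : atZ t a ∈ B then φ ⟨atZ t a, h⟩ else 0) = sp t' a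
    rw [dif_pos h1]
    exact hφ a
  · change IsIntegral (MvPolynomial (Fin r) ℤ) (s x)
    obtain ⟨Q, hQ, hQx⟩ := hx
    refine ⟨Q, hQ, ?_⟩
    have h1 : (s : ℂ →+* ℂ).comp (atZ t) = atZ t := by
      refine MvPolynomial.ringHom_ext (fun n => ?_) fun j => ?_
      · simp [atZ_C]
      · simp [atZ_X, hs]
    have h2 := Polynomial.hom_eval₂ Q (atZ t) (s : ℂ →+* ℂ) x
    rw [h1] at h2
    change Q.eval₂ (atZ t) (s x) = 0
    change _ = Q.eval₂ (atZ t) (s x) at h2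
    rw [← h2]
    have h3 : Q.eval₂ (atZ t) x = 0 := hQx
    rw [h3, map_zero]
  · exact ⟨Q, hQ, hx⟩
  · change (if h : x + y ∈ B then φ ⟨x + y, h⟩ else 0) = (if h : x ∈ B then φ ⟨x, h⟩ else 0) +
      (if h : y ∈ B then φ ⟨y, h⟩ else 0)
    have h1 : x ∈ B := hx
    have h2 : y ∈ B := hy
    rw [dif_pos (B.add_mem h1 h2), dif_pos h1, dif_pos h2, ← map_add]
    rfl
  · change (if h : x * y ∈ B then φ ⟨x * y, h⟩ else 0) = (if h : x ∈ B then φ ⟨x, h⟩ else 0) *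
      (if h : y ∈ B then φ ⟨y, h⟩ else 0)
    have h1 : x ∈ B := hx
    have h2 : y ∈ B := hy
    rw [dif_pos (B.mul_mem h1 h2), dif_pos h1, dif_pos h2, ← map_mul]
    rfl
  · have h1 : x ∈ B := hx
    change IsAlgebraic ℚ (if h : x ∈ B then φ ⟨x, h⟩ else 0)
    rw [dif_pos h1]
    have hint : IsIntegral (MvPolynomial (Fin r) ℤ) (⟨x, h1⟩ : B) := by
      have h3 : IsIntegral (MvPolynomial (Fin r) ℤ) x := h1
      exact (isIntegral_algebraMap_iff (A := B) (B := ℂ) Subtype.val_injective).1 h3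
    obtain ⟨Q, hQ, hQx⟩ := hint
    have h2 : (Q.map (MvPolynomial.eval t')).eval₂ (Int.castRingHom ℂ) (φ ⟨x, h1⟩) = 0 := by
      have h3 : φ.comp (algebraMap (MvPolynomial (Fin r) ℤ) B) = (Int.castRingHom ℂ).comp (MvPolynomial.eval t') :=
        RingHom.ext hφ
      rw [eval₂_map, ← h3, ← Polynomial.hom_eval₂, hQx, map_zero]
    have h3 : IsIntegral ℤ (φ ⟨x, h1⟩) := ⟨_, hQ.map _, h2⟩
    exact (h3.tower_top (A := ℚ)).isAlgebraic

end

end Pool.Agent.Helper26.HI
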