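import Mathlib
import Pool.Agent.Helper26.HI.Ex3
import Pool.Agent.Helper5.HI.Hit

/-!
# HI: the embedding theorem for an arbitrary automorphism
-/

set_option autoImplicit false

namespace Pool.Agent.Helper26.HI

open Polynomial Pool.Agent.Helper87.FK Pool.Agent.Helper26.OB Pool.Agent.Helper26.RE

noncomputable section

/-- the values of a polynomial at congruent points -/
theorem cr_at {p : ℕ} [Fact p.Prime] {r : ℕ} (t : Fin r → ℂ) (t' : Fin r → ℤ) (τ : ℂ →+* PadicAlgCl p)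
    (h : ∀ j, ‖τ (t j) - ((t' j : ℤ) : PadicAlgCl p)‖ < 1) (a : MvPolynomial (Fin r) ℤ) :
    (τ (atZ t a), ((MvPolynomial.eval t' a : ℤ) : PadicAlgCl p)) ∈ CR p := by
  have hint : ∀ n : ℤ, ((n : PadicAlgCl p), (n : PadicAlgCl p)) ∈ CR p := fun n => intCast_mem (CR p) n
  have hj : ∀ j, (τ (t j), ((t' j : ℤ) : PadicAlgCl p)) ∈ CR p := by
    intro j
    have h1 := (mem_CR.1 (hint (t' j))).1
    refine mem_CR.2 ⟨?_, h1, h j⟩
    have e1 : τ (t j) = (τ (t j) - ((t' j : ℤ) : PadicAlgCl p)) + ((t' j : ℤ) : PadicAlgCl p) := by ring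
    rw [e1]
    exact (IsUltrametricDist.norm_add_le_max _ _).trans (max_le (h j).le h1)
  induction a using MvPolynomial.induction_on with
  | C n =>
    rw [atZ_C, map_intCast τ n, MvPolynomial.eval_C]
    exact hint n
  | add a b ha hb =>
    have h1 := (CR p).add_mem ha hb
    have e1 : τ (atZ t (a + b)) = τ (atZ t a) + τ (atZ t b) := by rw [map_add (atZ t), map_add τ]
    have e2 : ((MvPolynomial.eval t' (a + b) : ℤ) : PadicAlgCl p) =
        ((MvPolynomial.eval t' a : ℤ) : PadicAlgCl p) + ((MvPolynomial.eval t' b : ℤ) : PadicAlgCl p) := by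
      rw [map_add (MvPolynomial.eval t'), Int.cast_add]
    rw [e1, e2]
    exact h1
  | mul_X a j ha =>
    have h1 := (CR p).mul_mem ha (hj j)
    have e1 : τ (atZ t (a * MvPolynomial.X j)) = τ (atZ t a) * τ (t j) := by
      rw [map_mul (atZ t), map_mul τ, atZ_X]
    have e2 : ((MvPolynomial.eval t' (a * MvPolynomial.X j) : ℤ) : PadicAlgCl p) =
        ((MvPolynomial.eval t' a : ℤ) : PadicAlgCl p) * ((t' j : ℤ) : PadicAlgCl p) := by
      rw [map_mul (MvPolynomial.eval t'), MvPolynomial.eval_X, Int.cast_mul]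
    rw [e1, e2]
    exact h1

theorem cr_eval {p : ℕ} [Fact p.Prime] {r : ℕ} (t : Fin r → ℂ) (t' : Fin r → ℤ) (τ : ℂ →+* PadicAlgCl p)
    (h : ∀ j, ‖τ (t j) - ((t' j : ℤ) : PadicAlgCl p)‖ < 1) (Q : (MvPolynomial (Fin r) ℤ)[X]) (x y : PadicAlgCl p)
    (hxy : (x, y) ∈ CR p) :
    (Q.eval₂ (τ.comp (atZ t)) x, Q.eval₂ ((Int.castRingHom (PadicAlgCl p)).comp (MvPolynomial.eval t')) y) ∈ CR p := by
  rw [eval₂_eq_sum_range, eval₂_eq_sum_range]
  exact cr_sum (Q.natDegree + 1) (fun n => τ (atZ t (Q.coeff n)))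
    (fun n => ((MvPolynomial.eval t' (Q.coeff n) : ℤ) : PadicAlgCl p)) x y (fun n => cr_at t t' τ h (Q.coeff n)) hxy

/-- **ExS** -/
theorem exS (s : ℂ ≃+* ℂ) (W : Finset ℂ) (hW : ∀ z ∈ W, ∃ m : ℕ, 1 ≤ m ∧ s^[m] z = z) (N₀ : ℕ) :
    ∃ (p : ℕ) (_ : Fact p.Prime) (τ : ℂ →+* PadicAlgCl p), N₀ < p ∧ Un τ W ∧
      ∀ z ∈ W, ∀ m : ℕ, ‖(τ z) ^ p ^ m - τ z‖ < 1 ↔ s^[m] z = z := by
  classical
  -- the common period
  choose! μ hμ1 hμ using hW
  set M : ℕ := ∏ z ∈ W, μ z with hM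
  have hM1 : 1 ≤ M := Finset.one_le_prod' hμ1
  have hsp : ∀ (m : ℕ) (z : ℂ), s^[m] z = (s ^ m : RingAut ℂ) z := by
    intro m z
    rw [← RingAut.coe_pow]
  have hWM : ∀ z ∈ W, s^[M] z = z := by
    intro z hz
    have h1 : Function.IsPeriodicPt s (μ z) z := hμ z hz
    exact h1.trans_dvd (Finset.dvd_prod_of_mem μ hz)
  let V₀ : Finset ℂ := W ∪ W.image (fun z => z⁻¹) ∪ (W ×ˢ Finset.range M).image fun q => (s^[q.2] q.1 - q.1)⁻¹
  have hV₀ : ∀ v ∈ V₀, s^[M] v = v := by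
    intro v hv
    rcases Finset.mem_union.1 hv with hv | hv
    · rcases Finset.mem_union.1 hv with hv | hv
      · exact hWM v hv
      · obtain ⟨z, hz, rfl⟩ := Finset.mem_image.1 hv
        rw [hsp, map_inv₀, ← hsp, hWM z hz]
    · obtain ⟨q, hq, rfl⟩ := Finset.mem_image.1 hv
      have hz := (Finset.mem_product.1 hq).1
      rw [hsp, map_inv₀, map_sub, ← hsp, ← hsp, hWM q.1 hz, ← Function.iterate_add_apply, add_comm,
        Function.iterate_add_apply, hWM q.1 hz]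
  let V : Finset ℂ := (V₀ ×ˢ Finset.range M).image fun q => s^[q.2] q.1
  have hV : ∀ v ∈ V, s^[M] v = v := by
    intro v hv
    obtain ⟨q, hq, rfl⟩ := Finset.mem_image.1 hv
    rw [← Function.iterate_add_apply, add_comm, Function.iterate_add_apply, hV₀ q.1 (Finset.mem_product.1 hq).1]
  have hVs : ∀ v ∈ V, s v ∈ V := by
    intro v hv
    obtain ⟨q, hq, rfl⟩ := Finset.mem_image.1 hv
    obtain ⟨h1, h2⟩ := Finset.mem_product.1 hq
    rw [Finset.mem_range] at h2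
    rw [← Function.iterate_succ_apply' s q.2 q.1]
    rcases Nat.lt_or_ge (q.2 + 1) M with h3 | h3
    · exact Finset.mem_image.2 ⟨(q.1, q.2 + 1), Finset.mem_product.2 ⟨h1, Finset.mem_range.2 h3⟩, rfl⟩
    · have h4 : q.2 + 1 = M := by omega
      refine Finset.mem_image.2 ⟨(q.1, 0), Finset.mem_product.2 ⟨h1, Finset.mem_range.2 hM1⟩, ?_⟩
      change s^[0] q.1 = s^[q.2 + 1] q.1
      rw [h4, hV₀ q.1 h1]
      rfl
  have hV₀V : ∀ v ∈ V₀, v ∈ V := fun v hv => Finset.mem_image.2 ⟨(v, 0), Finset.mem_product.2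
    ⟨hv, Finset.mem_range.2 hM1⟩, rfl⟩
  have hWV : ∀ v ∈ W, v ∈ V := fun v hv => hV₀V v (Finset.mem_union_left _ (Finset.mem_union_left _ hv))
  have hWiV : ∀ v ∈ W, v⁻¹ ∈ V := fun v hv => hV₀V _ (Finset.mem_union_left _ (Finset.mem_union_right _
    (Finset.mem_image.2 ⟨v, hv, rfl⟩)))
  have hWdV : ∀ v ∈ W, ∀ m, (s^[m] v - v)⁻¹ ∈ V := by
    intro v hv m
    have h1 : s^[m] v = s^[m % M] v := (Function.IsPeriodicPt.iterate_mod_apply (hWM v hv) m).symm
    rw [h1]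
    exact hV₀V _ (Finset.mem_union_right _ (Finset.mem_image.2 ⟨(v, m % M), Finset.mem_product.2
      ⟨hv, Finset.mem_range.2 (Nat.mod_lt _ hM1)⟩, rfl⟩))
  have hVsi : ∀ (m : ℕ), ∀ v ∈ V, s^[m] v ∈ V := by
    intro m
    induction m with
    | zero => exact fun v hv => hv
    | succ m ih =>
      intro v hv
      rw [Function.iterate_succ_apply']
      exact hVs _ (ih v hv)
  obtain ⟨r, t, η, P, D, G, ht, hts, hη, hPm, hPi, hmin, hD0, hG⟩ := setup s M V hM1 hV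
  obtain ⟨t', hDt, hirr⟩ := hit P hPm hPi D hD0
  obtain ⟨O, φ, hO, hφ, hOs, hOint, hadd, hmul, halg⟩ := spec t ht s hts t'
  have hsat : ∀ a, s (atZ t a) = atZ t a := by
    intro a
    have h1 : (s : ℂ →+* ℂ).comp (atZ t) = atZ t := by
      refine MvPolynomial.ringHom_ext (fun n => ?_) fun j => ?_
      · simp [atZ]
      · simp [atZ_X, hts]
    exact RingHom.congr_fun h1 a
  have hPη : P.eval₂ (atZ t) η = 0 := by
    rw [← eval_map, ← hmin, eval_map_algebraMap]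
    exact minpoly.aeval _ _
  have hsev : ∀ (Q : (MvPolynomial (Fin r) ℤ)[X]) (x : ℂ), s (Q.eval₂ (atZ t) x) = Q.eval₂ (atZ t) (s x) := by
    intro Q x
    have h1 : (s : ℂ →+* ℂ).comp (atZ t) = atZ t := RingHom.ext hsat
    have h2 := Polynomial.hom_eval₂ Q (atZ t) (s : ℂ →+* ℂ) x
    rw [h1] at h2
    exact h2
  have hηO : η ∈ O := hOint P η hPm hPη
  have hsηO : s η ∈ O := hOs _ hηO
  have hpow : ∀ x ∈ O, ∀ n : ℕ, φ (x ^ n) = φ x ^ n := by
    intro x hx n
    induction n with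
    | zero =>
      rw [pow_zero, pow_zero]
      have h1 := hφ 1
      rw [map_one, map_one] at h1
      exact h1
    | succ n ih => rw [pow_succ, pow_succ, hmul _ (O.pow_mem hx n) _ hx, ih]
  have hφev : ∀ (Q : (MvPolynomial (Fin r) ℤ)[X]), ∀ x ∈ O, φ (Q.eval₂ (atZ t) x) =
      (Q.map (MvPolynomial.eval t')).eval₂ (Int.castRingHom ℂ) (φ x) ∧ Q.eval₂ (atZ t) x ∈ O := by
    intro Q x hx
    induction Q using Polynomial.induction_on' with
    | add p q hp hq =>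
      rw [eval₂_add, Polynomial.map_add, eval₂_add, hadd _ hp.2 _ hq.2, hp.1, hq.1]
      exact ⟨rfl, O.add_mem hp.2 hq.2⟩
    | monomial n a =>
      rw [eval₂_monomial, map_monomial, eval₂_monomial, hmul _ (hO a) _ (O.pow_mem hx n), hφ, hpow x hx]
      exact ⟨rfl, O.mul_mem (hO a) (O.pow_mem hx n)⟩
  set P' : ℤ[X] := P.map (MvPolynomial.eval t') with hP'
  have hP'η : P'.eval₂ (Int.castRingHom ℂ) (φ η) = 0 := by
    rw [← (hφev P η hηO).1, hPη]
    have h1 := hφ 0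
    rw [map_zero, map_zero] at h1
    exact h1
  have hP'sη : P'.eval₂ (Int.castRingHom ℂ) (φ (s η)) = 0 := by
    rw [← (hφev P (s η) hsηO).1, ← hsev, hPη, map_zero]
    have h1 := hφ 0
    rw [map_zero, map_zero] at h1
    exact h1
  obtain ⟨σ, hσ⟩ := conj_roots P' (hPm.map _) hirr (φ η) (φ (s η)) hP'η hP'sη
  -- the values
  have hDv : ∀ v ∈ V, atZ t D * v ∈ O := by
    intro v hv
    rw [hG v hv]
    exact (hφev (G v) η hηO).2
  have hDt' : sp t' D ≠ 0 := by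
    change ((MvPolynomial.eval t' D : ℤ) : ℂ) ≠ 0
    exact_mod_cast hDt
  let v' : ℂ → ℂ := fun v => φ (atZ t D * v) / sp t' D
  have hσv : ∀ v ∈ V, σ (v' v) = v' (s v) := by
    intro v hv
    change σ (φ (atZ t D * v) / sp t' D) = φ (atZ t D * s v) / sp t' D
    have h1 : σ (sp t' D) = sp t' D := map_intCast σ _
    have h2 : atZ t D * s v = s (atZ t D * v) := by rw [map_mul, hsat]
    rw [map_div₀, h1, h2, hG v hv, hsev, (hφev (G v) η hηO).1, (hφev (G v) (s η) hsηO).1]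
    congr 1
    have h3 := Polynomial.hom_eval₂ ((G v).map (MvPolynomial.eval t')) (Int.castRingHom ℂ) (σ : ℂ →+* ℂ) (φ η)
    rw [Subsingleton.elim ((σ : ℂ →+* ℂ).comp (Int.castRingHom ℂ)) (Int.castRingHom ℂ)] at h3
    change σ _ = _ at h3
    rw [h3]
    congr 1
  have hσvi : ∀ (m : ℕ), ∀ v ∈ V, σ^[m] (v' v) = v' (s^[m] v) := by
    intro m
    induction m with
    | zero => exact fun v hv => rfl
    | succ m ih =>
      intro v hv
      rw [Function.iterate_succ_apply', ih v hv, hσv _ (hVsi m v hv), Function.iterate_succ_apply']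
  have hv'alg : ∀ v ∈ V, IsAlgebraic ℚ (v' v) := by
    intro v hv
    have h1 : IsAlgebraic ℚ (sp t' D) := isAlgebraic_intCast _
    exact (halg _ (hDv v hv)).mul h1.inv
  let Z : Finset ℂ := V.image v' ∪ {φ η, sp t' D}
  have hZ : ∀ z ∈ Z, IsAlgebraic ℚ z := by
    intro z hz
    rcases Finset.mem_union.1 hz with hz | hz
    · obtain ⟨v, hv, rfl⟩ := Finset.mem_image.1 hz
      exact hv'alg v hv
    · rcases Finset.mem_insert.1 hz with hz | hz
      · rw [hz]
        exact halg η hηO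
      · rw [Finset.mem_singleton.1 hz]
        exact isAlgebraic_intCast _
  obtain ⟨p, hp, τ₀, hpN, hUn, hfr⟩ := Pool.Agent.Helper53.OB.frob_equiv σ Z hZ N₀
  have hηZ : φ η ∈ Z := Finset.mem_union_right _ (Finset.mem_insert_self _ _)
  have hDZ : sp t' D ∈ Z := Finset.mem_union_right _ (Finset.mem_insert_of_mem (Finset.mem_singleton_self _))
  have hvZ : ∀ v ∈ V, v' v ∈ Z := fun v hv => Finset.mem_union_left _ (Finset.mem_image_of_mem _ hv)
  let θ : Fin r → PadicAlgCl p := fun j => ((t' j : ℤ) : PadicAlgCl p)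
  let ρ : PadicAlgCl p := τ₀ (φ η)
  have hρ : ‖ρ‖ ≤ 1 := (hUn _ hηZ).1
  have hρρ : (ρ, ρ) ∈ CR p := mem_CR.2 ⟨hρ, hρ, by rw [sub_self, norm_zero]; exact one_pos⟩
  have hτ₀ev : ∀ (Q : (MvPolynomial (Fin r) ℤ)[X]),
      Q.eval₂ ((Int.castRingHom (PadicAlgCl p)).comp (MvPolynomial.eval t')) ρ =
        τ₀ ((Q.map (MvPolynomial.eval t')).eval₂ (Int.castRingHom ℂ) (φ η)) := by
    intro Q
    have h3 := Polynomial.hom_eval₂ (Q.map (MvPolynomial.eval t')) (Int.castRingHom ℂ) (τ₀ : ℂ →+* PadicAlgCl p) (φ η)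
    rw [Subsingleton.elim ((τ₀ : ℂ →+* PadicAlgCl p).comp (Int.castRingHom ℂ)) (Int.castRingHom _)] at h3
    have h4 := eval₂_map (p := Q) (MvPolynomial.eval t') (Int.castRingHom (PadicAlgCl p)) ρ
    rw [← h4]
    exact h3.symm
  obtain ⟨τ, hτt, hτη⟩ := padic_lift t ht η hη θ ρ hρ (by
    intro τ₁ h2
    refine ⟨fun n => ?_, ?_⟩
    · have h3 := (mem_CR.1 (cr_at t t' τ₁ h2 (P.coeff n))).1
      have h4 := congrArg (fun Q : ℂ[X] => Q.coeff n) hmin
      simp only [coeff_map] at h4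
      rw [← h4] at h3
      exact h3
    · have h3 := (mem_CR.1 (cr_eval t t' τ₁ h2 P ρ ρ hρρ)).2.2
      rw [hτ₀ev P, hP'η, map_zero, sub_zero] at h3
      rw [← Polynomial.map_map, hmin, Polynomial.map_map, eval_map]
      exact h3)
  have hηρ : (τ η, ρ) ∈ CR p := by
    refine mem_CR.2 ⟨?_, hρ, hτη⟩
    have e1 : τ η = (τ η - ρ) + ρ := by ring
    rw [e1]
    exact (IsUltrametricDist.norm_add_le_max _ _).trans (max_le hτη.le hρ)
  have hDn : ‖((MvPolynomial.eval t' D : ℤ) : PadicAlgCl p)‖ = 1 := by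
    have h2 := (hUn _ hDZ).2 hDt'
    have h3 : (τ₀ : ℂ →+* PadicAlgCl p) (sp t' D) = ((MvPolynomial.eval t' D : ℤ) : PadicAlgCl p) := map_intCast _ _
    rw [h3] at h2
    exact h2
  have key : ∀ v ∈ V, (τ v, τ₀ (v' v)) ∈ CR p := by
    intro v hv
    have h3 := cr_eval t t' τ hτt (G v) (τ η) ρ hηρ
    rw [hτ₀ev (G v), ← (hφev (G v) η hηO).1, ← hG v hv, ← Polynomial.hom_eval₂, ← hG v hv] at h3
    have h4 := cr_div h3 (cr_at t t' τ hτt D) hDn
    have hD1 : atZ t D ≠ 0 := fun h => hD0 (atZ_inj ht (by rw [h, map_zero]))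
    have h5 : τ (atZ t D * v) / τ (atZ t D) = τ v := by
      rw [← map_div₀, mul_div_cancel_left₀ _ hD1]
    have h6 : τ₀ (φ (atZ t D * v)) / ((MvPolynomial.eval t' D : ℤ) : PadicAlgCl p) = τ₀ (v' v) := by
      change _ = τ₀ (φ (atZ t D * v) / sp t' D)
      rw [map_div₀]
      congr 1
      exact (map_intCast τ₀ _).symm
    rw [h5, h6] at h4
    exact h4
  refine ⟨p, hp, τ, hpN, fun z hz => ⟨(mem_CR.1 (key z (hWV z hz))).1, fun hz0 => ?_⟩, fun z hz m => ?_⟩
  · have h1 := (mem_CR.1 (key z (hWV z hz))).1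
    have h2 := (mem_CR.1 (key z⁻¹ (hWiV z hz))).1
    refine le_antisymm h1 ?_
    have h3 : ‖τ z‖ * ‖τ z⁻¹‖ = 1 := by
      rw [← norm_mul, ← map_mul, mul_inv_cancel₀ hz0, map_one, norm_one]
    calc (1 : ℝ) = ‖τ z‖ * ‖τ z⁻¹‖ := h3.symm
      _ ≤ ‖τ z‖ * 1 := mul_le_mul_of_nonneg_left h2 (norm_nonneg _)
      _ = ‖τ z‖ := mul_one _
  · rw [cr_frob (key z (hWV z hz)), hfr _ (hvZ z (hWV z hz)) m, hσvi m z (hWV z hz)]
    constructor
    · intro h1
      by_contra h2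
      have h3 : s^[m] z - z ≠ 0 := sub_ne_zero.2 h2
      set u := s^[m] z - z with hu
      have h4 := hWdV z hz m
      have h5 : φ (atZ t D * u⁻¹) * φ (atZ t D * s^[m] z) = φ (atZ t D * u⁻¹) * φ (atZ t D * z) := by
        have h6 : φ (atZ t D * s^[m] z) = φ (atZ t D * z) := by
          have h7 : φ (atZ t D * s^[m] z) / sp t' D = φ (atZ t D * z) / sp t' D := h1
          exact (div_left_inj' hDt').1 h7
        rw [h6]
      have hA := hDv _ h4
      have hB := hDv _ (hVsi m z (hWV z hz))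
      have hC := hDv _ (hWV z hz)
      rw [← hmul _ hA _ hB, ← hmul _ hA _ hC] at h5
      have h6 : (atZ t D * u⁻¹) * (atZ t D * s^[m] z) = (atZ t D * u⁻¹) * (atZ t D * z) + atZ t (D * D) := by
        rw [map_mul]
        have h7 : s^[m] z = u + z := by rw [hu]; ring
        rw [h7]
        field_simp
        ring
      rw [h6, hadd _ (O.mul_mem hA hC) _ (hO _), hφ] at h5
      have h7 : sp t' (D * D) = 0 := by
        have h8 := h5
        rwa [add_eq_left] at h8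
      rw [map_mul, mul_self_eq_zero] at h7
      exact hDt' h7
    · intro h1
      rw [h1]

end

end Pool.Agent.Helper26.HI
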