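import Mathlib
import Pool.Agent.Helper26.HI.Core
import Pool.Agent.Helper10.V3.Crit

/-!
# HI: an unramified map of a closed set along an orbit with residues in a finite field
-/

set_option autoImplicit false

namespace Pool.Agent.Helper26.HI

open MvPolynomial Pool.Agent.Helper61.TH Pool.Agent.Helper87.FK Pool.Agent.Helper26.OB Pool.Agent.Helper26.OS

noncomputable section

theorem baseP (A : Subfield ℂ) (hA : ∀ z : ℂ, IsAlgebraic A z → z ∈ A) {m : ℕ} (B : Finset (MvPolynomial (Fin m) ℂ))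
    (hB : ∀ g ∈ B, ∀ s, coeff s g ∈ A) (D : Finset (MvPolynomial (Fin m) ℂ)) (hD : ∀ g ∈ D, ∀ s, coeff s g ∈ A)
    (F : Fin m → MvPolynomial (Fin m) ℂ) (hF : ∀ i s, coeff s (F i) ∈ A)
    (hun : ∀ t : Fin m → ℂ, (∀ g ∈ B, eval t g = 0) → (∃ g ∈ D, eval t g ≠ 0) →
      ¬ Pool.Agent.Helper10.V3.Ram (B : Set (MvPolynomial (Fin m) ℂ)) F t) :
    ∃ Z : Finset ℂ, (∀ z ∈ Z, z ∈ A) ∧ ∀ (p : ℕ) [Fact p.Prime] (τ : ℂ →+* PadicAlgCl p), Un τ Z →
      ∀ y : ℕ → Fin m → ℂ, (∀ n, ∀ g ∈ B, eval (y n) g = 0) → (∀ n i, ‖τ (y n i)‖ ≤ 1) →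
      (∀ n, ∃ g ∈ D, ‖τ (eval (y n) g)‖ = 1) →
      (∀ n, y (n + 1) = ev F (y n)) → (∀ i s, ‖τ (coeff s (F i))‖ ≤ 1) →
      (∀ n i, rd τ (y n i) ^ p = rd τ (y n i)) →
      ∃ (F' : ℕ → Fin m → MvPolynomial (Fin m) ℂ) (T N₁ : ℕ), 1 ≤ T ∧ (∀ n, N₁ ≤ n → F' (n + T) = F' n) ∧
        (∀ n i s, ‖τ (coeff s (F' n i))‖ ≤ 1) ∧ (∀ n, ev (F' n) (y n) = y (n + 1)) ∧
        ∀ n, ‖τ (jac (F' n) (y n)).det‖ = 1 := by
  classical
  obtain ⟨𝓛, S, h𝓛, hS, h⟩ := Pool.Agent.Helper10.V3.crit_unit A hA (B : Set (MvPolynomial (Fin m) ℂ)) hB D hD F hF {1} (by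
      intro g hg u
      rw [Finset.mem_singleton.1 hg, coeff_one]
      split_ifs
      · exact A.one_mem
      · exact A.zero_mem) (fun t ht hr => absurd hr (hun t ht.1 ht.2))
  refine ⟨S, hS, fun p _ τ hUn y hyB hy hyD hstep hFi hfr => ?_⟩
  obtain ⟨h1, h2⟩ := h p τ hUn
  have hunit : ∀ n, ∃ F' ∈ 𝓛, ‖τ (jac F' (y n)).det‖ = 1 := fun n => h2 (y n) (hyB n) (hy n)
    (hyD n) ⟨1, Finset.mem_singleton_self _, by rw [map_one, map_one, norm_one]⟩
  -- the residues
  let res : ℕ → Fin m → kk p := fun n i => rd τ (y n i)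
  have hnext : ∀ n n', res n = res n' → res (n + 1) = res (n' + 1) := by
    intro n n' hnn
    funext i
    change rd τ (y (n + 1) i) = rd τ (y (n' + 1) i)
    rw [hstep n, hstep n']
    change rd τ (eval (y n) (F i)) = rd τ (eval (y n') (F i))
    rw [(Pool.Agent.Helper10.TR.rd_eval τ (F i) (hFi i) (y n) (hy n)).2,
      (Pool.Agent.Helper10.TR.rd_eval τ (F i) (hFi i) (y n') (hy n')).2]
    exact congrArg (fun v => eval v (Pool.Agent.Helper10.TR.rp τ (F i))) hnn
  have hfin : (Set.univ.pi fun _ : Fin m => {x : kk p | x ^ p = x}).Finite := by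
    refine Set.Finite.pi fun _ => ?_
    have h3 : (Polynomial.X ^ p - Polynomial.X : Polynomial (kk p)) ≠ 0 := by
      have hp := (Fact.out : p.Prime).one_lt
      intro h4
      have h5 := congrArg (fun q : Polynomial (kk p) => q.coeff p) h4
      simp only [Polynomial.coeff_sub, Polynomial.coeff_X_pow, Polynomial.coeff_X, Polynomial.coeff_zero] at h5
      rw [if_neg (show ¬ (1 = p) by omega), sub_zero] at h5
      simp at h5
    refine (Polynomial.finite_setOfPred_isRoot h3).subset ?_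
    intro x hx
    change Polynomial.IsRoot _ x
    rw [Polynomial.IsRoot.def, Polynomial.eval_sub, Polynomial.eval_pow, Polynomial.eval_X]
    exact sub_eq_zero.2 hx
  obtain ⟨i, j, hij, hr⟩ : ∃ i j, i < j ∧ res i = res j := by
    have h3 : ¬ Function.Injective fun n => (⟨res n, fun i _ => hfr n i⟩ :
        (Set.univ.pi fun _ : Fin m => {x : kk p | x ^ p = x} : Set (Fin m → kk p))) := by
      intro h4
      have : Finite (Set.univ.pi fun _ : Fin m => {x : kk p | x ^ p = x} : Set (Fin m → kk p)) := hfin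
      exact not_injective_infinite_finite _ h4
    rw [Function.Injective] at h3
    push Not at h3
    obtain ⟨a, b, hab, hne⟩ := h3
    have h4 : res a = res b := congrArg Subtype.val hab
    rcases Nat.lt_or_ge a b with hlt | hge
    · exact ⟨a, b, hlt, h4⟩
    · exact ⟨b, a, lt_of_le_of_ne hge (Ne.symm hne), h4.symm⟩
  have hper : ∀ n, i ≤ n → res (n + (j - i)) = res n := by
    intro n hn
    induction n, hn using Nat.le_induction with
    | base =>
      rw [Nat.add_sub_cancel' hij.le]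
      exact hr.symm
    | succ n hn ih =>
      rw [Nat.add_right_comm]
      exact hnext _ _ ih
  -- the choice
  choose Fc hFc hFu using hunit
  let G : (Fin m → kk p) → Fin m → MvPolynomial (Fin m) ℂ := fun x =>
    if hx : ∃ n, res n = x then Fc hx.choose else F
  have hG : ∀ n, ∃ n', res n' = res n ∧ G (res n) = Fc n' := by
    intro n
    have hx : ∃ n', res n' = res n := ⟨n, rfl⟩
    refine ⟨hx.choose, hx.choose_spec, ?_⟩
    change (if hx : ∃ n', res n' = res n then Fc hx.choose else F) = _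
    rw [dif_pos hx]
  refine ⟨fun n => G (res n), j - i, i, by omega, fun n hn => ?_, fun n => ?_, fun n => ?_, fun n => ?_⟩
  · change G (res (n + (j - i))) = G (res n)
    rw [hper n hn]
  · obtain ⟨n', -, h3⟩ := hG n
    change ∀ i s, ‖τ (coeff s (G (res n) i))‖ ≤ 1
    rw [h3]
    exact h1 _ (hFc n')
  · obtain ⟨n', -, h3⟩ := hG n
    change ev (G (res n)) (y n) = y (n + 1)
    rw [h3, hstep]
    funext i
    exact (h𝓛 _ (hFc n')).eval_eq (hyB n) i
  · obtain ⟨n', h3, h4⟩ := hG n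
    change ‖τ (jac (G (res n)) (y n)).det‖ = 1
    rw [h4]
    -- the determinants at congruent points
    choose Q hQ1 hQ2 using fun i => Pool.Agent.Helper10.TR.exists_lift τ (Fc n' i) (h1 _ (hFc n') i)
    have hdet : ∀ t : Fin m → ℂ, (jac (Fc n') t).det =
        eval t (map (Ot τ).subtype (Matrix.of fun i j => pderiv j (Q i)).det) := by
      intro t
      rw [RingHom.map_det, RingHom.map_det]
      congr 1
      ext i j
      show eval t (pderiv j (Fc n' i)) = eval t (map (Ot τ).subtype (pderiv j (Q i)))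
      rw [← hQ1, pderiv_map]
    have hcoef : ∀ s, ‖τ (coeff s (map (Ot τ).subtype (Matrix.of fun i j => pderiv j (Q i)).det))‖ ≤ 1 := by
      intro s
      rw [coeff_map]
      exact (mem_Ot τ).1 (coeff s (Matrix.of fun i j => pderiv j (Q i)).det).2
    have e1 := Pool.Agent.Helper10.TR.rd_eval τ _ hcoef (y n) (hy n)
    have e2 := Pool.Agent.Helper10.TR.rd_eval τ _ hcoef (y n') (hy n')
    rw [← hdet] at e1 e2
    have e3 : rd τ (jac (Fc n') (y n)).det = rd τ (jac (Fc n') (y n')).det := by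
      rw [e1.2, e2.2]
      exact congrArg (fun v => eval v _) h3.symm
    have e4 := hFu n'
    refine norm_of_rd_ne_zero τ e1.1 ?_
    rw [e3]
    intro h0
    have h5 := (rd_eq_zero τ e2.1).1 h0
    rw [e4] at h5
    exact lt_irrefl _ h5

end

end Pool.Agent.Helper26.HI
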