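import Mathlib
import Pool.Agent.Helper98.OT.CH
import Pool.Agent.Helper26.OT.FinC

/-!
# HI: lifts of points which are moved to critical points or into a finite set
-/

set_option autoImplicit false

namespace Pool.Agent.Helper26.HI

open MvPolynomial Pool.Agent.Helper61.TH Pool.Agent.Helper87.FK Pool.Agent.Helper26.OB Pool.Agent.Helper26.OS
open Pool.Agent.Helper26.OT Pool.Agent.Helper98.OT

noncomputable section

/-- the point `x` of the projective line lies in the set `Y` -/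
def InP {F : Type} [Field F] (Y : Set (Fin 2 → F)) (x : Fin 2 → F) : Prop := ∃ y ∈ Y, x 0 * y 1 = y 0 * x 1

section lifts

variable {p : ℕ} [Fact p.Prime] (τ : ℂ →+* PadicAlgCl p) {k : ℕ} {d : Fin k → ℕ} (c : ℕ → Idx d → ℂ)
  (hc : ∀ j q, ‖τ (c j q)‖ ≤ 1) (hd : ∀ a, 1 ≤ d a)
  (hgood : ∀ j a (x : Fin 2 → kk p), x ≠ 0 → ev (form (fun q => rd τ (c j q)) a) x ≠ 0) (π : Fin k → Fin k)

include hc hd hgood

theorem liftWr (hp : ∀ a, d a < p)
    (N : ℕ) (a b : Fin k) (x : Fin 2 → kk p) (hx : x ≠ 0)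
    (hw : wrh (fun q => rd τ (c N q)) a (chain (fun j q => rd τ (c j q)) π N b x) = 0) :
    ∃ y z : Fin 2 → ℂ, Lft τ x y ∧ Lft τ (chain (fun j q => rd τ (c j q)) π N b x) z ∧
      z 0 * chain c π N b y 1 = z 1 * chain c π N b y 0 ∧ wrh (c N) a z = 0 := by
  have := charP_kk p
  have := Pool.Agent.Helper46.OB.algClosed_kk p
  have hx' := chain_ne98 τ c hgood π N b x hx
  set x' := chain (fun j q => rd τ (c j q)) π N b x with hx'def
  set W : Polynomial ℂ := wr (c N) a with hWdef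
  have hco : ∀ m, (wr (fun q => rd τ (c N q)) a).coeff m = rd τ (W.coeff m) :=
    Pool.Agent.Helper11.OB.rd_wr τ (hc N) a
  set c' : Idx d → Oc p := fun q => ⟨τ (c N q), mem_Oc.2 (hc N q)⟩ with hc'
  have hlift : (wr c' a).map (algebraMap (Oc p) (PadicAlgCl p)) = W.map τ := by
    rw [map_wr, hWdef, map_wr]
    rfl
  have hint : ∀ m, ‖τ (W.coeff m)‖ ≤ 1 := by
    intro m
    rw [← Polynomial.coeff_map, ← hlift, Polynomial.coeff_map]
    exact mem_Oc.1 ((wr c' a).coeff m).2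
  have hunit : ∃ m, ‖τ (W.coeff m)‖ = 1 := by
    by_contra hcon
    push Not at hcon
    refine Pool.Agent.Helper10.OS.wk_ne_zero p (fun q => rd τ (c N q)) a (hd a) (hp a) (hgood N a) ?_
    refine (Pool.Agent.Helper11.OB.wr_sum (fun q => rd τ (c N q)) a).symm.trans ?_
    ext m
    rw [hco, rd_eq_zero98 τ (lt_of_le_of_ne (hint m) (hcon m)), Polynomial.coeff_zero]
  obtain ⟨z, hz, hz0⟩ := binLift98 τ W (2 * d a - 2) (Pool.Agent.Helper11.OB.natDegree_wr (c N) a (hd a)) hint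
    hunit x' hx' (by
      rw [Pool.Agent.Helper11.OB.wrh_eq _ a (hd a)] at hw
      rw [← hw]
      refine Finset.sum_congr rfl fun m _ => ?_
      rw [hco])
  have hwz : wrh (c N) a z = 0 := by
    rw [Pool.Agent.Helper11.OB.wrh_eq _ a (hd a)]
    exact hz0
  obtain ⟨y, hy, hpy⟩ := chainStep98 τ c hc hd hgood π N b x hx z hz
  exact ⟨y, z, hy, hz, hpy, hwz⟩

theorem liftIn (N : ℕ) (a b : Fin k) (x : Fin 2 → kk p) (hx : x ≠ 0) (u : Fin 2 → ℂ)
    (hu : Lft τ (ev (form (fun q => rd τ (c N q)) a) (chain (fun j q => rd τ (c j q)) π N b x)) u) :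
    ∃ y z : Fin 2 → ℂ, Lft τ x y ∧ Lft τ (chain (fun j q => rd τ (c j q)) π N b x) z ∧
      z 0 * chain c π N b y 1 = z 1 * chain c π N b y 0 ∧
      u 0 * ev (form (c N) a) z 1 = u 1 * ev (form (c N) a) z 0 := by
  have hx' := chain_ne98 τ c hgood π N b x hx
  obtain ⟨z, hz, hpz⟩ := stepLift98 τ (c N) (hc N) a (hd a) (hgood N a) _ hx' u hu
  obtain ⟨y, hy, hpy⟩ := chainStep98 τ c hc hd hgood π N b x hx z hz
  exact ⟨y, z, hy, hz, hpy, hpz⟩

end lifts

/-- the coordinate of a lift -/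
theorem Lft_pr {p : ℕ} [Fact p.Prime] {τ : ℂ →+* PadicAlgCl p} {x : Fin 2 → kk p} (hx : x ≠ 0) {y : Fin 2 → ℂ}
    (hy : Lft τ x y) : (y 1 = 0 → pr x = none) ∧
      (y 1 ≠ 0 → ‖τ (y 0 / y 1)‖ ≤ 1 → pr x = some (rd τ (y 0 / y 1))) := by
  refine ⟨?_, ?_⟩
  · intro hy1
    obtain ⟨hyi, ⟨i, hi⟩, hpar⟩ := hy
    have hi0 : ‖τ (y 0)‖ = 1 := by
      fin_cases i
      · exact hi
      · have h1 : ‖τ (y 1)‖ = 1 := hi
        rw [hy1, map_zero, norm_zero] at h1
        exact absurd h1 zero_ne_one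
    rw [hy1, Pool.Agent.Helper11.OB.rd_zero, zero_mul] at hpar
    have hx1 : x 1 = 0 := (mul_eq_zero.1 hpar).resolve_left (Pool.Agent.Helper11.OB.rd_ne_zero τ hi0)
    rw [pr, if_pos hx1]
  · intro hy1 hle
    obtain ⟨hyi, ⟨i, hi⟩, hpar⟩ := hy
    have hτ1 : τ (y 1) ≠ 0 := fun h => hy1 ((map_eq_zero τ).1 h)
    have hi1 : ‖τ (y 1)‖ = 1 := by
      fin_cases i
      · have h1 : ‖τ (y 0)‖ = 1 := hi
        rw [map_div₀, norm_div, h1, div_le_one (norm_pos_iff.2 hτ1)] at hle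
        exact le_antisymm (hyi 1) hle
      · exact hi
    have hr1 := Pool.Agent.Helper11.OB.rd_ne_zero τ hi1
    have hmul : rd τ (y 0) = rd τ (y 0 / y 1) * rd τ (y 1) := by
      rw [← rd_mul98 τ hle (hyi 1), div_mul_cancel₀ _ hy1]
    have hx1 : x 1 ≠ 0 := by
      intro h1
      rw [h1, mul_zero] at hpar
      have h0 : x 0 = 0 := (mul_eq_zero.1 hpar.symm).resolve_left hr1
      apply hx
      funext i
      fin_cases i
      · exact h0
      · exact h1
    rw [pr, if_neg hx1]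
    congr 1
    rw [div_eq_iff hx1]
    rw [hmul] at hpar
    refine mul_left_cancel₀ hr1 ?_
    linear_combination -hpar

/-- primitive proportional vectors have proportional residues -/
theorem rd_prop {p : ℕ} [Fact p.Prime] (τ : ℂ →+* PadicAlgCl p) {z u : Fin 2 → ℂ} (hz : ∀ i, ‖τ (z i)‖ ≤ 1)
    (hu : ∀ i, ‖τ (u i)‖ ≤ 1) (h : z 0 * u 1 = u 0 * z 1) :
    rd τ (z 0) * rd τ (u 1) = rd τ (u 0) * rd τ (z 1) := by
  rw [← rd_mul98 τ (hz 0) (hu 1), ← rd_mul98 τ (hu 0) (hz 1), h]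

/-- transitivity of proportionality -/
theorem prop_trans {F : Type} [Field F] {x y z : Fin 2 → F} (hy : y ≠ 0) (h1 : x 0 * y 1 = y 0 * x 1)
    (h2 : y 0 * z 1 = z 0 * y 1) : x 0 * z 1 = z 0 * x 1 := by
  have h3 : (y 0 ≠ 0) ∨ (y 1 ≠ 0) := by
    by_contra hcon
    push Not at hcon
    apply hy
    funext i
    fin_cases i
    · exact hcon.1
    · exact hcon.2
  rcases h3 with h3 | h3
  · refine mul_left_cancel₀ h3 ?_
    linear_combination x 0 * h2 + z 0 * h1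
  · refine mul_left_cancel₀ h3 ?_
    linear_combination z 1 * h1 + x 1 * h2

/-- points which are moved into the closed field -/
theorem mem_chain' (A : Subfield ℂ) (hA : ∀ z : ℂ, IsAlgebraic A z → z ∈ A) {k : ℕ} {d : Fin k → ℕ}
    (c : ℕ → Idx d → ℂ) (hc : ∀ j q, c j q ∈ A)
    (hdeg : ∀ j, HasDeg (c j)) (hd : ∀ a, 1 ≤ d a) (π : Fin k → Fin k) (N : ℕ) (b : Fin k) (x : Fin 2 → ℂ)
    (hx : x ≠ 0) (hw : chain c π N b x 0 / chain c π N b x 1 ∈ A) : x 0 / x 1 ∈ A := by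
  have h2 : ∀ (M : ℕ) (b : Fin k), chain c π M b x ≠ 0 := by
    intro M
    induction M with
    | zero => exact fun b => hx
    | succ M ih => exact fun b h => ih (π b) (hd_ev (c M) (hdeg M) b _ h)
  have h1 : ∀ (M : ℕ) (b : Fin k), chain c π M b x 0 / chain c π M b x 1 ∈ A → x 0 / x 1 ∈ A := by
    intro M
    induction M with
    | zero => exact fun b h => h
    | succ M ih => exact fun b h => ih (π b) (mem_step A hA (c M) (hc M) (hdeg M) b (hd b) _ (h2 M (π b)) h)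
  exact h1 N b hw

end

end Pool.Agent.Helper26.HI
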