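import Mathlib
import Pool.Agent.Helper26.OT.Core
import Pool.Agent.Helper64.HI.Surj

/-!
# HI: residues are periodic in the end; orbit lengths along the periodic part
-/

set_option autoImplicit false

namespace Pool.Agent.Helper26.HI

open MvPolynomial Pool.Agent.Helper61.TH Pool.Agent.Helper87.FK Pool.Agent.Helper26.OB Pool.Agent.Helper26.OS
open Pool.Agent.Helper26.OT

noncomputable section

theorem perA {S : Type*} (s : ℕ → S) (Ψ : S → S) (hs : ∀ n, s (n + 1) = Ψ (s n)) (hfin : (Set.range s).Finite) :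
    ∃ i T, 1 ≤ T ∧ ∀ n, i ≤ n → s (n + T) = s n := by
  have h1 : ¬ Function.Injective s := fun hinj => Set.infinite_range_of_injective hinj hfin
  obtain ⟨i, j, hlt, hij⟩ : ∃ i j, i < j ∧ s i = s j := by
    unfold Function.Injective at h1
    push Not at h1
    obtain ⟨i, j, hij, hne⟩ := h1
    rcases Nat.lt_or_gt_of_ne hne with h | h
    · exact ⟨i, j, h, hij⟩
    · exact ⟨j, i, h, hij.symm⟩
  refine ⟨i, j - i, by omega, fun n hn => ?_⟩
  obtain ⟨r, rfl⟩ := Nat.exists_eq_add_of_le hn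
  clear hn
  induction r with
  | zero =>
    rw [Nat.add_zero, hij]
    congr 1
    omega
  | succ r ih =>
    have h2 : i + (r + 1) + (j - i) = i + r + (j - i) + 1 := by omega
    rw [h2, hs, ih, ← hs]
    rfl

theorem fin_kk {p : ℕ} [hp : Fact p.Prime] (σ : kk p →+* kk p) (hσ : ∀ x, σ x = x ^ p) (x : kk p) :
    ∃ M, 1 ≤ M ∧ σ^[M] x = x := by
  by_cases hx : x = 0
  · exact ⟨1, le_rfl, by rw [hx, Function.iterate_one, map_zero]⟩
  obtain ⟨n, hn, hxn⟩ := Pool.Agent.Helper26.HI.exists_pow64 x hx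
  have hmem : ∀ j, (σ^[j] x) ^ n = 1 := by
    intro j
    induction j with
    | zero => exact hxn
    | succ j ih => rw [Function.iterate_succ_apply', ← map_pow, ih, map_one]
  have hfin : (Set.range fun j => σ^[j] x).Finite := by
    have h1 : {y : kk p | y ^ n = 1}.Finite := by
      have h2 : (Polynomial.X ^ n - Polynomial.C 1 : Polynomial (kk p)) ≠ 0 := Polynomial.X_pow_sub_C_ne_zero hn 1
      refine (Polynomial.finite_setOfPred_isRoot h2).subset fun y hy => ?_
      change y ^ n = 1 at hy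
      change Polynomial.IsRoot _ y
      rw [Polynomial.IsRoot.def, Polynomial.eval_sub, Polynomial.eval_pow, Polynomial.eval_X, Polynomial.eval_C, hy,
        sub_self]
    refine h1.subset ?_
    rintro _ ⟨j, rfl⟩
    exact hmem j
  obtain ⟨i, T, hT, h1⟩ := perA (fun j => σ^[j] x) σ (fun j => Function.iterate_succ_apply' _ _ _) hfin
  refine ⟨T, hT, ?_⟩
  have h2 := h1 i le_rfl
  have h3 : σ^[i] (σ^[T] x) = σ^[i] x := by
    rw [← Function.iterate_add_apply]
    exact h2
  exact (σ.injective.iterate i) h3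

theorem exM {p : ℕ} [hp : Fact p.Prime] (σ : kk p →+* kk p) (hσ : ∀ x, σ x = x ^ p) (Z : Finset (kk p)) :
    ∃ M, 1 ≤ M ∧ ∀ z ∈ Z, σ^[M] z = z := by
  classical
  induction Z using Finset.induction_on with
  | empty => exact ⟨1, le_rfl, fun z hz => absurd hz (Finset.notMem_empty z)⟩
  | insert a Z _ ih =>
    obtain ⟨M, hM, h1⟩ := ih
    obtain ⟨M', hM', h2⟩ := fin_kk σ hσ a
    refine ⟨M * M', Nat.mul_pos hM hM', fun z hz => ?_⟩
    rcases Finset.mem_insert.1 hz with rfl | hz
    · exact Function.IsPeriodicPt.trans_dvd (show Function.IsPeriodicPt σ M' z from h2) (Dvd.intro_left M rfl)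
    · exact Function.IsPeriodicPt.trans_dvd (show Function.IsPeriodicPt σ M z from h1 z hz) (Dvd.intro M' rfl)

theorem finA {p : ℕ} [hp : Fact p.Prime] (σ : kk p →+* kk p) (hσ : ∀ x, σ x = x ^ p) (M : ℕ) (hM : 1 ≤ M) :
    {z : kk p | σ^[M] z = z}.Finite := by
  have h1 : ∀ (M : ℕ) (z : kk p), σ^[M] z = z ^ p ^ M := by
    intro M
    induction M with
    | zero => intro z; simp
    | succ M ih => intro z; rw [Function.iterate_succ_apply', ih, hσ, ← pow_mul, pow_succ]
  have h2 : (Polynomial.X ^ p ^ M - Polynomial.X : Polynomial (kk p)) ≠ 0 :=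
    FiniteField.X_pow_card_pow_sub_X_ne_zero (kk p) (by omega) hp.out.one_lt
  refine (Polynomial.finite_setOfPred_isRoot h2).subset fun z hz => ?_
  change σ^[M] z = z at hz
  change Polynomial.IsRoot _ z
  rw [Polynomial.IsRoot.def, Polynomial.eval_sub, Polynomial.eval_pow, Polynomial.eval_X, ← h1, hz, sub_self]

theorem cyc_eq {k : ℕ} (π : Fin k → Fin k) (f : ℕ → Fin k → ℕ) (hf : ∀ n c, f (n + 1) c ≤ f n (π c)) (N₂ T : ℕ)
    (hT : 1 ≤ T) (hper : ∀ n, N₂ ≤ n → ∀ c, f (n + T) c = f n c) (N : ℕ) (a : Fin k) (ha : Adm π a a) (n : ℕ)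
    (hn : N₂ ≤ n) : f n (π^[N] (π a)) = f (n + N) (π a) := by
  have hle : ∀ j n c, f (n + j) c ≤ f n (π^[j] c) := by
    intro j
    induction j with
    | zero => exact fun n c => le_rfl
    | succ j ih =>
      intro n c
      calc f (n + (j + 1)) c ≤ f (n + j) (π c) := hf (n + j) c
        _ ≤ f n (π^[j] (π c)) := ih n (π c)
        _ = f n (π^[j + 1] c) := by rw [Function.iterate_succ_apply]
  have hperq : ∀ q c, f (n + T * q) c = f n c := by
    intro q c
    induction q with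
    | zero => rfl
    | succ q ih =>
      rw [Nat.mul_succ, ← Nat.add_assoc, hper _ (by omega), ih]
  obtain ⟨⟨c₀, hc₀⟩, -⟩ := ha
  refine le_antisymm ?_ (hle N n (π a))
  have hL : N ≤ T * ((c₀ + 1) * (N + 1)) := by
    have h1 : 1 * (1 * (N + 1)) ≤ T * ((c₀ + 1) * (N + 1)) :=
      Nat.mul_le_mul hT (Nat.mul_le_mul (by omega) le_rfl)
    omega
  have h2 : π^[T * ((c₀ + 1) * (N + 1))] (π a) = π a := by
    rw [← Function.iterate_succ_apply, Function.iterate_succ_apply']
    congr 1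
    have h3 : T * ((c₀ + 1) * (N + 1)) = (c₀ + 1) * (T * (N + 1)) := by ring
    rw [h3, Function.iterate_mul]
    exact Function.iterate_fixed hc₀ _
  rw [← hperq ((c₀ + 1) * (N + 1)) (π^[N] (π a))]
  obtain ⟨L', hL'⟩ := Nat.exists_eq_add_of_le hL
  rw [hL'] at h2 ⊢
  calc f (n + (N + L')) (π^[N] (π a)) = f (n + N + L') (π^[N] (π a)) := by rw [Nat.add_assoc]
    _ ≤ f (n + N) (π^[L'] (π^[N] (π a))) := hle L' (n + N) _
    _ = f (n + N) (π a) := by rw [← Function.iterate_add_apply, Nat.add_comm L' N, h2]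

end

end Pool.Agent.Helper26.HI
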