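import Mathlib
import Pool.Agent.Helper26.OT.Core
import Pool.Agent.Helper70.HI.EngP
import Pool.Agent.Helper26.HI.LiftQ
import Pool.Agent.Helper26.HI.Per
import Pool.Agent.Helper10.TR.ResE

/-!
# HI: residues along the orbit which avoids finite sets; exempt coordinates; critical points reached in the periodic part
-/

set_option autoImplicit false

namespace Pool.Agent.Helper26.HI

open MvPolynomial Pool.Agent.Helper61.TH Pool.Agent.Helper87.FK Pool.Agent.Helper26.OB Pool.Agent.Helper26.OS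
open Pool.Agent.Helper26.OT

noncomputable section

/-- **The core** -/
theorem coreR {m k : ℕ} {d : Fin k → ℕ} (hd : ∀ a, 1 ≤ d a) (F : Fin m → MvPolynomial (Fin m) ℂ)
    (C : Idx d → MvPolynomial (Fin m) ℂ) (π : Fin k → Fin k) (t : Fin m → ℂ) (α : Fin k → Fin 2 → ℂ)
    (hα : ∀ b, α b ≠ 0) (p : ℕ) [hp : Fact p.Prime] (hp3 : 3 ≤ p) (hpD : ∀ a, d a < p)
    (τ : ℂ →+* PadicAlgCl p) (σ : kk p →+* kk p) (hσ : ∀ x, σ x = x ^ p)
    (hF : ∀ i s, coeff s (F i) ∈ Sf τ σ) (hC : ∀ q s, coeff s (C q) ∈ Sf τ σ) (ht : ∀ i, t i ∈ Sf τ σ)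
    (hg : ∀ n a (x : Fin 2 → kk p), x ≠ 0 → ev (form (fun q => rd τ (at' C ((ev F)^[n] t) q)) a) x ≠ 0)
    (F' : ℕ → Fin m → MvPolynomial (Fin m) ℂ) (T N₁ : ℕ) (hT1 : 1 ≤ T) (hper : ∀ n, N₁ ≤ n → F' (n + T) = F' n)
    (hF' : ∀ n i s, ‖τ (coeff s (F' n i))‖ ≤ 1) (hev : ∀ n, ev (F' n) ((ev F)^[n] t) = (ev F)^[n + 1] t)
    (hJ : ∀ n, ‖τ (jac (F' n) ((ev F)^[n] t)).det‖ = 1) (N : ℕ)
    (E : Fin k → Prop) (Y : Fin k → Set (Fin 2 → kk p))
    (hE : ∀ a b, Adm π a b → E b → ∀ n (x : Fin 2 → kk p), x ≠ 0 →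
      wrh (fun q => rd τ (at' C ((ev F)^[n] t) q)) a x = 0 → ∀ e, 1 ≤ e → Smooth (Finset.univ.sup d) e →
        Function.minimalPeriod (Option.map σ) (rp τ (α b)) ≠ e * ol σ x)
    (hY0 : ∀ β : Fin k → Fin 2 → ℂ, (∀ b, ∃ l : ℂ, l ≠ 0 ∧ α b = fun i => l * β b i) → (∀ b i, ‖τ (β b i)‖ ≤ 1) →
      (∀ b, (fun i => rd τ (β b i)) ≠ 0) →
      (∀ n c, ∃ e, 1 ≤ e ∧ Smooth (Finset.univ.sup d) e ∧ Function.minimalPeriod (Option.map σ) (rp τ (α (π^[n] c))) =
        e * ol σ (fun i => rd τ (((sysS F C π)^[n] (t, β)).2 c i))) →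
      (∀ n c i, ‖τ (((sysS F C π)^[n] (t, β)).2 c i)‖ ≤ 1) →
      (∀ n c, (fun i => rd τ (((sysS F C π)^[n] (t, β)).2 c i)) ≠ 0) →
      ∀ n, n ≤ N → ∀ c, Adm π c c → ¬ E (π^[n] c) →
        ¬ InP (Y c) (fun i => rd τ (((sysS F C π)^[n] (t, β)).2 c i)))
    (hcr1 : ∀ a b, Adm π a b → ¬ E b → ∀ n (x : Fin 2 → kk p), x ≠ 0 →
      ¬ InP (Y (π a)) (chain (fun j q => rd τ (at' C ((ev F)^[n + j] t) q)) π N (π a) x) →
      InP (Y a) (ev (form (fun q => rd τ (at' C ((ev F)^[n + N] t) q)) a)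
          (chain (fun j q => rd τ (at' C ((ev F)^[n + j] t) q)) π N (π a) x)) →
      ∀ e, 1 ≤ e → Smooth (Finset.univ.sup d) e →
        Function.minimalPeriod (Option.map σ) (rp τ (α b)) ≠ e * ol σ x)
    (hcr2 : ∀ a b, Adm π a b → ¬ E b → ∀ n (x : Fin 2 → kk p), x ≠ 0 →
      ¬ InP (Y (π a)) (chain (fun j q => rd τ (at' C ((ev F)^[n + j] t) q)) π N (π a) x) →
      wrh (fun q => rd τ (at' C ((ev F)^[n + N] t) q)) a
        (chain (fun j q => rd τ (at' C ((ev F)^[n + j] t) q)) π N (π a) x) = 0 →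
      ol σ x = ol σ (chain (fun j q => rd τ (at' C ((ev F)^[n + j] t) q)) π N (π a) x) →
      ∀ e, 1 ≤ e → Smooth (Finset.univ.sup d) e →
        Function.minimalPeriod (Option.map σ) (rp τ (α b)) ≠ e * ol σ x)
    (V : Set (MvPolynomial (Fin m ⊕ Fin k × Fin 2) ℂ)) (hV : ∀ G ∈ V, MH G) : ∃ S : Finset (ℕ × ℕ),
      {n : ℕ | ∀ G ∈ V, eval (Sum.elim ((sysS F C π)^[n] (t, α)).1 fun q =>
        ((sysS F C π)^[n] (t, α)).2 q.1 q.2) G = 0} = {n | ∃ q ∈ S, ∃ j, n = q.1 + q.2 * j} := by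
  classical
  have hcharp : CharP (kk p) p := charP_kk p
  have halg : IsAlgClosed (kk p) := Pool.Agent.Helper46.OB.algClosed_kk p
  have hτF : ∀ i s, ‖τ (coeff s (F i))‖ ≤ 1 := fun i s => ((mem_Sf τ σ).1 (hF i s)).1
  rcases Nat.eq_zero_or_pos k with hk0 | hk0
  · -- no fibre
    subst hk0
    have hbase : ∀ n, ((sysS F C π)^[n] (t, α)).1 = (ev F)^[n] t := by
      intro n
      induction n with
      | zero => rfl
      | succ n ih =>
        rw [Function.iterate_succ_apply', Function.iterate_succ_apply']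
        change ev F ((sysS F C π)^[n] (t, α)).1 = _
        rw [ih]
    let f : Fin m ⊕ Fin 0 × Fin 2 → Fin 1 × Fin m := Sum.elim (fun i => (0, i)) fun q => q.1.elim0
    obtain ⟨S, hS⟩ := engP (fun n (_ : Fin 1) => F' n) T N₁ hT1 (fun n hn => by
      funext _
      exact hper n hn) p hp3 τ (fun n _ i s => hF' n i s) id (fun n _ => (ev F)^[n] t)
      (fun _ i => ((mem_Sf τ σ).1 (ht i)).1) (fun n _ => (hev n).symm) (fun _ _ n => hJ n) ((rename f) '' V)
    refine ⟨S, ?_⟩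
    rw [← hS]
    ext n
    simp only [Set.mem_ofPred_eq, Set.forall_mem_image]
    refine forall₂_congr fun G _ => ?_
    rw [eval_rename]
    have h1 : (fun q : Fin 1 × Fin m => (ev F)^[n] t q.2) ∘ f =
        Sum.elim ((sysS F C π)^[n] (t, α)).1 fun q => ((sysS F C π)^[n] (t, α)).2 q.1 q.2 := by
      funext i
      rcases i with i | i
      · change (ev F)^[n] t i = _
        rw [hbase]
        rfl
      · exact i.1.elim0
    rw [h1]
  -- the normalised point
  choose β ls hls hαβ hβ1 hβ0 hβr using fun b => exists_prim τ (α b) (hα b)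
  have hαβ' : α = fun b i => ls b * β b i := funext hαβ
  have hset : {n : ℕ | ∀ G ∈ V, eval (Sum.elim ((sysS F C π)^[n] (t, α)).1 fun q =>
        ((sysS F C π)^[n] (t, α)).2 q.1 q.2) G = 0} =
      {n : ℕ | ∀ G ∈ V, eval (Sum.elim ((sysS F C π)^[n] (t, β)).1 fun q =>
        ((sysS F C π)^[n] (t, β)).2 q.1 q.2) G = 0} := by
    ext n
    simp only [Set.mem_ofPred_eq]
    refine forall₂_congr fun G hG => ?_
    rw [hαβ']
    exact set_scale F C π t β ls hls n G (hV G hG)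
  rw [hset]
  -- the engine
  let b₀ : Fin k := ⟨0, hk0⟩
  let f : Fin m ⊕ Fin k × Fin 2 → Fin k × (Fin m ⊕ Fin 2) :=
    Sum.elim (fun i => (b₀, Sum.inl i)) fun q => (q.1, Sum.inr q.2)
  have hPS : ∀ n a i s, ‖τ (coeff s (PS (F' n) C a i))‖ ≤ 1 := by
    intro n a i s
    have h1 : ∀ (Q : MvPolynomial (Fin m) ℂ), (∀ s, coeff s Q ∈ Ot τ) →
        ∀ s, coeff s (rename (Sum.inl : Fin m → Fin m ⊕ Fin 2) Q) ∈ Ot τ := by
      intro Q hQ s
      by_cases hs : ∃ s', Finsupp.mapDomain Sum.inl s' = s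
      · obtain ⟨s', rfl⟩ := hs
        rw [coeff_rename_mapDomain _ Sum.inl_injective]
        exact hQ s'
      · rw [coeff_rename_eq_zero]
        · exact zero_mem _
        · intro u hu
          exact absurd ⟨u, hu⟩ hs
    have h2 : coeff s (PS (F' n) C a i) ∈ Ot τ := by
      have h3 : ∀ (Q : MvPolynomial (Fin m) ℂ), (∀ s, coeff s Q ∈ Ot τ) →
          ∃ Q' : MvPolynomial (Fin m ⊕ Fin 2) (Ot τ), map (Ot τ).subtype Q' = rename Sum.inl Q := by
        intro Q hQ
        have h4 : rename Sum.inl Q ∈ Set.range (map (σ := Fin m ⊕ Fin 2) (Ot τ).subtype) := by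
          rw [mem_range_map_iff_coeffs_subset]
          intro c hc
          rw [Finset.mem_coe, mem_coeffs_iff] at hc
          obtain ⟨n, hn, rfl⟩ := hc
          exact ⟨⟨_, h1 Q hQ n⟩, rfl⟩
        exact h4
      rcases i with i | i
      · exact h1 _ (fun s => (mem_Ot τ).2 (hF' n i s)) s
      · choose Q' hQ' using fun j : Fin (d a + 1) => h3 (C ⟨a, (i, j)⟩)
          fun s => (mem_Ot τ).2 ((mem_Sf τ σ).1 (hC ⟨a, (i, j)⟩ s)).1
        have h5 : PS (F' n) C a (Sum.inr i) = map (Ot τ).subtype (∑ j : Fin (d a + 1),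
            Q' j * X (Sum.inr 0) ^ (j : ℕ) * X (Sum.inr 1) ^ (d a - j)) := by
          change (∑ j : Fin (d a + 1), rename Sum.inl (C ⟨a, (i, j)⟩) * X (Sum.inr 0) ^ (j : ℕ) *
            X (Sum.inr 1) ^ (d a - j) : MvPolynomial (Fin m ⊕ Fin 2) ℂ) = _
          rw [map_sum]
          refine Finset.sum_congr rfl fun j _ => ?_
          rw [map_mul, map_mul, map_pow, map_pow, map_X, map_X, hQ' j]
        rw [h5, coeff_map]
        exact Subtype.prop _
    exact (mem_Ot τ).1 h2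
  -- the base
  have hT : ∀ n i, (ev F)^[n] t i ∈ Sf τ σ := by
    intro n
    induction n with
    | zero => exact ht
    | succ n ih =>
      rw [Function.iterate_succ_apply']
      exact fun i => eval₂_mem (fun s _ => hF i s) ih
  have hat : ∀ n q, at' C ((ev F)^[n] t) q ∈ Sf τ σ := fun n q => eval₂_mem (fun s _ => hC q s) (hT n)
  have hat1 : ∀ n q, ‖τ (at' C ((ev F)^[n] t) q)‖ ≤ 1 := fun n q => ((mem_Sf τ σ).1 (hat n q)).1
  -- the orbit
  have hbase : ∀ n, ((sysS F C π)^[n] (t, β)).1 = (ev F)^[n] t := by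
    intro n
    induction n with
    | zero => rfl
    | succ n ih =>
      rw [Function.iterate_succ_apply', Function.iterate_succ_apply']
      change ev F ((sysS F C π)^[n] (t, β)).1 = _
      rw [ih]
  let X' : ℕ → Fin k → Fin 2 → ℂ := fun n => ((sysS F C π)^[n] (t, β)).2
  have hX0 : X' 0 = β := rfl
  have hXs : ∀ n b, X' (n + 1) b = ev (form (at' C ((ev F)^[n] t)) b) (X' n (π b)) := by
    intro n b
    change ((sysS F C π)^[n + 1] (t, β)).2 b = _
    rw [Function.iterate_succ_apply']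
    change ev (form (at' C ((sysS F C π)^[n] (t, β)).1) b) (((sysS F C π)^[n] (t, β)).2 (π b)) = _
    rw [hbase]
  have hinv : ∀ n b, (∀ i, ‖τ (X' n b i)‖ ≤ 1) ∧ (fun i => rd τ (X' n b i)) ≠ 0 ∧
      ∃ e, 1 ≤ e ∧ Smooth (Finset.univ.sup d) e ∧
        ol σ (fun i => rd τ (β (π^[n] b) i)) = e * ol σ (fun i => rd τ (X' n b i)) := by
    intro n
    induction n with
    | zero =>
      intro b
      refine ⟨hβ1 b, hβ0 b, 1, le_rfl, fun r hr h1 => ?_, (one_mul _).symm⟩
      exact absurd (Nat.dvd_one.1 h1) hr.ne_one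
    | succ n ih =>
      intro b
      obtain ⟨h3, h4, e₀, he₀, hesm₀, h5⟩ := ih (π b)
      have hw := rd_word τ (at' C ((ev F)^[n] t)) (hat1 n) (X' n (π b)) h3 [b]
      rw [ev_word_cons, ev_word_nil, ev_word_cons, ev_word_nil] at hw
      rw [hXs, Function.iterate_succ_apply]
      refine ⟨hw.1, ?_, ?_⟩
      · rw [hw.2]
        exact hg n b _ h4
      · obtain ⟨e, he1, hesm, he⟩ := Pool.Agent.Helper46.OB.resdeg' (κ := kk p) σ (Finset.univ.sup d) hd
          (fun a => Finset.le_sup (f := d) (Finset.mem_univ a))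
          (fun q => rd τ (at' C ((ev F)^[n] t) q)) (fun q => ((mem_Sf τ σ).1 (hat n q)).2)
          (hg n) [b] (fun i => rd τ (X' n (π b) i)) h4
        rw [ev_word_cons, ev_word_nil] at he
        refine ⟨e₀ * e, Nat.mul_pos he₀ he1, fun r hr h6 => ?_, ?_⟩
        · rcases (hr.dvd_mul).1 h6 with h7 | h7
          · exact hesm₀ r hr h7
          · exact hesm r hr h7
        · rw [h5, he, hw.2, mul_assoc]
  have hch : ∀ (n M : ℕ) (b : Fin k), (fun i => rd τ (X' (n + M) b i)) =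
      chain (fun j q => rd τ (at' C ((ev F)^[n + j] t) q)) π M b fun i => rd τ (X' n (π^[M] b) i) := by
    intro n M
    induction M with
    | zero => exact fun b => rfl
    | succ M ih =>
      intro b
      have hw := rd_word τ (at' C ((ev F)^[n + M] t)) (hat1 (n + M)) (X' (n + M) (π b)) (hinv (n + M) (π b)).1 [b]
      rw [ev_word_cons, ev_word_nil, ev_word_cons, ev_word_nil] at hw
      rw [← Nat.add_assoc, hXs, hw.2, ih (π b), ← Function.iterate_succ_apply]
      rfl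
  -- one step
  have hstepr : ∀ n b, (fun i => rd τ (X' (n + 1) b i)) =
      ev (form (fun q => rd τ (at' C ((ev F)^[n] t) q)) b) (fun i => rd τ (X' n (π b) i)) := by
    intro n b
    have hw := rd_word τ (at' C ((ev F)^[n] t)) (hat1 n) (X' n (π b)) (hinv n (π b)).1 [b]
    rw [ev_word_cons, ev_word_nil, ev_word_cons, ev_word_nil] at hw
    rw [hXs, hw.2]
  have hrel : ∀ n c, ∃ e, 1 ≤ e ∧ Smooth (Finset.univ.sup d) e ∧
      Function.minimalPeriod (Option.map σ) (rp τ (α (π^[n] c))) = e * ol σ (fun i => rd τ (X' n c i)) := by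
    intro n c
    obtain ⟨-, -, e, he, hesm, h7⟩ := hinv n c
    refine ⟨e, he, hesm, ?_⟩
    rw [← hβr]
    exact h7
  -- cycles
  have hcyc : ∀ a, Adm π a a → ∀ n, Adm π a (π^[n + 1] a) := by
    rintro a ⟨⟨c, hc⟩, -⟩ n
    refine ⟨⟨n, rfl⟩, ⟨c * (n + 1), ?_⟩⟩
    rw [← Function.iterate_add_apply]
    have h9 : c * (n + 1) + (n + 1) = (c + 1) * (n + 1) := by ring
    rw [h9, Function.iterate_mul]
    exact Function.iterate_fixed hc _
  have hcyc' : ∀ a, Adm π a a → Adm π (π a) (π a) := by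
    rintro a ⟨⟨c, hc⟩, -⟩
    refine ⟨⟨c, ?_⟩, ⟨0, rfl⟩⟩
    rw [← Function.iterate_succ_apply, Function.iterate_succ_apply', hc]
  -- the orbit avoids the finite sets
  have havoid : ∀ n c, Adm π c c → ¬ E (π^[n] c) → ¬ InP (Y c) (fun i => rd τ (X' n c i)) := by
    intro n
    induction n with
    | zero =>
      intro c hc hEc
      exact hY0 β (fun b => ⟨ls b, hls b, hαβ b⟩) hβ1 hβ0 hrel (fun n c => (hinv n c).1)
          (fun n c => (hinv n c).2.1) 0 (Nat.zero_le _) c hc hEc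
    | succ n ih =>
      intro c hc hEc hin
      rcases Nat.lt_or_ge n N with hn | hn
      · exact hY0 β (fun b => ⟨ls b, hls b, hαβ b⟩) hβ1 hβ0 hrel (fun n c => (hinv n c).1)
          (fun n c => (hinv n c).2.1) (n + 1) hn c hc hEc hin
      · obtain ⟨n', rfl⟩ : ∃ n', n = n' + N := ⟨n - N, by omega⟩
        have h1 := ih (π c) (hcyc' c hc) (by rw [← Function.iterate_succ_apply]; exact hEc)
        rw [hch n' N (π c)] at h1
        rw [hstepr (n' + N) c, hch n' N (π c)] at hin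
        obtain ⟨h5, h6, e, he, hesm, h7⟩ := hinv n' (π^[N] (π c))
        have h8 : π^[n'] (π^[N] (π c)) = π^[n' + N + 1] c := by
          rw [Function.iterate_succ_apply, Function.iterate_add_apply]
        rw [h8] at h7
        refine hcr1 c _ (hcyc c hc (n' + N)) hEc n' _ h6 h1 hin e he hesm ?_
        rw [← hβr]
        exact h7
  -- one step and the orbit lengths
  let f₀ : ℕ → Fin k → ℕ := fun n c => ol σ (fun i => rd τ (X' n c i))
  have hstepf : ∀ n c, f₀ (n + 1) c ≤ f₀ n (π c) := by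
    intro n c
    obtain ⟨e, he1, -, he⟩ := Pool.Agent.Helper46.OB.resdeg' (κ := kk p) σ (Finset.univ.sup d) hd
      (fun a => Finset.le_sup (f := d) (Finset.mem_univ a))
      (fun q => rd τ (at' C ((ev F)^[n] t) q)) (fun q => ((mem_Sf τ σ).1 (hat n q)).2)
      (hg n) [c] (fun i => rd τ (X' n (π c) i)) (hinv n (π c)).2.1
    rw [ev_word_cons, ev_word_nil, ← hstepr] at he
    change ol σ (fun i => rd τ (X' (n + 1) c i)) ≤ ol σ (fun i => rd τ (X' n (π c) i))
    rw [he]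
    exact Nat.le_mul_of_pos_left _ he1
  -- the residues are periodic in the end
  obtain ⟨N₂, T₂, hT₂, hper₂⟩ : ∃ N₂ T₂, 1 ≤ T₂ ∧ ∀ n, N₂ ≤ n → ∀ c, f₀ (n + T₂) c = f₀ n c := by
    let Z : Finset (kk p) := (Finset.univ.image fun i => rd τ (t i)) ∪
      Finset.univ.biUnion fun b => Finset.univ.image fun i => rd τ (β b i)
    obtain ⟨M, hM, hMZ⟩ := exM σ hσ Z
    let A : Subring (kk p) := RingHom.eqLocus (σ ^ M) (RingHom.id (kk p))
    have hA : ∀ z, z ∈ A ↔ σ^[M] z = z := by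
      intro z
      change (σ ^ M) z = z ↔ _
      rw [RingHom.coe_pow]
    have hfixA : ∀ z, σ z = z → z ∈ A := by
      intro z hz
      rw [hA]
      exact Function.iterate_fixed hz M
    have hbA : ∀ n i, rd τ ((ev F)^[n] t i) ∈ A := fun n i => hfixA _ ((mem_Sf τ σ).1 (hT n i)).2
    have hXA : ∀ n c i, rd τ (X' n c i) ∈ A := by
      intro n
      induction n with
      | zero =>
        intro c i
        rw [hA]
        exact hMZ _ (Finset.mem_union_right _ (Finset.mem_biUnion.2 ⟨c, Finset.mem_univ _,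
          Finset.mem_image.2 ⟨i, Finset.mem_univ _, rfl⟩⟩))
      | succ n ih =>
        intro c i
        have h1 := congrFun (hstepr n c) i
        change rd τ (X' (n + 1) c i) = _ at h1
        rw [h1, Pool.Agent.Helper10.OS.ev_form]
        exact A.sum_mem fun j _ => A.mul_mem (A.mul_mem (hfixA _ ((mem_Sf τ σ).1 (hat n _)).2)
          (A.pow_mem (ih (π c) 0) _)) (A.pow_mem (ih (π c) 1) _)
    let st : ℕ → (Fin m → kk p) × (Fin k → Fin 2 → kk p) := fun n =>
      (fun i => rd τ ((ev F)^[n] t i), fun c i => rd τ (X' n c i))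
    let Ψ : (Fin m → kk p) × (Fin k → Fin 2 → kk p) → (Fin m → kk p) × (Fin k → Fin 2 → kk p) := fun z =>
      (fun i => eval z.1 (Pool.Agent.Helper10.TR.rp τ (F i)), fun c =>
        ev (form (fun q => eval z.1 (Pool.Agent.Helper10.TR.rp τ (C q))) c) (z.2 (π c)))
    have hstate : ∀ n, st (n + 1) = Ψ (st n) := by
      intro n
      refine Prod.ext ?_ ?_
      · funext i
        change rd τ ((ev F)^[n + 1] t i) = _
        rw [Function.iterate_succ_apply']
        exact (Pool.Agent.Helper10.TR.rd_eval τ (F i) (hτF i) _ fun v => ((mem_Sf τ σ).1 (hT n v)).1).2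
      · funext c
        change (fun i => rd τ (X' (n + 1) c i)) = _
        rw [hstepr n c]
        have h1 : (fun q => rd τ (at' C ((ev F)^[n] t) q)) = fun q =>
            eval (st n).1 (Pool.Agent.Helper10.TR.rp τ (C q)) := by
          funext q
          exact (Pool.Agent.Helper10.TR.rd_eval τ (C q) (fun s => ((mem_Sf τ σ).1 (hC q s)).1) _
            fun v => ((mem_Sf τ σ).1 (hT n v)).1).2
        rw [h1]
    have hfin : (Set.range st).Finite := by
      have h1 := finA σ hσ M hM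
      have h2 : ({y : Fin m → kk p | ∀ i, y i ∈ {z : kk p | σ^[M] z = z}}).Finite :=
        Set.Finite.pi' fun _ => h1
      have h3 : ({y : Fin k → Fin 2 → kk p | ∀ c, y c ∈ {y : Fin 2 → kk p | ∀ i, y i ∈ {z : kk p | σ^[M] z = z}}}).Finite :=
        Set.Finite.pi' fun _ => Set.Finite.pi' fun _ => h1
      refine (h2.prod h3).subset ?_
      rintro _ ⟨n, rfl⟩
      exact ⟨fun i => (hA _).1 (hbA n i), fun c i => (hA _).1 (hXA n c i)⟩
    obtain ⟨N₂, T₂, hT₂, h1⟩ := perA st Ψ hstate hfin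
    refine ⟨N₂, T₂, hT₂, fun n hn c => ?_⟩
    have h2 : (st (n + T₂)).2 c = (st n).2 c := by rw [h1 n hn]
    exact congrArg (ol σ) h2
  have hcyceq := fun a ha n hn => cyc_eq π f₀ hstepf N₂ T₂ hT₂ hper₂ N a ha n hn
  refine shift_ap (N₂ + N) ?_
  obtain ⟨S, hS⟩ := engP (fun n => PS (F' (n + (N₂ + N))) C) T N₁ hT1 (fun n hn => by
      change PS (F' (n + T + (N₂ + N))) C = PS (F' (n + (N₂ + N))) C
      rw [Nat.add_right_comm, hper (n + (N₂ + N)) (by omega)]) p hp3 τ (fun n => hPS (n + (N₂ + N))) π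
    (fun n b => Sum.elim ((ev F)^[n + (N₂ + N)] t) (X' (n + (N₂ + N)) b)) (by
    intro b i
    rcases i with i | i
    · exact ((mem_Sf τ σ).1 (hT (0 + (N₂ + N)) i)).1
    · exact (hinv (0 + (N₂ + N)) b).1 i) (by
    intro n b
    funext i
    rcases i with i | i
    · change (ev F)^[n + 1 + (N₂ + N)] t i = eval (Sum.elim ((ev F)^[n + (N₂ + N)] t) (X' (n + (N₂ + N)) (π b)))
        (rename Sum.inl (F' (n + (N₂ + N)) i))
      rw [eval_rename, Nat.add_right_comm, ← hev (n + (N₂ + N))]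
      rfl
    · have h1 := hXs (n + (N₂ + N)) b
      rw [Nat.add_right_comm n (N₂ + N) 1] at h1
      change X' (n + 1 + (N₂ + N)) b i = _
      rw [h1]
      exact (congrFun (Pool.Agent.Helper83.OS.evS (F' (n + (N₂ + N))) C b ((ev F)^[n + (N₂ + N)] t) (X' (n + (N₂ + N)) (π b)))
        (Sum.inr i)).symm) (by
    intro a ha n
    rw [Pool.Agent.Helper83.OS.detS, map_mul, norm_mul, hJ (n + (N₂ + N)), one_mul]
    obtain ⟨h3, h4, e₁, he₁, hesm₁, h71⟩ := hinv (n + (N₂ + N)) (π a)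
    obtain ⟨hj1, hj2⟩ := rd_jac τ (at' C ((ev F)^[n + (N₂ + N)] t)) (hat1 (n + (N₂ + N))) (X' (n + (N₂ + N)) (π a)) h3 a
    refine norm_of_rd_ne_zero τ hj1 ?_
    rw [hj2, Pool.Agent.Helper11.OB.jac_det]
    intro h0
    have hda : ((d a : ℕ) : kk p) ≠ 0 := by
      intro h1
      have h2 := (CharP.cast_eq_zero_iff (kk p) p (d a)).1 h1
      have h3 := Nat.le_of_dvd (hd a) h2
      have h4 := hpD a
      omega
    have hw0 := (mul_eq_zero.1 h0).resolve_left hda
    by_cases hEa : E (π^[n + (N₂ + N) + 1] a)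
    · refine hE a _ (hcyc a ha (n + (N₂ + N))) hEa (n + (N₂ + N)) _ h4 hw0 e₁ he₁ hesm₁ ?_
      rw [← hβr]
      exact h71
    have hav := havoid (n + (N₂ + N)) (π a) (hcyc' a ha) (by rw [← Function.iterate_succ_apply]; exact hEa)
    have hn3 : n + (N₂ + N) = n + N₂ + N := (Nat.add_assoc _ _ _).symm
    have hcy := hcyceq a ha (n + N₂) (by omega)
    rw [hn3] at hw0 hav hEa
    rw [hch (n + N₂) N (π a)] at hw0 hav
    obtain ⟨h5, h6, e, he, hesm, h7⟩ := hinv (n + N₂) (π^[N] (π a))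
    have h8 : π^[n + N₂] (π^[N] (π a)) = π^[n + N₂ + N + 1] a := by
      rw [Function.iterate_succ_apply, Function.iterate_add_apply π (n + N₂) N]
    rw [h8] at h7
    have h9 : ol σ (fun i => rd τ (X' (n + N₂) (π^[N] (π a)) i)) =
        ol σ (chain (fun j q => rd τ (at' C ((ev F)^[n + N₂ + j] t) q)) π N (π a)
          fun i => rd τ (X' (n + N₂) (π^[N] (π a)) i)) := by
      rw [← hch (n + N₂) N (π a)]
      exact hcy
    refine hcr2 a _ (hcyc a ha (n + N₂ + N)) hEa (n + N₂) _ h6 hav hw0 h9 e he hesm ?_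
    rw [← hβr]
    exact h7) ((rename f) '' V)
  refine ⟨S, ?_⟩
  rw [← hS]
  ext n
  simp only [Set.mem_ofPred_eq, Set.forall_mem_image]
  refine forall₂_congr fun G _ => ?_
  rw [eval_rename]
  have h1 : (fun q : Fin k × (Fin m ⊕ Fin 2) => (Sum.elim ((ev F)^[n + (N₂ + N)] t) (X' (n + (N₂ + N)) q.1) :
      Fin m ⊕ Fin 2 → ℂ) q.2) ∘ f =
      Sum.elim ((sysS F C π)^[n + (N₂ + N)] (t, β)).1 fun q => ((sysS F C π)^[n + (N₂ + N)] (t, β)).2 q.1 q.2 := by
    funext i
    rcases i with i | i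
    · change (ev F)^[n + (N₂ + N)] t i = ((sysS F C π)^[n + (N₂ + N)] (t, β)).1 i
      rw [hbase]
    · rfl
  rw [h1]

end

end Pool.Agent.Helper26.HI
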