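import Mathlib
import Pool.Agent.Helper26.HI.Ex4
import Pool.Agent.Helper26.RE.Emb

/-!
# HI: the embedding with an arbitrary automorphism and residues of transcendental numbers
-/

set_option autoImplicit false

namespace Pool.Agent.Helper26.HI

open Polynomial Pool.Agent.Helper87.FK Pool.Agent.Helper26.OB Pool.Agent.Helper26.RE

noncomputable section

/-- algebraic numbers over the fixed field have finite orbits -/
theorem fin_orbit (K : Subfield ℂ) (s : ℂ ≃+* ℂ) (hs : ∀ z ∈ K, s z = z) (z : ℂ) (hz : IsAlgebraic K z) :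
    ∃ m : ℕ, 1 ≤ m ∧ s^[m] z = z := by
  classical
  obtain ⟨P, hP, hPz⟩ := hz
  have h1 : ∀ x : ℂ, aeval x P = 0 → aeval (s x) P = 0 := by
    intro x hx
    have h2 := Polynomial.hom_eval₂ P (algebraMap K ℂ) (s : ℂ →+* ℂ) x
    have h3 : (s : ℂ →+* ℂ).comp (algebraMap K ℂ) = algebraMap K ℂ := by
      ext y
      exact hs y y.2
    rw [h3] at h2
    rw [aeval_def, ← RingEquiv.coe_toRingHom, ← h2, ← aeval_def, hx, map_zero]
  have h2 : ∀ n : ℕ, s^[n] z ∈ P.rootSet ℂ := by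
    intro n
    rw [mem_rootSet]
    refine ⟨hP, ?_⟩
    induction n with
    | zero => exact hPz
    | succ n ih =>
      rw [Function.iterate_succ_apply']
      exact h1 _ ih
  have h3 : ¬ Function.Injective fun n : ℕ => (⟨s^[n] z, h2 n⟩ : P.rootSet ℂ) := by
    intro h
    have : Finite (P.rootSet ℂ) := rootSet_finite P ℂ
    exact not_injective_infinite_finite _ h
  rw [Function.Injective] at h3
  push Not at h3
  obtain ⟨a, b, hab, hne⟩ := h3
  have h4 : s^[a] z = s^[b] z := congrArg Subtype.val hab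
  rcases Nat.lt_or_ge a b with hlt | hge
  · refine ⟨b - a, by omega, ?_⟩
    apply s.injective.iterate a
    rw [← Function.iterate_add_apply, Nat.add_sub_cancel' hlt.le]
    exact h4.symm
  · have hlt : b < a := lt_of_le_of_ne hge (Ne.symm hne)
    refine ⟨a - b, by omega, ?_⟩
    apply s.injective.iterate b
    rw [← Function.iterate_add_apply, Nat.add_sub_cancel' hlt.le]
    exact h4

theorem exCs (A : Subfield ℂ) (hA : ∀ z : ℂ, IsAlgebraic A z → z ∈ A) (hAc : (A : Set ℂ).Countable) (s : ℂ ≃+* ℂ)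
    (hs : ∀ z ∈ A, ∃ m : ℕ, 1 ≤ m ∧ s^[m] z = z) (Z : Finset ℂ)
    (hZ : ∀ z ∈ Z, z ∈ A) {k : ℕ} (zz : Fin k → ℂ) (l' : ℕ) (hl' : l'.Prime) (N₀ : ℕ) :
    ∃ (p : ℕ) (_ : Fact p.Prime) (τ : ℂ →+* PadicAlgCl p) (σ' : kk p →+* kk p), N₀ < p ∧
      Un τ Z ∧ (∀ x, σ' x = x ^ p) ∧ (∀ z ∈ Z, ∀ m : ℕ, σ'^[m] (rd τ z) = rd τ z ↔ s^[m] z = z) ∧
      ∀ b, zz b ∉ A → ‖τ (zz b)‖ ≤ 1 ∧
        ∀ m : ℕ, 1 ≤ m → σ'^[m] (rd τ (zz b)) = rd τ (zz b) → l' ∣ m := by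
  classical
  let Y : Finset ℂ := (Finset.univ.filter fun b => zz b ∉ A).image zz ∪
    (Finset.univ.filter fun b => zz b ∉ A).image fun b => (zz b)⁻¹
  have hYm : ∀ b, zz b ∉ A → zz b ∈ Y ∧ (zz b)⁻¹ ∈ Y := fun b hb =>
    ⟨Finset.mem_union_left _ (Finset.mem_image.2 ⟨b, Finset.mem_filter.2 ⟨Finset.mem_univ _, hb⟩, rfl⟩),
      Finset.mem_union_right _ (Finset.mem_image.2 ⟨b, Finset.mem_filter.2 ⟨Finset.mem_univ _, hb⟩, rfl⟩)⟩
  have hY : ∀ y ∈ Y, y ∉ A := by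
    intro y hy
    rcases Finset.mem_union.1 hy with hy | hy
    · obtain ⟨b, hb, rfl⟩ := Finset.mem_image.1 hy
      exact (Finset.mem_filter.1 hb).2
    · obtain ⟨b, hb, rfl⟩ := Finset.mem_image.1 hy
      intro h1
      apply (Finset.mem_filter.1 hb).2
      have h2 := A.inv_mem h1
      rwa [inv_inv] at h2
  obtain ⟨ZT, hZT, htr⟩ := Pool.Agent.Helper83.OBA.trans' (fun A hA Y hY => Pool.Agent.Helper38.OB.teq' A hA Y hY)
    (fun p _ N hN => unity p N hN) (fun p _ L₀ hL₀ τ₀ _ t ht θ => emb p L₀ hL₀ τ₀ t ht θ) A hA hAc Y hY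
  have hsZ : ∀ z ∈ Z ∪ ZT, ∃ m : ℕ, 1 ≤ m ∧ s^[m] z = z := by
    intro z hz
    rcases Finset.mem_union.1 hz with hz | hz
    · exact hs z (hZ z hz)
    · exact hs z (hZT z hz)
  obtain ⟨p, hp, τ₀, hpN, hUn, hfr⟩ := exS s (Z ∪ ZT) hsZ N₀
  choose! μ hμ1 hμ using hsZ
  obtain ⟨τ, hτ, hτY⟩ := htr p τ₀ (∏ z ∈ Z ∪ ZT, μ z) (Finset.one_le_prod' hμ1) (fun z hz =>
    ⟨(hUn z (Finset.mem_union_right _ hz)).1, (hfr z (Finset.mem_union_right _ hz) _).2 (by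
      have h1 : Function.IsPeriodicPt s (μ z) z := hμ z (Finset.mem_union_right _ hz)
      exact h1.trans_dvd (Finset.dvd_prod_of_mem μ (Finset.mem_union_right _ hz)))⟩) l' hl'
  have hτZ : ∀ z ∈ Z, τ z = τ₀ z := fun z hz => hτ z (hZ z hz)
  have hUnτ : Un τ Z := by
    intro z hz
    rw [hτZ z hz]
    exact hUn z (Finset.mem_union_left _ hz)
  refine ⟨p, hp, τ, frobenius (kk p) p, hpN, hUnτ, fun x => frobenius_def p x, ?_, ?_⟩
  · intro z hz m
    rw [iterate_frobenius, rd_pow_iff τ z (hUnτ z hz).1 m, hτZ z hz]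
    exact hfr z (Finset.mem_union_left _ hz) m
  · intro b hb
    have h1 : ‖τ (zz b)‖ ≤ 1 := normC τ hl' (hτY _ (hYm b hb).2)
    refine ⟨h1, fun m hm h3 => ?_⟩
    rw [iterate_frobenius] at h3
    exact hτY _ (hYm b hb).1 h1 m hm ((rd_pow_iff τ (zz b) h1 m).1 h3)

end

end Pool.Agent.Helper26.HI
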