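import Mathlib
import Pool.Agent.Helper26.RE.Cong

/-!
# HI: the embedding theorem for an arbitrary automorphism (statement)
-/

set_option autoImplicit false

namespace Pool.Agent.Helper26.HI

open Pool.Agent.Helper87.FK Pool.Agent.Helper26.OB

/-- **ExS** -/
theorem exS (s : ℂ ≃+* ℂ) (W : Finset ℂ) (hW : ∀ z ∈ W, ∃ m : ℕ, 1 ≤ m ∧ s^[m] z = z) (N₀ : ℕ) :
    ∃ (p : ℕ) (_ : Fact p.Prime) (τ : ℂ →+* PadicAlgCl p), N₀ < p ∧ Un τ W ∧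
      ∀ z ∈ W, ∀ m : ℕ, ‖(τ z) ^ p ^ m - τ z‖ < 1 ↔ s^[m] z = z := sorry

end Pool.Agent.Helper26.HI
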