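import Mathlib
import Pool.Agent.Helper11.OS.GRB
import Pool.Agent.Helper11.V2.S

/-!
# HI: good reduction over a quasi-affine base, and units of the base along the orbit
-/

set_option autoImplicit false

namespace Pool.Agent.Helper26.HI

open MvPolynomial Pool.Agent.Helper61.TH Pool.Agent.Helper87.FK Pool.Agent.Helper26.OB Pool.Agent.Helper26.OS

noncomputable section

theorem coeff_ren {A : Subfield ℂ} {m : ℕ} (g : MvPolynomial (Fin m) ℂ) (hg : ∀ s, coeff s g ∈ A) (s) :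
    coeff s (rename (Fin.castSucc : Fin m → Fin (m + 1)) g) ∈ A := by
  by_cases hs : ∃ s', Finsupp.mapDomain Fin.castSucc s' = s
  · obtain ⟨s', rfl⟩ := hs
    rw [coeff_rename_mapDomain _ (Fin.castSucc_injective m)]
    exact hg s'
  · rw [coeff_rename_eq_zero]
    · exact A.zero_mem
    · intro u hu
      exact absurd ⟨u, hu⟩ hs

theorem eval_ren {m : ℕ} (g : MvPolynomial (Fin m) ℂ) (y : Fin (m + 1) → ℂ) :
    eval y (rename (Fin.castSucc : Fin m → Fin (m + 1)) g) = eval (fun i => y i.castSucc) g := by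
  rw [eval_rename]
  rfl

/-- good reduction of a family over a quasi-affine base -/
theorem redX (A : Subfield ℂ) (hA : ∀ z : ℂ, IsAlgebraic A z → z ∈ A) {m k : ℕ} {d : Fin k → ℕ}
    (B : Set (MvPolynomial (Fin m) ℂ)) (hB : ∀ g ∈ B, ∀ s, coeff s g ∈ A)
    (D : Finset (MvPolynomial (Fin m) ℂ)) (hD : ∀ g ∈ D, ∀ s, coeff s g ∈ A)
    (C : Idx d → MvPolynomial (Fin m) ℂ) (hC : ∀ q s, coeff s (C q) ∈ A)
    (hdeg : ∀ t : Fin m → ℂ, (∀ g ∈ B, eval t g = 0) → (∃ g ∈ D, eval t g ≠ 0) → HasDeg (at' C t)) :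
    ∃ Z : Finset ℂ, (∀ z ∈ Z, z ∈ A) ∧
      ∀ (p : ℕ) [Fact p.Prime] (τ : ℂ →+* PadicAlgCl p), Un τ Z →
        ∀ t : Fin m → ℂ, (∀ g ∈ B, eval t g = 0) → (∀ i, ‖τ (t i)‖ ≤ 1) → (∃ g ∈ D, ‖τ (eval t g)‖ = 1) →
          ∀ a (x : Fin 2 → kk p), x ≠ 0 → ev (form (fun q => rd τ (at' C t q)) a) x ≠ 0 := by
  classical
  have key : ∀ g : D, ∃ Z : Finset ℂ, (∀ z ∈ Z, z ∈ A) ∧
      ∀ (p : ℕ) [Fact p.Prime] (τ : ℂ →+* PadicAlgCl p), Un τ Z →
        ∀ t : Fin m → ℂ, (∀ g ∈ B, eval t g = 0) → (∀ i, ‖τ (t i)‖ ≤ 1) → ‖τ (eval t g.1)‖ = 1 →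
          ∀ a (x : Fin 2 → kk p), x ≠ 0 → ev (form (fun q => rd τ (at' C t q)) a) x ≠ 0 := by
    rintro ⟨g, hg⟩
    let B' : Set (MvPolynomial (Fin (m + 1)) ℂ) := (rename Fin.castSucc '' B) ∪
      {X (Fin.last m) * rename Fin.castSucc g - 1}
    have hB' : ∀ q ∈ B', ∀ s, coeff s q ∈ A := by
      rintro q (⟨b, hb, rfl⟩ | hq) s
      · exact coeff_ren b (hB b hb) s
      · rw [Set.mem_singleton_iff.1 hq, coeff_sub, coeff_one]
        refine A.sub_mem ?_ ?_
        · rw [coeff_X_mul']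
          split_ifs
          · exact coeff_ren g (hD g hg) _
          · exact A.zero_mem
        · split_ifs
          · exact A.one_mem
          · exact A.zero_mem
    obtain ⟨Z, hZ, h⟩ := Pool.Agent.Helper11.OS.redB A hA B' hB' (fun q => rename Fin.castSucc (C q))
      (fun q s => coeff_ren (C q) (hC q) s) (by
        intro y hy
        have h1 : at' (fun q => rename Fin.castSucc (C q)) y = at' C (fun i => y i.castSucc) := by
          funext q
          exact eval_ren (C q) y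
        rw [h1]
        refine hdeg _ (fun b hb => ?_) ⟨g, hg, ?_⟩
        · have h2 := hy (rename Fin.castSucc b) (Or.inl ⟨b, hb, rfl⟩)
          rwa [eval_ren] at h2
        · have h2 := hy (X (Fin.last m) * rename Fin.castSucc g - 1) (Or.inr rfl)
          rw [map_sub, map_mul, map_one, eval_ren, eval_X] at h2
          intro h3
          rw [h3, mul_zero, zero_sub] at h2
          exact one_ne_zero (neg_eq_zero.1 h2))
    refine ⟨Z, hZ, fun p _ τ hUn t htB ht hgt a x hx => ?_⟩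
    have hne : eval t g ≠ 0 := by
      intro h0
      change ‖τ (eval t g)‖ = 1 at hgt
      rw [h0, map_zero, norm_zero] at hgt
      exact zero_ne_one hgt
    let y : Fin (m + 1) → ℂ := Fin.snoc (α := fun _ => ℂ) t (eval t g)⁻¹
    have hyt : (fun i : Fin m => y i.castSucc) = t := by
      funext i
      exact Fin.snoc_castSucc (α := fun _ => ℂ) _ _ i
    have hyl : y (Fin.last m) = (eval t g)⁻¹ := Fin.snoc_last (α := fun _ => ℂ) _ _
    have h1 : at' (fun q => rename Fin.castSucc (C q)) y = at' C t := by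
      funext q
      change eval y (rename Fin.castSucc (C q)) = eval t (C q)
      rw [eval_ren, hyt]
    have h2 := (h p τ hUn).2 y (by
      rintro q (⟨b, hb, rfl⟩ | hq)
      · rw [eval_ren, hyt]
        exact htB b hb
      · rw [Set.mem_singleton_iff.1 hq, map_sub, map_mul, map_one, eval_ren, eval_X, hyt, hyl, inv_mul_cancel₀ hne,
          sub_self]) (by
      intro i
      refine Fin.lastCases ?_ (fun j => ?_) i
      · rw [hyl, map_inv₀, norm_inv]
        change ‖τ (eval t g)‖ = 1 at hgt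
        rw [hgt, inv_one]
      · rw [show y j.castSucc = t j from congrFun hyt j]
        exact ht j) a x hx
    rwa [h1] at h2
  choose Z hZ h using key
  refine ⟨(Finset.univ : Finset D).biUnion Z, ?_, ?_⟩
  · intro z hz
    obtain ⟨g, -, hz⟩ := Finset.mem_biUnion.1 hz
    exact hZ g z hz
  · rintro p _ τ hUn t htB ht ⟨g, hg, hgt⟩ a x hx
    exact h ⟨g, hg⟩ p τ (fun z hz => hUn z (Finset.mem_biUnion.2 ⟨⟨g, hg⟩, Finset.mem_univ _, hz⟩)) t htB ht hgt a x hx

/-- some equation of the removed set remains a unit -/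
theorem unitD (A : Subfield ℂ) (hA : ∀ z : ℂ, IsAlgebraic A z → z ∈ A) {m : ℕ}
    (B : Set (MvPolynomial (Fin m) ℂ)) (hB : ∀ g ∈ B, ∀ s, coeff s g ∈ A)
    (D : Finset (MvPolynomial (Fin m) ℂ)) (hD : ∀ g ∈ D, ∀ s, coeff s g ∈ A)
    (F : Fin m → MvPolynomial (Fin m) ℂ) (hF : ∀ i s, coeff s (F i) ∈ A)
    (hFD : ∀ t : Fin m → ℂ, (∀ g ∈ B, eval t g = 0) → (∃ g ∈ D, eval t g ≠ 0) → ∃ g ∈ D, eval (ev F t) g ≠ 0) :
    ∃ Z : Finset ℂ, (∀ z ∈ Z, z ∈ A) ∧
      ∀ (p : ℕ) [Fact p.Prime] (τ : ℂ →+* PadicAlgCl p), Un τ Z →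
        ∀ t : Fin m → ℂ, (∀ g ∈ B, eval t g = 0) → (∀ i, ‖τ (t i)‖ ≤ 1) → (∃ g ∈ D, ‖τ (eval t g)‖ = 1) →
          ∃ g ∈ D, ‖τ (eval (ev F t) g)‖ = 1 := by
  classical
  have hcomp : ∀ g ∈ D, ∀ u, coeff u (bind₁ F g) ∈ A := fun g hg => Pool.Agent.Helper11.V2.coeff_comp A F hF g (hD g hg)
  have hevc : ∀ (g : MvPolynomial (Fin m) ℂ) (t : Fin m → ℂ), eval t (bind₁ F g) = eval (ev F t) g := fun g t =>
    Pool.Agent.Helper11.V2.eval_comp F g t
  obtain ⟨Q, Z, hQ, hZ, h⟩ := Pool.Agent.Helper11.V2.red_impD A hA B hB D hD ((fun g => bind₁ F g) '' (D : Set _))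
    (by
      rintro _ ⟨g, hg, rfl⟩
      exact hcomp g hg) {1} (by
      intro g hg u
      rw [Finset.mem_singleton.1 hg, coeff_one]
      split_ifs
      · exact A.one_mem
      · exact A.zero_mem) (by
      rintro y ⟨hy1, g, hg, hy2⟩ hy u hu
      obtain ⟨g', hg', hne⟩ := hFD y hy1 ⟨g, hg, hy2⟩
      have h1 := hy (bind₁ F g') ⟨g', hg', rfl⟩
      rw [hevc] at h1
      exact absurd h1 hne)
  refine ⟨Z ∪ D.biUnion fun g => g.coeffs ∪ (bind₁ F g).coeffs, ?_, ?_⟩
  · intro z hz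
    rcases Finset.mem_union.1 hz with hz | hz
    · exact hZ z hz
    · obtain ⟨g, hg, hz⟩ := Finset.mem_biUnion.1 hz
      rcases Finset.mem_union.1 hz with hz | hz
      · obtain ⟨s, -, rfl⟩ := mem_coeffs_iff.1 hz
        exact hD g hg s
      · obtain ⟨s, -, rfl⟩ := mem_coeffs_iff.1 hz
        exact hcomp g hg s
  · intro p _ τ hUn t htB ht hu
    by_contra hcon
    push Not at hcon
    have h1 := h p τ (fun z hz => hUn z (Finset.mem_union_left _ hz)) t htB ht hu (by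
      intro q hq
      obtain ⟨g, hg, rfl⟩ := hQ q hq
      have hint : ‖τ (eval t (bind₁ F g))‖ ≤ 1 := by
        refine (Pool.Agent.Helper10.TR.rd_eval τ _ (fun u => ?_) t ht).1
        by_cases h0 : coeff u (bind₁ F g) = 0
        · rw [h0, map_zero, norm_zero]
          exact zero_le_one
        · exact (hUn _ (Finset.mem_union_right _ (Finset.mem_biUnion.2 ⟨g, hg, Finset.mem_union_right _
            (mem_coeffs_iff.2 ⟨u, mem_support_iff.2 h0, rfl⟩)⟩))).1
      refine lt_of_le_of_ne hint ?_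
      rw [hevc]
      exact hcon g hg) 1 (Finset.mem_singleton_self _)
    rw [map_one, map_one, norm_one] at h1
    exact lt_irrefl _ h1

end

end Pool.Agent.Helper26.HI
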