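import Mathlib
import Pool.Agent.Helper26.HI.Base
import Pool.Agent.Helper26.HI.Emb
import Pool.Agent.Helper26.HI.RedX
import Pool.Agent.Helper26.OT.FinC

/-!
# HI: the criterion for an arbitrary automorphism
-/

set_option autoImplicit false

namespace Pool.Agent.Helper26.HI

open MvPolynomial Pool.Agent.Helper61.TH Pool.Agent.Helper87.FK Pool.Agent.Helper26.OB Pool.Agent.Helper26.OS
open Pool.Agent.Helper26.OT

noncomputable section

/-- the finite set of the data; the finitely many equations generate the ideal -/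
theorem exists_T' {m k : ℕ} {d : Fin k → ℕ} (K : Subfield ℂ) (B : Set (MvPolynomial (Fin m) ℂ))
    (hB : ∀ g ∈ B, ∀ s, coeff s g ∈ K) (D : Set (MvPolynomial (Fin m) ℂ)) (hD : ∀ g ∈ D, ∀ s, coeff s g ∈ K)
    (F : Fin m → MvPolynomial (Fin m) ℂ) (hF : ∀ i s, coeff s (F i) ∈ K)
    (C : Idx d → MvPolynomial (Fin m) ℂ) (hC : ∀ q s, coeff s (C q) ∈ K) (t : Fin m → ℂ) (ht : ∀ i, t i ∈ K) :
    ∃ (T : Finset ℂ) (B₀ D₀ : Finset (MvPolynomial (Fin m) ℂ)), (∀ z ∈ T, z ∈ K) ∧ (∀ i, t i ∈ T) ∧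
      (∀ i s, coeff s (F i) ∈ T ∨ coeff s (F i) = 0) ∧ (∀ q s, coeff s (C q) ∈ T ∨ coeff s (C q) = 0) ∧
      (∀ g ∈ B₀, ∀ s, coeff s g ∈ T ∨ coeff s g = 0) ∧ (∀ g ∈ D₀, ∀ s, coeff s g ∈ T ∨ coeff s g = 0) ∧
      (∀ g ∈ D₀, eval t g ∈ T) ∧
      (∀ t : Fin m → ℂ, (∀ g ∈ B, eval t g = 0) ↔ ∀ g ∈ B₀, eval t g = 0) ∧
      (∀ t : Fin m → ℂ, (∃ g ∈ D, eval t g ≠ 0) ↔ ∃ g ∈ D₀, eval t g ≠ 0) ∧
      ∀ t : Fin m → ℂ, (∀ g ∈ B, eval t g = 0) → Pool.Agent.Helper10.V3.Ram (B₀ : Set (MvPolynomial (Fin m) ℂ)) F t →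
        Pool.Agent.Helper10.V3.Ram B F t := by
  classical
  have h1 : (Ideal.span B).FG := IsNoetherian.noetherian _
  obtain ⟨B₀, hB₀, hBs⟩ := (Submodule.fg_span_iff_fg_span_finset_subset B).1 h1
  have hspan : ∀ g ∈ B, g ∈ Ideal.span (B₀ : Set (MvPolynomial (Fin m) ℂ)) := by
    intro g hg
    have h6 : g ∈ Submodule.span (MvPolynomial (Fin m) ℂ) B := Submodule.subset_span hg
    rw [hBs] at h6
    exact h6
  have hBB : ∀ t : Fin m → ℂ, (∀ g ∈ B, eval t g = 0) ↔ ∀ g ∈ B₀, eval t g = 0 := by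
    intro t
    refine ⟨fun h g hg => h g (hB₀ hg), fun h g hg => ?_⟩
    have h4 : Ideal.span (B₀ : Set (MvPolynomial (Fin m) ℂ)) ≤ RingHom.ker (eval t) :=
      Ideal.span_le.2 fun g hg => RingHom.mem_ker.2 (h g hg)
    exact RingHom.mem_ker.1 (h4 (hspan g hg))
  have h1' : (Ideal.span D).FG := IsNoetherian.noetherian _
  obtain ⟨D₀, hD₀, hDs⟩ := (Submodule.fg_span_iff_fg_span_finset_subset D).1 h1'
  have hDD : ∀ t : Fin m → ℂ, (∃ g ∈ D, eval t g ≠ 0) ↔ ∃ g ∈ D₀, eval t g ≠ 0 := by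
    intro t
    refine ⟨fun ⟨g, hg, hne⟩ => ?_, fun ⟨g, hg, hne⟩ => ⟨g, hD₀ hg, hne⟩⟩
    by_contra hcon
    push Not at hcon
    have h4 : Ideal.span (D₀ : Set (MvPolynomial (Fin m) ℂ)) ≤ RingHom.ker (eval t) :=
      Ideal.span_le.2 fun g hg => RingHom.mem_ker.2 (hcon g hg)
    have h6 : g ∈ Submodule.span (MvPolynomial (Fin m) ℂ) D := Submodule.subset_span hg
    rw [hDs] at h6
    exact hne (RingHom.mem_ker.1 (h4 h6))
  let T : Finset ℂ := Finset.univ.image t ∪ (Finset.univ.biUnion fun i => (F i).coeffs) ∪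
    (Finset.univ.biUnion fun q => (C q).coeffs) ∪ (B₀.biUnion fun g => g.coeffs) ∪
    (D₀.biUnion fun g => g.coeffs) ∪ D₀.image (fun g => eval t g)
  have hTsub : (Finset.univ.image t ∪ (Finset.univ.biUnion fun i => (F i).coeffs) ∪
    (Finset.univ.biUnion fun q => (C q).coeffs) ∪ (B₀.biUnion fun g => g.coeffs) : Finset ℂ) ⊆ T := fun z hz =>
    Finset.mem_union_left _ (Finset.mem_union_left _ hz)
  refine ⟨T, B₀, D₀, ?_, ?_, ?_, ?_, ?_, ?_, ?_, hBB, hDD, ?_⟩
  · intro z hz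
    rcases Finset.mem_union.1 hz with hz | hz
    · rcases Finset.mem_union.1 hz with hz | hz
      · rcases Finset.mem_union.1 hz with hz | hz
        · rcases Finset.mem_union.1 hz with hz | hz
          · rcases Finset.mem_union.1 hz with hz | hz
            · obtain ⟨i, -, rfl⟩ := Finset.mem_image.1 hz
              exact ht i
            · obtain ⟨i, -, hi⟩ := Finset.mem_biUnion.1 hz
              obtain ⟨s, -, rfl⟩ := mem_coeffs_iff.1 hi
              exact hF i s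
          · obtain ⟨i, -, hi⟩ := Finset.mem_biUnion.1 hz
            obtain ⟨s, -, rfl⟩ := mem_coeffs_iff.1 hi
            exact hC i s
        · obtain ⟨g, hg, hi⟩ := Finset.mem_biUnion.1 hz
          obtain ⟨s, -, rfl⟩ := mem_coeffs_iff.1 hi
          exact hB g (hB₀ hg) s
      · obtain ⟨g, hg, hi⟩ := Finset.mem_biUnion.1 hz
        obtain ⟨s, -, rfl⟩ := mem_coeffs_iff.1 hi
        exact hD g (hD₀ hg) s
    · obtain ⟨g, hg, rfl⟩ := Finset.mem_image.1 hz
      exact eval₂_mem (fun s _ => hD g (hD₀ hg) s) ht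
  · intro i
    exact hTsub (Finset.mem_union_left _ (Finset.mem_union_left _ (Finset.mem_union_left _
      (Finset.mem_image_of_mem _ (Finset.mem_univ i)))))
  · intro i s
    by_cases h0 : coeff s (F i) = 0
    · exact Or.inr h0
    · exact Or.inl (hTsub (Finset.mem_union_left _ (Finset.mem_union_left _ (Finset.mem_union_right _ (Finset.mem_biUnion.2
        ⟨i, Finset.mem_univ _, mem_coeffs_iff.2 ⟨s, mem_support_iff.2 h0, rfl⟩⟩)))))
  · intro q s
    by_cases h0 : coeff s (C q) = 0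
    · exact Or.inr h0
    · exact Or.inl (hTsub (Finset.mem_union_left _ (Finset.mem_union_right _ (Finset.mem_biUnion.2
        ⟨q, Finset.mem_univ _, mem_coeffs_iff.2 ⟨s, mem_support_iff.2 h0, rfl⟩⟩))))
  · intro g hg s
    by_cases h0 : coeff s g = 0
    · exact Or.inr h0
    · exact Or.inl (hTsub (Finset.mem_union_right _ (Finset.mem_biUnion.2
        ⟨g, hg, mem_coeffs_iff.2 ⟨s, mem_support_iff.2 h0, rfl⟩⟩)))
  · intro g hg s
    by_cases h0 : coeff s g = 0
    · exact Or.inr h0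
    · exact Or.inl (Finset.mem_union_left _ (Finset.mem_union_right _ (Finset.mem_biUnion.2
        ⟨g, hg, mem_coeffs_iff.2 ⟨s, mem_support_iff.2 h0, rfl⟩⟩)))
  · intro g hg
    exact Finset.mem_union_right _ (Finset.mem_image_of_mem _ hg)
  · rintro t htB ⟨v, hv, hvF, hvB⟩
    refine ⟨v, hv, hvF, fun g hg => ?_⟩
    -- the derivatives of the elements of the ideal
    have key : ∀ q ∈ Ideal.span (B₀ : Set (MvPolynomial (Fin m) ℂ)), eval t q = 0 ∧
        Pool.Agent.Helper10.V3.grad q t v = 0 := by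
      intro q hq
      refine Submodule.span_induction (p := fun q _ => eval t q = 0 ∧ Pool.Agent.Helper10.V3.grad q t v = 0)
        ?_ ?_ ?_ ?_ hq
      · intro q hq
        exact ⟨htB q (hB₀ hq), hvB q hq⟩
      · refine ⟨map_zero _, ?_⟩
        unfold Pool.Agent.Helper10.V3.grad
        simp
      · intro x y _ _ hx hy
        refine ⟨by rw [map_add, hx.1, hy.1, add_zero], ?_⟩
        unfold Pool.Agent.Helper10.V3.grad at hx hy ⊢
        simp only [map_add, add_mul, Finset.sum_add_distrib]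
        rw [hx.2, hy.2, add_zero]
      · intro a x _ hx
        refine ⟨by rw [smul_eq_mul, map_mul, hx.1, mul_zero], ?_⟩
        unfold Pool.Agent.Helper10.V3.grad at hx ⊢
        have h7 : ∀ j, eval t (pderiv j (a • x)) * v j = eval t a * (eval t (pderiv j x) * v j) := by
          intro j
          rw [smul_eq_mul, Derivation.leibniz, map_add, smul_eq_mul, smul_eq_mul, map_mul, map_mul, hx.1]
          ring
        rw [Finset.sum_congr rfl fun j _ => h7 j, ← Finset.mul_sum, hx.2, mul_zero]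
    exact (key g (hspan g hg)).2

/-- **The criterion** -/
theorem finP
    {m k : ℕ} (K : Subfield ℂ) (B : Set (MvPolynomial (Fin m) ℂ)) (hB : ∀ g ∈ B, ∀ s, coeff s g ∈ K)
    (D : Set (MvPolynomial (Fin m) ℂ)) (hD : ∀ g ∈ D, ∀ s, coeff s g ∈ K)
    (F : Fin m → MvPolynomial (Fin m) ℂ) (hF : ∀ i s, coeff s (F i) ∈ K)
    (hFX : ∀ t : Fin m → ℂ, (∀ g ∈ B, eval t g = 0) → (∃ g ∈ D, eval t g ≠ 0) →
      (∀ g ∈ B, eval (ev F t) g = 0) ∧ ∃ g ∈ D, eval (ev F t) g ≠ 0)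
    (het : ∀ t : Fin m → ℂ, (∀ g ∈ B, eval t g = 0) → (∃ g ∈ D, eval t g ≠ 0) → ¬ Pool.Agent.Helper10.V3.Ram B F t)
    (d : Fin k → ℕ) (hd : ∀ a, 1 ≤ d a) (C : Idx d → MvPolynomial (Fin m) ℂ) (hC : ∀ q s, coeff s (C q) ∈ K)
    (hdeg : ∀ t : Fin m → ℂ, (∀ g ∈ B, eval t g = 0) → (∃ g ∈ D, eval t g ≠ 0) → HasDeg (at' C t))
    (π : Fin k → Fin k) (t : Fin m → ℂ) (ht : ∀ i, t i ∈ K) (htB : ∀ g ∈ B, eval t g = 0) (htD : ∃ g ∈ D, eval t g ≠ 0)
    (α : Fin k → Fin 2 → ℂ) (hα : ∀ b, α b ≠ 0) (s : ℂ ≃+* ℂ)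
    (hs : ∀ z ∈ K, s z = z) (N : ℕ)
    (hS : {z : ℂ | ∃ (n : ℕ) (a : Fin k) (x : Fin 2 → ℂ), x ≠ 0 ∧ wrh (at' C ((ev F)^[n + N] t)) a
      (chain (fun j => at' C ((ev F)^[n + j] t)) π N (π a) x) = 0 ∧ z = x 0 / x 1}.Finite)
    (h : ∀ a b, Adm π a b → IsAlgebraic K (α b 0 / α b 1) → ∀ (n : ℕ) (x : Fin 2 → ℂ), x ≠ 0 →
      wrh (at' C ((ev F)^[n + N] t)) a (chain (fun j => at' C ((ev F)^[n + j] t)) π N (π a) x) = 0 →
      (Pol C → α b 1 ≠ 0 → x 1 ≠ 0) →
      ∀ e, Smooth (Finset.univ.sup d) e → ol (s : ℂ →+* ℂ) (α b) ≠ e * ol (s : ℂ →+* ℂ) x)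
    (V : Set (MvPolynomial (Fin m ⊕ Fin k × Fin 2) ℂ)) (hV : ∀ G ∈ V, MH G) : ∃ S : Finset (ℕ × ℕ),
      {n : ℕ | ∀ G ∈ V, eval (Sum.elim ((sysS F C π)^[n] (t, α)).1 fun q =>
        ((sysS F C π)^[n] (t, α)).2 q.1 q.2) G = 0} = {n | ∃ q ∈ S, ∃ j, n = q.1 + q.2 * j} := by
  classical
  obtain ⟨σ, hσdef⟩ : ∃ σ : ℂ →+* ℂ, σ = (s : ℂ →+* ℂ) := ⟨_, rfl⟩
  have hσ : ∀ z ∈ K, σ z = z := by
    rw [hσdef]
    exact hs
  rw [← hσdef] at h
  obtain ⟨T, B₀, D₀, hT, hTt, hTF, hTC, hTB, hTD, hTDt, hBB, hDD, hBR⟩ := exists_T' K B hB D hD F hF C hC t ht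
  obtain ⟨A, hA, hAc, hTA, hAt⟩ := exists_closed K (T : Set ℂ) T.countable_toSet hT
  have hAalg : ∀ z ∈ A, IsAlgebraic K z := by
    intro z hz
    by_contra hcon
    exact hAt z hcon hz
  have hmem : ∀ z, (z ∈ T ∨ z = 0) → z ∈ A := by
    rintro z (hz | rfl)
    · exact hTA hz
    · exact zero_mem _
  -- the orbit of the base point
  have horb : ∀ n, ((∀ g ∈ B, eval ((ev F)^[n] t) g = 0) ∧ ∃ g ∈ D, eval ((ev F)^[n] t) g ≠ 0) ∧
      ∀ i, (ev F)^[n] t i ∈ A := by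
    intro n
    induction n with
    | zero => exact ⟨⟨htB, htD⟩, fun i => hmem _ (Or.inl (hTt i))⟩
    | succ n ih =>
      rw [Function.iterate_succ_apply']
      exact ⟨hFX _ ih.1.1 ih.1.2, fun i => eval₂_mem (fun s _ => hmem _ (hTF i s)) ih.2⟩
  have hatA : ∀ n q, at' C ((ev F)^[n] t) q ∈ A := fun n q => eval₂_mem (fun s _ => hmem _ (hTC q s)) (horb n).2
  obtain ⟨Z₁, hZ₁, hred⟩ := redX A hA (B₀ : Set (MvPolynomial (Fin m) ℂ))
    (fun g hg s => hmem _ (hTB g hg s)) D₀ (fun g hg s => hmem _ (hTD g hg s)) C (fun q s => hmem _ (hTC q s))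
    (fun t ht ht' => hdeg t ((hBB t).2 ht) ((hDD t).2 ht'))
  obtain ⟨Z₂, hZ₂, hjac⟩ := baseP A hA B₀ (fun g hg s => hmem _ (hTB g hg s)) D₀ (fun g hg s => hmem _ (hTD g hg s)) F
    (fun q s => hmem _ (hTF q s)) (fun t ht ht' hr => het t ((hBB t).2 ht) ((hDD t).2 ht') (hBR t ((hBB t).2 ht) hr))
  obtain ⟨Z₃, hZ₃, huD⟩ := unitD A hA (B₀ : Set (MvPolynomial (Fin m) ℂ)) (fun g hg s => hmem _ (hTB g hg s)) D₀
    (fun g hg s => hmem _ (hTD g hg s)) F (fun q s => hmem _ (hTF q s))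
    (fun t ht ht' => (hDD _).1 (hFX t ((hBB t).2 ht) ((hDD t).2 ht')).2)
  let zz : Fin k → ℂ := fun b => α b 0 / α b 1
  let Z : Finset ℂ := Z₁ ∪ (Z₂ ∪ Z₃) ∪ T ∪ hS.toFinset ∪ (Finset.univ.filter fun b => zz b ∈ A).image zz
  have hZ : ∀ z ∈ Z, z ∈ A := by
    intro z hz
    rcases Finset.mem_union.1 hz with hz | hz
    · rcases Finset.mem_union.1 hz with hz | hz
      · rcases Finset.mem_union.1 hz with hz | hz
        · rcases Finset.mem_union.1 hz with hz | hz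
          · exact hZ₁ z hz
          · rcases Finset.mem_union.1 hz with hz | hz
            · exact hZ₂ z hz
            · exact hZ₃ z hz
        · exact hTA hz
      · obtain ⟨n, a, x, hx0, hw, rfl⟩ := hS.mem_toFinset.1 hz
        exact mem_chain A hA (fun j => at' C ((ev F)^[n + j] t)) (fun j => hatA (n + j))
          (fun j => hdeg _ (horb (n + j)).1.1 (horb (n + j)).1.2) hd π N a (π a) x hx0 hw
    · obtain ⟨b, hb, rfl⟩ := Finset.mem_image.1 hz
      exact (Finset.mem_filter.1 hb).2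
  have hZ₁Z : ∀ z ∈ Z₁, z ∈ Z := fun z hz => Finset.mem_union_left _ (Finset.mem_union_left _
    (Finset.mem_union_left _ (Finset.mem_union_left _ hz)))
  have hZ₂Z : ∀ z ∈ Z₂, z ∈ Z := fun z hz => Finset.mem_union_left _ (Finset.mem_union_left _
    (Finset.mem_union_left _ (Finset.mem_union_right _ (Finset.mem_union_left _ hz))))
  have hZ₃Z : ∀ z ∈ Z₃, z ∈ Z := fun z hz => Finset.mem_union_left _ (Finset.mem_union_left _
    (Finset.mem_union_left _ (Finset.mem_union_right _ (Finset.mem_union_right _ hz))))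
  have hTZ : ∀ z ∈ T, z ∈ Z := fun z hz => Finset.mem_union_left _ (Finset.mem_union_left _
    (Finset.mem_union_right _ hz))
  have hSZ : ∀ z ∈ hS.toFinset, z ∈ Z := fun z hz => Finset.mem_union_left _ (Finset.mem_union_right _ hz)
  have hzzZ : ∀ b, zz b ∈ A → zz b ∈ Z := fun b hb => Finset.mem_union_right _
    (Finset.mem_image.2 ⟨b, Finset.mem_filter.2 ⟨Finset.mem_univ _, hb⟩, rfl⟩)
  have hdD : ∀ a, d a ≤ Finset.univ.sup d := fun a => Finset.le_sup (f := d) (Finset.mem_univ a)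
  obtain ⟨l', hlN', hl'⟩ := Nat.exists_infinite_primes (max (2 * Finset.univ.sup d) 3 + 1)
  have hlN : max (2 * Finset.univ.sup d) 3 < l' := by omega
  obtain ⟨p, hp, τ, σ', hpN, hUn, hσ'p, hper', htr⟩ := exCs A hA hAc s
    (fun z hz => fin_orbit K s hs z (hAalg z hz)) Z hZ zz l' hl' (max (2 * Finset.univ.sup d) 3)
  have hper : ∀ z ∈ Z, ∀ m : ℕ, σ'^[m] (rd τ z) = rd τ z ↔ σ^[m] z = z := by
    intro z hz m
    rw [hper' z hz m, hσdef]
    rfl
  have hcharp : CharP (kk p) p := charP_kk p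
  have halg : IsAlgClosed (kk p) := Pool.Agent.Helper46.OB.algClosed_kk p
  have hp3 : 3 ≤ p := (lt_of_le_of_lt (le_max_right _ 3) hpN).le
  have hpD : ∀ a, d a < p := by
    intro a
    have h1 := hdD a
    have h2 := lt_of_le_of_lt (le_max_left _ 3) hpN
    omega
  have hlD : 2 * Finset.univ.sup d < l' := lt_of_le_of_lt (le_max_left _ 3) hlN
  have hmemS : ∀ z, (z ∈ T ∨ z = 0) → z ∈ Sf τ σ' := by
    rintro z (hz | rfl)
    · refine (mem_Sf τ σ').2 ⟨(hUn z (hTZ z hz)).1, ?_⟩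
      exact (hper z (hTZ z hz) 1).2 (hσ z (hT z hz))
    · exact zero_mem _
  have hTn : ∀ n i, (ev F)^[n] t i ∈ Sf τ σ' := by
    intro n
    induction n with
    | zero => exact fun i => hmemS _ (Or.inl (hTt i))
    | succ n ih =>
      rw [Function.iterate_succ_apply']
      exact fun i => eval₂_mem (fun s _ => hmemS _ (hTF i s)) ih
  have hat : ∀ n q, at' C ((ev F)^[n] t) q ∈ Sf τ σ' := fun n q => eval₂_mem (fun s _ => hmemS _ (hTC q s)) (hTn n)
  have hDn : ∀ n, ∃ g ∈ D₀, ‖τ (eval ((ev F)^[n] t) g)‖ = 1 := by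
    intro n
    induction n with
    | zero =>
      obtain ⟨g, hg, hne⟩ := (hDD t).1 htD
      exact ⟨g, hg, (hUn _ (hTZ _ (hTDt g hg))).2 hne⟩
    | succ n ih =>
      rw [Function.iterate_succ_apply']
      exact huD p τ (fun z hz => hUn z (hZ₃Z z hz)) _ ((hBB _).1 (horb n).1.1)
        (fun i => ((mem_Sf τ σ').1 (hTn n i)).1) ih
  have hg : ∀ n a (x : Fin 2 → kk p), x ≠ 0 → ev (form (fun q => rd τ (at' C ((ev F)^[n] t) q)) a) x ≠ 0 := fun n =>
    hred p τ (fun z hz => hUn z (hZ₁Z z hz)) _ ((hBB _).1 (horb n).1.1) (fun i => ((mem_Sf τ σ').1 (hTn n i)).1) (hDn n)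
  obtain ⟨F', T₁, N₁, hT1, hperF, hF', hev, hJ⟩ := hjac p τ (fun z hz => hUn z (hZ₂Z z hz)) (fun n => (ev F)^[n] t)
    (fun n => (hBB _).1 (horb n).1.1) (fun n i => ((mem_Sf τ σ').1 (hTn n i)).1) hDn
    (fun n => Function.iterate_succ_apply' _ _ _) (fun i s => ((mem_Sf τ σ').1 (hmemS _ (hTF i s))).1)
    (fun n i => by rw [← hσ'p]; exact ((mem_Sf τ σ').1 (hTn n i)).2)
  refine coreP hd F C π t α hα p hp3 hpD τ σ' (fun i s => hmemS _ (hTF i s)) (fun q s => hmemS _ (hTC q s))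
    (fun i => hmemS _ (Or.inl (hTt i))) hg F' T₁ N₁ hT1 hperF hF' hev hJ N ?_ V hV
  · intro a b hab n x hx0 hw hpl e he hesm heq
    by_cases hb : zz b ∈ A
    · -- algebraic coordinates
      obtain ⟨y, hy0, hyw, hy1, hy2⟩ := chainLift τ (fun j => at' C ((ev F)^[n + j] t))
        (fun j q => ((mem_Sf τ σ').1 (hat (n + j) q)).1) hd hpD (fun j => hg (n + j)) π N a (π a) x hx0 hw
      have holx : ol σ' x = ol σ y := by
        by_cases hy : y 1 = 0
        · unfold ol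
          rw [hy1 hy, pr_inf y hy, per_none, per_none]
        · have hyS : y 0 / y 1 ∈ Z := hSZ _ (hS.mem_toFinset.2 ⟨n, a, y, hy0, hyw, rfl⟩)
          have h3 : pr y = some (y 0 / y 1) := by
            unfold pr
            rw [if_neg hy]
          unfold ol
          rw [hy2 hy (hUn _ hyS).1, h3]
          exact per_eq τ σ σ' _ (hper _ hyS)
      have hola : Function.minimalPeriod (Option.map σ') (rp τ (α b)) = ol σ (α b) := by
        by_cases hα1 : α b 1 = 0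
        · rw [rp, if_neg (fun h3 => h3.1 hα1), ol, pr_inf _ hα1, per_none, per_none]
        · have h3 : pr (α b) = some (zz b) := by
            unfold pr
            rw [if_neg hα1]
          rw [rp, if_pos ⟨hα1, (hUn _ (hzzZ b hb)).1⟩, ol, h3]
          exact per_eq τ σ σ' _ (hper _ (hzzZ b hb))
      rw [holx, hola] at heq
      refine h a b hab (hAalg _ hb) n y hy0 hyw (fun hP hα1 hy => ?_) e hesm heq
      have h3 : rp τ (α b) ≠ none := by
        rw [rp, if_pos ⟨hα1, (hUn _ (hzzZ b hb)).1⟩]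
        exact Option.some_ne_none _
      have h4 := hy1 hy
      unfold pr at h4
      rw [if_neg (hpl hP h3)] at h4
      exact absurd h4 (Option.some_ne_none _)
    · -- transcendental coordinates
      have hα1 : α b 1 ≠ 0 := by
        intro h3
        apply hb
        change α b 0 / α b 1 ∈ A
        rw [h3, div_zero]
        exact A.zero_mem
      obtain ⟨e', he', hesm', hx⟩ := ol_chain σ' (fun j q => rd τ (at' C ((ev F)^[n + j] t) q))
        (fun j q => ((mem_Sf τ σ').1 (hat (n + j) q)).2) hd (fun j => hg (n + j)) π N (π a) x hx0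
      obtain ⟨h6, h7⟩ := Pool.Agent.Helper10.OS.crS p σ' (fun q => rd τ (at' C ((ev F)^[n + N] t) q))
        (fun q => ((mem_Sf τ σ').1 (hat (n + N) q)).2) a (hd a) (hpD a) (hg (n + N) a) _
        (chain_ne98' _ (fun j => hg (n + j)) π N (π a) x hx0) hw
      rw [hx] at heq
      obtain ⟨h8, h9⟩ := htr b hb
      have hpos : 0 < Function.minimalPeriod (Option.map σ') (rp τ (α b)) := by
        rw [heq]
        exact Nat.mul_pos he (Nat.mul_pos he' h6)
      have h10 : l' ∣ Function.minimalPeriod (Option.map σ') (rp τ (α b)) := by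
        refine h9 _ hpos ?_
        have h4 : (Option.map σ')^[Function.minimalPeriod (Option.map σ') (rp τ (α b))] (rp τ (α b)) =
            rp τ (α b) := Function.isPeriodicPt_minimalPeriod _ _
        have h5 : rp τ (α b) = some (rd τ (zz b)) := by
          rw [rp, if_pos ⟨hα1, h8⟩]
        rw [h5, option_iterate, Option.some_inj] at h4
        rw [h5]
        exact h4
      rw [heq] at h10
      have h13 := hdD a
      rcases hl'.dvd_mul.1 h10 with h11 | h11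
      · have h12 := hesm l' hl' h11
        omega
      · rcases hl'.dvd_mul.1 h11 with h12 | h12
        · have h14 := hesm' l' hl' h12
          omega
        · have h14 := Nat.le_of_dvd h6 h12
          omega

end

end Pool.Agent.Helper26.HI
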