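import Mathlib
import Pool.Agent.Helper26.HI.FinP
import Pool.Agent.Helper26.OS.Fin
import Pool.Agent.Helper53.HI.Sylow

/-!
# HI: the condition on the degrees over an arbitrary field
-/

set_option autoImplicit false

namespace Pool.Agent.Helper26.HI

open MvPolynomial Pool.Agent.Helper61.TH Pool.Agent.Helper87.FK Pool.Agent.Helper26.OB Pool.Agent.Helper26.OS
open Pool.Agent.Helper26.OT

noncomputable section

/-- an automorphism over `K` whose orbits of the given numbers have lengths divisible by `l` -/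
theorem exists_aut (K : Subfield ℂ) (l : ℕ) (hl : l.Prime) {k : ℕ} (hk : k ≤ l) (x : Fin k → ℂ) (Cb : Fin k → Prop)
    (hx : ∀ b, Cb b → IsAlgebraic K (x b) → l ∣ (minpoly K (x b)).natDegree) :
    ∃ s : ℂ ≃+* ℂ, (∀ z ∈ K, s z = z) ∧ ∀ b, Cb b → IsAlgebraic K (x b) → l ∣ Function.minimalPeriod s (x b) := by
  classical
  let S : Finset (Fin k) := Finset.univ.filter Cb
  have hS : S.card ≤ k := by
    have h1 := Finset.card_filter_le (Finset.univ : Finset (Fin k)) Cb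
    rwa [Finset.card_univ, Fintype.card_fin] at h1
  obtain ⟨s, hs, h⟩ := sylowK K l hl (hS.trans hk) (fun i => x (S.orderIsoOfFin rfl i)) (fun i halg =>
    hx _ (Finset.mem_filter.1 (S.orderIsoOfFin rfl i).2).2 halg)
  refine ⟨s, hs, fun b hb halg => ?_⟩
  have hbS : b ∈ S := Finset.mem_filter.2 ⟨Finset.mem_univ _, hb⟩
  have h1 := h ((S.orderIsoOfFin rfl).symm ⟨b, hbS⟩)
  simp only [OrderIso.apply_symm_apply] at h1
  exact h1 halg

/-- **The condition on the degrees** -/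
theorem finD
    {m k : ℕ} (K : Subfield ℂ) (B : Set (MvPolynomial (Fin m) ℂ)) (hB : ∀ g ∈ B, ∀ s, coeff s g ∈ K)
    (D : Set (MvPolynomial (Fin m) ℂ)) (hD : ∀ g ∈ D, ∀ s, coeff s g ∈ K)
    (F : Fin m → MvPolynomial (Fin m) ℂ) (hF : ∀ i s, coeff s (F i) ∈ K)
    (hFX : ∀ t : Fin m → ℂ, (∀ g ∈ B, eval t g = 0) → (∃ g ∈ D, eval t g ≠ 0) →
      (∀ g ∈ B, eval (ev F t) g = 0) ∧ ∃ g ∈ D, eval (ev F t) g ≠ 0)
    (het : ∀ t : Fin m → ℂ, (∀ g ∈ B, eval t g = 0) → (∃ g ∈ D, eval t g ≠ 0) → ¬ Pool.Agent.Helper10.V3.Ram B F t)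
    (d : Fin k → ℕ) (hd : ∀ a, 1 ≤ d a) (C : Idx d → MvPolynomial (Fin m) ℂ) (hC : ∀ q s, coeff s (C q) ∈ K)
    (hdeg : ∀ t : Fin m → ℂ, (∀ g ∈ B, eval t g = 0) → (∃ g ∈ D, eval t g ≠ 0) → HasDeg (at' C t))
    (π : Fin k → Fin k) (t : Fin m → ℂ) (ht : ∀ i, t i ∈ K) (htB : ∀ g ∈ B, eval t g = 0) (htD : ∃ g ∈ D, eval t g ≠ 0)
    (α : Fin k → Fin 2 → ℂ) (hα : ∀ b, α b ≠ 0)
    (l : ℕ) (hl : l.Prime) (hld : (∀ a, 2 * d a - 2 < l) ∨ Pol C ∧ ∀ a, d a < l) (hk : k ≤ l)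
    (h : ∀ b, (∃ a, Adm π a b ∧ 2 ≤ d a) → Transcendental K (α b 0 / α b 1) ∨
      l ∣ (minpoly K (α b 0 / α b 1)).natDegree)
    (V : Set (MvPolynomial (Fin m ⊕ Fin k × Fin 2) ℂ)) (hV : ∀ G ∈ V, MH G) : ∃ S : Finset (ℕ × ℕ),
      {n : ℕ | ∀ G ∈ V, eval (Sum.elim ((sysS F C π)^[n] (t, α)).1 fun q =>
        ((sysS F C π)^[n] (t, α)).2 q.1 q.2) G = 0} = {n | ∃ q ∈ S, ∃ j, n = q.1 + q.2 * j} := by
  classical
  obtain ⟨T, B₀, D₀, hT, hTt, hTF, hTC, hTB, hTD, hTDt, hBB, hDD, hBR⟩ := exists_T' K B hB D hD F hF C hC t ht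
  obtain ⟨A, hA, hAc, hTA, hAt⟩ := exists_closed K (T : Set ℂ) T.countable_toSet hT
  have hAalg : ∀ z ∈ A, IsAlgebraic K z := by
    intro z hz
    by_contra hcon
    exact hAt z hcon hz
  let zz : Fin k → ℂ := fun b => α b 0 / α b 1
  obtain ⟨s, hs, hsl⟩ := exists_aut K l hl hk zz (fun b => ∃ a, Adm π a b ∧ 2 ≤ d a) (fun b hb halg =>
    (h b hb).resolve_left (fun h1 => h1 halg))
  have hmem : ∀ z, (z ∈ T ∨ z = 0) → z ∈ A := by
    rintro z (hz | rfl)
    · exact hTA hz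
    · exact zero_mem _
  -- the orbit of the base point
  have horb : ∀ n, ((∀ g ∈ B, eval ((ev F)^[n] t) g = 0) ∧ ∃ g ∈ D, eval ((ev F)^[n] t) g ≠ 0) ∧
      ∀ i, (ev F)^[n] t i ∈ A := by
    intro n
    induction n with
    | zero => exact ⟨⟨htB, htD⟩, fun i => hmem _ (Or.inl (hTt i))⟩
    | succ n ih =>
      rw [Function.iterate_succ_apply']
      exact ⟨hFX _ ih.1.1 ih.1.2, fun i => eval₂_mem (fun s _ => hmem _ (hTF i s)) ih.2⟩
  obtain ⟨Z₁, hZ₁, hred⟩ := redX A hA (B₀ : Set (MvPolynomial (Fin m) ℂ))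
    (fun g hg s => hmem _ (hTB g hg s)) D₀ (fun g hg s => hmem _ (hTD g hg s)) C (fun q s => hmem _ (hTC q s))
    (fun t ht ht' => hdeg t ((hBB t).2 ht) ((hDD t).2 ht'))
  obtain ⟨Z₂, hZ₂, hjac⟩ := baseP A hA B₀ (fun g hg s => hmem _ (hTB g hg s)) D₀ (fun g hg s => hmem _ (hTD g hg s)) F
    (fun q s => hmem _ (hTF q s)) (fun t ht ht' hr => het t ((hBB t).2 ht) ((hDD t).2 ht') (hBR t ((hBB t).2 ht) hr))
  obtain ⟨Z₃, hZ₃, huD⟩ := unitD A hA (B₀ : Set (MvPolynomial (Fin m) ℂ)) (fun g hg s => hmem _ (hTB g hg s)) D₀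
    (fun g hg s => hmem _ (hTD g hg s)) F (fun q s => hmem _ (hTF q s))
    (fun t ht ht' => (hDD _).1 (hFX t ((hBB t).2 ht) ((hDD t).2 ht')).2)
  let Z : Finset ℂ := Z₁ ∪ (Z₂ ∪ Z₃) ∪ T ∪ (Finset.univ.filter fun b => zz b ∈ A).image zz
  have hZ : ∀ z ∈ Z, z ∈ A := by
    intro z hz
    rcases Finset.mem_union.1 hz with hz | hz
    · rcases Finset.mem_union.1 hz with hz | hz
      · rcases Finset.mem_union.1 hz with hz | hz
        · exact hZ₁ z hz
        · rcases Finset.mem_union.1 hz with hz | hz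
          · exact hZ₂ z hz
          · exact hZ₃ z hz
      · exact hTA hz
    · obtain ⟨b, hb, rfl⟩ := Finset.mem_image.1 hz
      exact (Finset.mem_filter.1 hb).2
  have hZ₁Z : ∀ z ∈ Z₁, z ∈ Z := fun z hz => Finset.mem_union_left _ (Finset.mem_union_left _
    (Finset.mem_union_left _ hz))
  have hZ₂Z : ∀ z ∈ Z₂, z ∈ Z := fun z hz => Finset.mem_union_left _ (Finset.mem_union_left _
    (Finset.mem_union_right _ (Finset.mem_union_left _ hz)))
  have hZ₃Z : ∀ z ∈ Z₃, z ∈ Z := fun z hz => Finset.mem_union_left _ (Finset.mem_union_left _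
    (Finset.mem_union_right _ (Finset.mem_union_right _ hz)))
  have hTZ : ∀ z ∈ T, z ∈ Z := fun z hz => Finset.mem_union_left _ (Finset.mem_union_right _ hz)
  have hzzZ : ∀ b, zz b ∈ A → zz b ∈ Z := fun b hb => Finset.mem_union_right _
    (Finset.mem_image.2 ⟨b, Finset.mem_filter.2 ⟨Finset.mem_univ _, hb⟩, rfl⟩)
  obtain ⟨p, hp, τ, σ, hpN, hUn, hσp, hper, htr⟩ := exCs A hA hAc s
    (fun z hz => fin_orbit K s hs z (hAalg z hz)) Z hZ zz l hl (max (Finset.univ.sup d) 3)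
  have hb : ∀ b, (∃ a, Adm π a b ∧ 2 ≤ d a) → ‖τ (zz b)‖ ≤ 1 ∧
      ∀ m : ℕ, 1 ≤ m → σ^[m] (rd τ (zz b)) = rd τ (zz b) → l ∣ m := by
    intro b hb
    by_cases hbA : zz b ∈ A
    · refine ⟨(hUn _ (hzzZ b hbA)).1, fun m _ h1 => ?_⟩
      have h2 : Function.IsPeriodicPt s m (zz b) := (hper _ (hzzZ b hbA) m).1 h1
      exact (hsl b hb (hAalg _ hbA)).trans h2.minimalPeriod_dvd
    · exact htr b hbA
  have hp3 : 3 ≤ p := (lt_of_le_of_lt (le_max_right _ 3) hpN).le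
  have hpD : ∀ a, d a < p := fun a => lt_of_le_of_lt ((Finset.le_sup (f := d) (Finset.mem_univ a)).trans
    (le_max_left _ 3)) hpN
  have hmemS : ∀ z, (z ∈ T ∨ z = 0) → z ∈ Sf τ σ := by
    rintro z (hz | rfl)
    · refine (mem_Sf τ σ).2 ⟨(hUn z (hTZ z hz)).1, ?_⟩
      exact (hper z (hTZ z hz) 1).2 (hs z (hT z hz))
    · exact zero_mem _
  have hlD : ∀ a, d a < l := by
    intro a
    rcases hld with h1 | ⟨-, h1⟩
    · have h1 := h1 a
      have h2 := hd a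
      have h3 := hl.two_le
      omega
    · exact h1 a
  have hcharp : CharP (kk p) p := charP_kk p
  have halg : IsAlgClosed (kk p) := Pool.Agent.Helper46.OB.algClosed_kk p
  have hTn : ∀ n i, (ev F)^[n] t i ∈ Sf τ σ := by
    intro n
    induction n with
    | zero => exact fun i => hmemS _ (Or.inl (hTt i))
    | succ n ih =>
      rw [Function.iterate_succ_apply']
      exact fun i => eval₂_mem (fun s _ => hmemS _ (hTF i s)) ih
  have hDn : ∀ n, ∃ g ∈ D₀, ‖τ (eval ((ev F)^[n] t) g)‖ = 1 := by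
    intro n
    induction n with
    | zero =>
      obtain ⟨g, hg, hne⟩ := (hDD t).1 htD
      exact ⟨g, hg, (hUn _ (hTZ _ (hTDt g hg))).2 hne⟩
    | succ n ih =>
      rw [Function.iterate_succ_apply']
      exact huD p τ (fun z hz => hUn z (hZ₃Z z hz)) _ ((hBB _).1 (horb n).1.1)
        (fun i => ((mem_Sf τ σ).1 (hTn n i)).1) ih
  have hg : ∀ n a (x : Fin 2 → kk p), x ≠ 0 → ev (form (fun q => rd τ (at' C ((ev F)^[n] t) q)) a) x ≠ 0 := fun n =>
    hred p τ (fun z hz => hUn z (hZ₁Z z hz)) _ ((hBB _).1 (horb n).1.1) (fun i => ((mem_Sf τ σ).1 (hTn n i)).1) (hDn n)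
  obtain ⟨F', T₁, N₁, hT1, hperF, hF', hev, hJ⟩ := hjac p τ (fun z hz => hUn z (hZ₂Z z hz)) (fun n => (ev F)^[n] t)
    (fun n => (hBB _).1 (horb n).1.1) (fun n i => ((mem_Sf τ σ).1 (hTn n i)).1) hDn
    (fun n => Function.iterate_succ_apply' _ _ _) (fun i s => ((mem_Sf τ σ).1 (hmemS _ (hTF i s))).1)
    (fun n i => by rw [← hσp]; exact ((mem_Sf τ σ).1 (hTn n i)).2)
  refine coreP hd F C π t α hα p hp3 hpD τ σ (fun i s => hmemS _ (hTF i s)) (fun q s => hmemS _ (hTC q s))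
    (fun i => hmemS _ (Or.inl (hTt i))) hg F' T₁ N₁ hT1 hperF hF' hev hJ 0 ?_ V hV
  · intro a b hab n x hx0 hw hpl e he hesm heq
    change wrh (fun q => rd τ (OS.at' C ((ev F)^[n] t) q)) a x = 0 at hw
    have h2 := hTn n
    have hat : ∀ q, OS.at' C ((ev F)^[n] t) q ∈ Sf τ σ := fun q => eval₂_mem (fun s _ => hmemS _ (hTC q s)) h2
    obtain ⟨h6, h7⟩ := Pool.Agent.Helper10.OS.crS p σ (fun q => rd τ (at' C ((ev F)^[n] t) q))
      (fun q => ((mem_Sf τ σ).1 (hat q)).2) a (hd a) (hpD a) (hg n a) x hx0 hw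
    have hCb : ∃ a, Adm π a b ∧ 2 ≤ d a := ⟨a, hab, by omega⟩
    have hne : α b 1 ≠ 0 := by
      intro h0
      rcases h b hCb with h1 | h1
      · rw [h0, div_zero] at h1
        exact h1 isAlgebraic_zero
      · rw [h0, div_zero, minpoly.zero, Polynomial.natDegree_X] at h1
        exact hl.one_lt.ne' (Nat.dvd_one.1 h1)
    obtain ⟨h8, h9⟩ := hb b hCb
    have h5 : rp τ (α b) = some (rd τ (α b 0 / α b 1)) := by
      rw [rp, if_pos ⟨hne, h8⟩]
    have hub : ol σ x < l := by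
      rcases hld with h1 | ⟨hP, h1⟩
      · have h1 := h1 a
        omega
      · have hx1 : x 1 ≠ 0 := hpl hP (by rw [h5]; exact Option.some_ne_none _)
        have h10 := crP p σ (fun q => rd τ (at' C ((ev F)^[n] t) q))
          (fun q => ((mem_Sf τ σ).1 (hat q)).2) a (hd a) (hpD a) (fun j => ?_) (hg n a) x hx1 hw
        · have h1 := h1 a
          omega
        · change rd τ (eval ((ev F)^[n] t) (C ⟨a, (1, j)⟩)) = _
          rw [hP]
          split_ifs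
          · rw [map_one, rd_one]
          · rw [map_zero, rd_zero]
    have hpos : 0 < Function.minimalPeriod (Option.map σ) (rp τ (α b)) := by
      rw [heq]
      exact Nat.mul_pos he h6
    have h10 : l ∣ Function.minimalPeriod (Option.map σ) (rp τ (α b)) := by
      refine h9 _ hpos ?_
      have h4 : (Option.map σ)^[Function.minimalPeriod (Option.map σ) (rp τ (α b))] (rp τ (α b)) =
          rp τ (α b) := Function.isPeriodicPt_minimalPeriod _ _
      rw [h5, option_iterate, Option.some_inj] at h4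
      rw [h5]
      exact h4
    rw [heq] at h10
    rcases hl.dvd_mul.1 h10 with h11 | h11
    · have h12 : Finset.univ.sup d < l := (Finset.sup_lt_iff hl.pos).2 fun a _ => hlD a
      exact absurd (hesm l hl h11) (not_le.2 h12)
    · exact absurd (Nat.le_of_dvd h6 h11) (not_le.2 hub)

end

end Pool.Agent.Helper26.HI
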