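import Mathlib
import Pool.Agent.Helper26.HI.LiftQ
import Pool.Agent.Helper26.HI.Emb

/-!
# HI: tools for the criterion with finite sets
-/

set_option autoImplicit false

namespace Pool.Agent.Helper26.HI

open MvPolynomial Pool.Agent.Helper61.TH Pool.Agent.Helper87.FK Pool.Agent.Helper26.OB Pool.Agent.Helper26.OS
open Pool.Agent.Helper26.OT Pool.Agent.Helper98.OT

noncomputable section

/-- normalised coordinates -/
def nv (y : Fin 2 → ℂ) : Fin 2 → ℂ := open Classical in if y 1 = 0 then ![1, 0] else ![y 0 / y 1, 1]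

theorem nv_zero {y : Fin 2 → ℂ} (h : y 1 = 0) : nv y = ![1, 0] := by
  unfold nv
  rw [if_pos h]

theorem nv_fin {y : Fin 2 → ℂ} (h : y 1 ≠ 0) : nv y = ![y 0 / y 1, 1] := by
  unfold nv
  rw [if_neg h]

theorem nv_prop (y : Fin 2 → ℂ) : y 0 * nv y 1 = nv y 0 * y 1 := by
  by_cases h : y 1 = 0
  · rw [nv_zero h, h]
    simp
  · rw [nv_fin h]
    simp
    field_simp

theorem nv_ne (y : Fin 2 → ℂ) : nv y ≠ 0 := by
  by_cases h : y 1 = 0
  · rw [nv_zero h]
    intro h1
    exact one_ne_zero (congrFun h1 0)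
  · rw [nv_fin h]
    intro h1
    exact one_ne_zero (congrFun h1 1)

theorem nv_mem (A : Subfield ℂ) {y : Fin 2 → ℂ} (h : y 0 / y 1 ∈ A) (i : Fin 2) : nv y i ∈ A := by
  by_cases h1 : y 1 = 0
  · rw [nv_zero h1]
    fin_cases i
    · exact A.one_mem
    · exact A.zero_mem
  · rw [nv_fin h1]
    fin_cases i
    · exact h
    · exact A.one_mem

theorem nv_int {p : ℕ} [Fact p.Prime] (τ : ℂ →+* PadicAlgCl p) {y : Fin 2 → ℂ} (h : ‖τ (y 0 / y 1)‖ ≤ 1) :
    (∀ i, ‖τ (nv y i)‖ ≤ 1) ∧ ∃ i, ‖τ (nv y i)‖ = 1 := by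
  by_cases h1 : y 1 = 0
  · rw [nv_zero h1]
    refine ⟨fun i => ?_, 0, ?_⟩
    · fin_cases i
      · change ‖τ 1‖ ≤ 1
        rw [map_one, norm_one]
      · change ‖τ 0‖ ≤ 1
        rw [map_zero, norm_zero]
        exact zero_le_one
    · change ‖τ 1‖ = 1
      rw [map_one, norm_one]
  · rw [nv_fin h1]
    refine ⟨fun i => ?_, 1, ?_⟩
    · fin_cases i
      · exact h
      · change ‖τ 1‖ ≤ 1
        rw [map_one, norm_one]
    · change ‖τ 1‖ = 1
      rw [map_one, norm_one]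

/-- the coordinate of proportional vectors -/
theorem pr_prop {F : Type} [Field F] {x y : Fin 2 → F} (hx : x ≠ 0) (hy : y ≠ 0) (h : x 0 * y 1 = y 0 * x 1) :
    pr x = pr y := by
  have hne : ∀ z : Fin 2 → F, z ≠ 0 → z 1 = 0 → z 0 ≠ 0 := by
    intro z hz h1 h0
    apply hz
    funext i
    fin_cases i
    · exact h0
    · exact h1
  by_cases hx1 : x 1 = 0
  · have hy1 : y 1 = 0 := by
      rw [hx1, mul_zero] at h
      exact (mul_eq_zero.1 h).resolve_left (hne x hx hx1)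
    rw [pr_inf x hx1, pr_inf y hy1]
  · have hy1 : y 1 ≠ 0 := by
      intro hy1
      rw [hy1, mul_zero] at h
      exact hne y hy hy1 ((mul_eq_zero.1 h.symm).resolve_right hx1)
    unfold pr
    rw [if_neg hx1, if_neg hy1]
    congr 1
    field_simp
    linear_combination h

/-- the residue of the normalised vector -/
theorem ol_nv {p : ℕ} [Fact p.Prime] (τ : ℂ →+* PadicAlgCl p) (σ : ℂ →+* ℂ) (σ' : kk p →+* kk p) {y : Fin 2 → ℂ}
    (hper : ∀ m : ℕ, σ'^[m] (rd τ (y 0 / y 1)) = rd τ (y 0 / y 1) ↔ σ^[m] (y 0 / y 1) = y 0 / y 1) :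
    (fun i => rd τ (nv y i)) ≠ 0 ∧ ol σ' (fun i => rd τ (nv y i)) = ol σ y := by
  by_cases h1 : y 1 = 0
  · have h2 : (fun i => rd τ (nv y i)) 1 = 0 := by
      rw [nv_zero h1]
      change rd τ 0 = 0
      rw [rd_zero]
    refine ⟨fun h0 => ?_, ?_⟩
    · have h3 := congrFun h0 0
      rw [nv_zero h1] at h3
      change rd τ 1 = 0 at h3
      rw [rd_one] at h3
      exact one_ne_zero h3
    · unfold ol
      rw [pr_inf _ h2, pr_inf y h1, per_none, per_none]
  · have h2 : (fun i => rd τ (nv y i)) 1 = 1 := by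
      rw [nv_fin h1]
      change rd τ 1 = 1
      rw [rd_one]
    refine ⟨fun h0 => ?_, ?_⟩
    · exact one_ne_zero (h2.symm.trans (congrFun h0 1))
    · have h3 : pr (fun i => rd τ (nv y i)) = some (rd τ (y 0 / y 1)) := by
        unfold pr
        rw [if_neg (by rw [h2]; exact one_ne_zero), h2, div_one, nv_fin h1]
        rfl
      have h4 : pr y = some (y 0 / y 1) := by
        unfold pr
        rw [if_neg h1]
      unfold ol
      rw [h3, h4]
      exact per_eq τ σ σ' _ hper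

theorem chain_neC {k : ℕ} {d : Fin k → ℕ} (c : ℕ → Idx d → ℂ) (hdeg : ∀ j, HasDeg (c j)) (π : Fin k → Fin k)
    (N : ℕ) (b : Fin k) (x : Fin 2 → ℂ) (hx : x ≠ 0) : chain c π N b x ≠ 0 := by
  induction N generalizing b with
  | zero => exact hx
  | succ N ih => exact fun h => ih (π b) (hd_ev (c N) (hdeg N) b _ h)

section sys

variable {m k : ℕ} {d : Fin k → ℕ} (F : Fin m → MvPolynomial (Fin m) ℂ) (C : Idx d → MvPolynomial (Fin m) ℂ)
  (π : Fin k → Fin k) (t : Fin m → ℂ)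

theorem sys_base (α : Fin k → Fin 2 → ℂ) (n : ℕ) : ((sysS F C π)^[n] (t, α)).1 = (ev F)^[n] t := by
  induction n with
  | zero => rfl
  | succ n ih =>
    rw [Function.iterate_succ_apply', Function.iterate_succ_apply']
    change ev F ((sysS F C π)^[n] (t, α)).1 = _
    rw [ih]

theorem sys_step (α : Fin k → Fin 2 → ℂ) (n : ℕ) (b : Fin k) : ((sysS F C π)^[n + 1] (t, α)).2 b =
    ev (form (at' C ((ev F)^[n] t)) b) (((sysS F C π)^[n] (t, α)).2 (π b)) := by
  rw [Function.iterate_succ_apply']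
  change ev (form (at' C ((sysS F C π)^[n] (t, α)).1) b) (((sysS F C π)^[n] (t, α)).2 (π b)) = _
  rw [sys_base]

theorem sys_scale1 (α β : Fin k → Fin 2 → ℂ) (l : ℂ) (n : ℕ) (c : Fin k)
    (h : α (π^[n] c) = fun i => l * β (π^[n] c) i) :
    ∃ D : ℕ, ((sysS F C π)^[n] (t, α)).2 c = fun i => l ^ D * ((sysS F C π)^[n] (t, β)).2 c i := by
  induction n generalizing c with
  | zero =>
    refine ⟨1, ?_⟩
    rw [pow_one]
    exact h
  | succ n ih =>
    obtain ⟨D, hD⟩ := ih (π c) h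
    refine ⟨D * d c, ?_⟩
    rw [sys_step, sys_step, hD, form_smul98, pow_mul]

theorem sys_mem (A : Subfield ℂ) (hat : ∀ n q, at' C ((ev F)^[n] t) q ∈ A) (α : Fin k → Fin 2 → ℂ) (n : ℕ) (c : Fin k)
    (h : ∀ i, α (π^[n] c) i ∈ A) (i : Fin 2) : ((sysS F C π)^[n] (t, α)).2 c i ∈ A := by
  induction n generalizing c i with
  | zero => exact h i
  | succ n ih =>
    rw [sys_step, Pool.Agent.Helper10.OS.ev_form]
    refine A.sum_mem fun j _ => ?_
    exact A.mul_mem (A.mul_mem (hat n _) (A.pow_mem (ih (π c) h 0) _)) (A.pow_mem (ih (π c) h 1) _)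

end sys

end

end Pool.Agent.Helper26.HI
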