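import Mathlib
import Pool.Agent.Helper26.HI.FinP
import Pool.Agent.Helper26.HI.QTools
import Pool.Agent.Helper26.HI.FinQ
import Pool.Agent.Helper26.HI.CoreR

/-!
# HI: the criterion with finite sets, exempt coordinates and critical points which are not reached in the periodic part
-/

set_option autoImplicit false

namespace Pool.Agent.Helper26.HI

open MvPolynomial Pool.Agent.Helper61.TH Pool.Agent.Helper87.FK Pool.Agent.Helper26.OB Pool.Agent.Helper26.OS
open Pool.Agent.Helper26.OT Pool.Agent.Helper98.OT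

noncomputable section

/-- **The criterion** -/
theorem finR
    {m k : ℕ} (K : Subfield ℂ) (B : Set (MvPolynomial (Fin m) ℂ)) (hB : ∀ g ∈ B, ∀ s, coeff s g ∈ K)
    (D : Set (MvPolynomial (Fin m) ℂ)) (hD : ∀ g ∈ D, ∀ s, coeff s g ∈ K)
    (F : Fin m → MvPolynomial (Fin m) ℂ) (hF : ∀ i s, coeff s (F i) ∈ K)
    (hFX : ∀ t : Fin m → ℂ, (∀ g ∈ B, eval t g = 0) → (∃ g ∈ D, eval t g ≠ 0) →
      (∀ g ∈ B, eval (ev F t) g = 0) ∧ ∃ g ∈ D, eval (ev F t) g ≠ 0)
    (het : ∀ t : Fin m → ℂ, (∀ g ∈ B, eval t g = 0) → (∃ g ∈ D, eval t g ≠ 0) → ¬ Pool.Agent.Helper10.V3.Ram B F t)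
    (d : Fin k → ℕ) (hd : ∀ a, 1 ≤ d a) (C : Idx d → MvPolynomial (Fin m) ℂ) (hC : ∀ q s, coeff s (C q) ∈ K)
    (hdeg : ∀ t : Fin m → ℂ, (∀ g ∈ B, eval t g = 0) → (∃ g ∈ D, eval t g ≠ 0) → HasDeg (at' C t))
    (π : Fin k → Fin k) (t : Fin m → ℂ) (ht : ∀ i, t i ∈ K) (htB : ∀ g ∈ B, eval t g = 0) (htD : ∃ g ∈ D, eval t g ≠ 0)
    (α : Fin k → Fin 2 → ℂ) (hα : ∀ b, α b ≠ 0) (s : ℂ ≃+* ℂ)
    (hs : ∀ z ∈ K, s z = z) (N : ℕ) (E : Fin k → Prop)
    (hEdef : ∀ b, E b ↔ Transcendental K (α b 0 / α b 1) ∨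
      ∃ l : ℕ, l.Prime ∧ (∀ a, 2 * d a - 2 < l) ∧ l ∣ ol (s : ℂ →+* ℂ) (α b))
    (Y : Fin k → Finset (Fin 2 → ℂ)) (hY0 : ∀ c, ∀ y ∈ Y c, y ≠ 0) (hY : ∀ c, ∀ y ∈ Y c, IsAlgebraic K (y 0 / y 1))
    (hYa : ∀ n, n ≤ N → ∀ c, Adm π c c → ¬ InP (Y c : Set (Fin 2 → ℂ)) (((sysS F C π)^[n] (t, α)).2 c))
    (hS : {z : ℂ | ∃ (n : ℕ) (a b : Fin k) (x : Fin 2 → ℂ), Adm π a b ∧ ¬ E b ∧ x ≠ 0 ∧ Bad F C π t Y N n a x ∧
      z = x 0 / x 1}.Finite) (U : Finset ℂ)
    (h : ∀ a b, Adm π a b → ¬ E b → ∀ (n : ℕ) (x : Fin 2 → ℂ), x ≠ 0 → Bad F C π t Y N n a x →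
      ∀ e, Smooth (Finset.univ.sup d) e → ol (s : ℂ →+* ℂ) (α b) = e * ol (s : ℂ →+* ℂ) x →
        ¬ InP (Y a : Set (Fin 2 → ℂ)) (ev (form (at' C ((ev F)^[n + N] t)) a)
          (chain (fun j => at' C ((ev F)^[n + j] t)) π N (π a) x)) ∧
        chain (fun j => at' C ((ev F)^[n + j] t)) π N (π a) x 0 /
          chain (fun j => at' C ((ev F)^[n + j] t)) π N (π a) x 1 ∈ U ∧
        ol (s : ℂ →+* ℂ) (chain (fun j => at' C ((ev F)^[n + j] t)) π N (π a) x) ≠ ol (s : ℂ →+* ℂ) x)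
    (V : Set (MvPolynomial (Fin m ⊕ Fin k × Fin 2) ℂ)) (hV : ∀ G ∈ V, MH G) : ∃ S : Finset (ℕ × ℕ),
      {n : ℕ | ∀ G ∈ V, eval (Sum.elim ((sysS F C π)^[n] (t, α)).1 fun q =>
        ((sysS F C π)^[n] (t, α)).2 q.1 q.2) G = 0} = {n | ∃ q ∈ S, ∃ j, n = q.1 + q.2 * j} := by
  classical
  obtain ⟨σ, hσdef⟩ : ∃ σ : ℂ →+* ℂ, σ = (s : ℂ →+* ℂ) := ⟨_, rfl⟩
  have hσ : ∀ z ∈ K, σ z = z := by
    rw [hσdef]
    exact hs
  rw [← hσdef] at h hEdef
  obtain ⟨T, B₀, D₀, hT, hTt, hTF, hTC, hTB, hTD, hTDt, hBB, hDD, hBR⟩ := exists_T' K B hB D hD F hF C hC t ht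
  let W : Finset ℂ := Finset.univ.biUnion fun c => (Y c).biUnion fun y =>
    (minpoly K (y 0 / y 1)).support.image fun i => ((((minpoly K (y 0 / y 1)).coeff i : K)) : ℂ)
  have hW : ∀ z ∈ W, z ∈ K := by
    intro z hz
    obtain ⟨c, -, hz⟩ := Finset.mem_biUnion.1 hz
    obtain ⟨y, -, hz⟩ := Finset.mem_biUnion.1 hz
    obtain ⟨i, -, rfl⟩ := Finset.mem_image.1 hz
    exact ((minpoly K (y 0 / y 1)).coeff i).2
  obtain ⟨A, hA, hAc, hTWA, hAt⟩ := exists_closed K ((T ∪ W : Finset ℂ) : Set ℂ) (T ∪ W).countable_toSet (by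
    intro z hz
    rcases Finset.mem_union.1 hz with hz | hz
    · exact hT z hz
    · exact hW z hz)
  have hTA : ∀ z ∈ T, z ∈ A := fun z hz => hTWA (Finset.mem_union_left _ hz)
  have hYA : ∀ c, ∀ y ∈ Y c, y 0 / y 1 ∈ A := by
    intro c y hy
    have hint : IsIntegral K (y 0 / y 1) := (hY c y hy).isIntegral
    refine mem_root A hA ((minpoly K (y 0 / y 1)).map (algebraMap K ℂ)) ?_ (fun i => ?_) _ ?_
    · exact Polynomial.map_ne_zero (minpoly.ne_zero hint)
    · rw [Polynomial.coeff_map]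
      by_cases h0 : (minpoly K (y 0 / y 1)).coeff i = 0
      · rw [h0, map_zero]
        exact A.zero_mem
      · exact hTWA (Finset.mem_union_right _ (Finset.mem_biUnion.2 ⟨c, Finset.mem_univ _, Finset.mem_biUnion.2
          ⟨y, hy, Finset.mem_image.2 ⟨i, Polynomial.mem_support_iff.2 h0, rfl⟩⟩⟩))
    · rw [Polynomial.eval_map, ← Polynomial.aeval_def, minpoly.aeval]
  have hAalg : ∀ z ∈ A, IsAlgebraic K z := by
    intro z hz
    by_contra hcon
    exact hAt z hcon hz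
  have hmem : ∀ z, (z ∈ T ∨ z = 0) → z ∈ A := by
    rintro z (hz | rfl)
    · exact hTA z hz
    · exact zero_mem _
  -- the orbit of the base point
  have horb : ∀ n, ((∀ g ∈ B, eval ((ev F)^[n] t) g = 0) ∧ ∃ g ∈ D, eval ((ev F)^[n] t) g ≠ 0) ∧
      ∀ i, (ev F)^[n] t i ∈ A := by
    intro n
    induction n with
    | zero => exact ⟨⟨htB, htD⟩, fun i => hmem _ (Or.inl (hTt i))⟩
    | succ n ih =>
      rw [Function.iterate_succ_apply']
      exact ⟨hFX _ ih.1.1 ih.1.2, fun i => eval₂_mem (fun s _ => hmem _ (hTF i s)) ih.2⟩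
  have hatA : ∀ n q, at' C ((ev F)^[n] t) q ∈ A := fun n q => eval₂_mem (fun s _ => hmem _ (hTC q s)) (horb n).2
  obtain ⟨Z₁, hZ₁, hred⟩ := redX A hA (B₀ : Set (MvPolynomial (Fin m) ℂ))
    (fun g hg s => hmem _ (hTB g hg s)) D₀ (fun g hg s => hmem _ (hTD g hg s)) C (fun q s => hmem _ (hTC q s))
    (fun t ht ht' => hdeg t ((hBB t).2 ht) ((hDD t).2 ht'))
  obtain ⟨Z₂, hZ₂, hjac⟩ := baseP A hA B₀ (fun g hg s => hmem _ (hTB g hg s)) D₀ (fun g hg s => hmem _ (hTD g hg s)) F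
    (fun q s => hmem _ (hTF q s)) (fun t ht ht' hr => het t ((hBB t).2 ht) ((hDD t).2 ht') (hBR t ((hBB t).2 ht) hr))
  obtain ⟨Z₃, hZ₃, huD⟩ := unitD A hA (B₀ : Set (MvPolynomial (Fin m) ℂ)) (fun g hg s => hmem _ (hTB g hg s)) D₀
    (fun g hg s => hmem _ (hTD g hg s)) F (fun q s => hmem _ (hTF q s))
    (fun t ht ht' => (hDD _).1 (hFX t ((hBB t).2 ht) ((hDD t).2 ht')).2)
  let zz : Fin k → ℂ := fun b => α b 0 / α b 1
  let α' : Fin k → Fin 2 → ℂ := fun b => nv (α b)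
  let Δ : ℕ → Fin k → (Fin 2 → ℂ) → ℂ := fun n c y =>
    ((sysS F C π)^[n] (t, α')).2 c 0 * nv y 1 - nv y 0 * ((sysS F C π)^[n] (t, α')).2 c 1
  let Z₄ : Finset ℂ := (Finset.range (N + 1)).biUnion fun n => Finset.univ.biUnion fun c =>
    ((Y c).image fun y => Δ n c y).filter (· ∈ A)
  let Z₅ : Finset ℂ := Finset.univ.biUnion fun c => (Y c).image fun y => y 0 / y 1
  let Z₀ : Finset ℂ := Z₁ ∪ (Z₂ ∪ Z₃) ∪ T ∪ (hS.toFinset ∪ U.filter (· ∈ A)) ∪
    (Finset.univ.filter fun b => zz b ∈ A).image zz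
  let Z : Finset ℂ := Z₀ ∪ (Z₄ ∪ Z₅)
  have hpair : ∀ (n : ℕ) (a : Fin k) (x : Fin 2 → ℂ), x ≠ 0 → Bad F C π t Y N n a x → x 0 / x 1 ∈ A ∧
      chain (fun j => at' C ((ev F)^[n + j] t)) π N (π a) x 0 /
        chain (fun j => at' C ((ev F)^[n + j] t)) π N (π a) x 1 ∈ A := by
    rintro n a x hx0 ⟨-, hw⟩
    have hdeg' : ∀ j, HasDeg (at' C ((ev F)^[n + j] t)) := fun j =>
      hdeg _ (horb (n + j)).1.1 (horb (n + j)).1.2
    have hy0 := chain_neC _ hdeg' π N (π a) x hx0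
    rcases hw with hw | ⟨y, hy, hw⟩
    · refine ⟨mem_chain A hA (fun j => at' C ((ev F)^[n + j] t)) (fun j => hatA (n + j)) hdeg' hd π N a (π a) x
        hx0 hw, ?_⟩
      exact mem_chain A hA (fun _ => at' C ((ev F)^[n + N] t)) (fun _ => hatA (n + N)) (fun _ => hdeg' N) hd π 0 a
        (π a) _ hy0 hw
    · have hwA : ev (form (at' C ((ev F)^[n + N] t)) a) (chain (fun j => at' C ((ev F)^[n + j] t)) π N (π a) x) 0 /
          ev (form (at' C ((ev F)^[n + N] t)) a) (chain (fun j => at' C ((ev F)^[n + j] t)) π N (π a) x) 1 ∈ A := by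
        revert hw
        generalize ev (form (at' C ((ev F)^[n + N] t)) a)
          (chain (fun j => at' C ((ev F)^[n + j] t)) π N (π a) x) = w
        intro hw
        by_cases hw1 : w 1 = 0
        · rw [hw1, div_zero]
          exact A.zero_mem
        by_cases hy1 : y 1 = 0
        · have h1 := hYA a y hy
          rw [hy1, mul_zero] at hw
          have h2 : y 0 = 0 := (mul_eq_zero.1 hw.symm).resolve_right hw1
          exact absurd (show y = 0 by funext i; fin_cases i; exacts [h2, hy1]) (hY0 a y hy)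
        · have h1 := hYA a y hy
          have h2 : w 0 / w 1 = y 0 / y 1 := by
            field_simp
            linear_combination hw
          rw [h2]
          exact h1
      refine ⟨mem_chain' A hA (fun j => at' C ((ev F)^[n + j] t)) (fun j => hatA (n + j)) hdeg' hd π (N + 1) a x
        hx0 hwA, ?_⟩
      exact mem_chain' A hA (fun _ => at' C ((ev F)^[n + N] t)) (fun _ => hatA (n + N)) (fun _ => hdeg' N) hd π 1 a
        _ hy0 hwA
  have hZ : ∀ z ∈ Z, z ∈ A := by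
    intro z hz
    rcases Finset.mem_union.1 hz with hz | hz
    swap
    · rcases Finset.mem_union.1 hz with hz | hz
      · obtain ⟨n, -, hz⟩ := Finset.mem_biUnion.1 hz
        obtain ⟨c, -, hz⟩ := Finset.mem_biUnion.1 hz
        exact (Finset.mem_filter.1 hz).2
      · obtain ⟨c, -, hz⟩ := Finset.mem_biUnion.1 hz
        obtain ⟨y, hy, rfl⟩ := Finset.mem_image.1 hz
        exact hYA c y hy
    rcases Finset.mem_union.1 hz with hz | hz
    · rcases Finset.mem_union.1 hz with hz | hz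
      · rcases Finset.mem_union.1 hz with hz | hz
        · rcases Finset.mem_union.1 hz with hz | hz
          · exact hZ₁ z hz
          · rcases Finset.mem_union.1 hz with hz | hz
            · exact hZ₂ z hz
            · exact hZ₃ z hz
        · exact hTA z hz
      · rcases Finset.mem_union.1 hz with hz | hz
        · obtain ⟨n, a, b, x, -, -, hx0, hw, rfl⟩ := hS.mem_toFinset.1 hz
          exact (hpair n a x hx0 hw).1
        · exact (Finset.mem_filter.1 hz).2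
    · obtain ⟨b, hb, rfl⟩ := Finset.mem_image.1 hz
      exact (Finset.mem_filter.1 hb).2
  have hZ₀Z : ∀ z ∈ Z₀, z ∈ Z := fun z hz => Finset.mem_union_left _ hz
  have hZ₁Z : ∀ z ∈ Z₁, z ∈ Z := fun z hz => hZ₀Z z (Finset.mem_union_left _ (Finset.mem_union_left _
    (Finset.mem_union_left _ (Finset.mem_union_left _ hz))))
  have hZ₂Z : ∀ z ∈ Z₂, z ∈ Z := fun z hz => hZ₀Z z (Finset.mem_union_left _ (Finset.mem_union_left _
    (Finset.mem_union_left _ (Finset.mem_union_right _ (Finset.mem_union_left _ hz)))))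
  have hZ₃Z : ∀ z ∈ Z₃, z ∈ Z := fun z hz => hZ₀Z z (Finset.mem_union_left _ (Finset.mem_union_left _
    (Finset.mem_union_left _ (Finset.mem_union_right _ (Finset.mem_union_right _ hz)))))
  have hTZ : ∀ z ∈ T, z ∈ Z := fun z hz => hZ₀Z z (Finset.mem_union_left _ (Finset.mem_union_left _
    (Finset.mem_union_right _ hz)))
  have hSZ : ∀ z ∈ hS.toFinset, z ∈ Z := fun z hz => hZ₀Z _ (Finset.mem_union_left _ (Finset.mem_union_right _
    (Finset.mem_union_left _ hz)))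
  have hUZ : ∀ z ∈ U, z ∈ A → z ∈ Z := fun z hz hz' => hZ₀Z _ (Finset.mem_union_left _ (Finset.mem_union_right _
    (Finset.mem_union_right _ (Finset.mem_filter.2 ⟨hz, hz'⟩))))
  have hzzZ : ∀ b, zz b ∈ A → zz b ∈ Z := fun b hb => hZ₀Z _ (Finset.mem_union_right _
    (Finset.mem_image.2 ⟨b, Finset.mem_filter.2 ⟨Finset.mem_univ _, hb⟩, rfl⟩))
  have hΔZ : ∀ n c y, n ≤ N → y ∈ Y c → Δ n c y ∈ A → Δ n c y ∈ Z := fun n c y hn hy hA' => Finset.mem_union_right _
    (Finset.mem_union_left _ (Finset.mem_biUnion.2 ⟨n, Finset.mem_range.2 (Nat.lt_succ_of_le hn), Finset.mem_biUnion.2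
      ⟨c, Finset.mem_univ _, Finset.mem_filter.2 ⟨Finset.mem_image_of_mem _ hy, hA'⟩⟩⟩))
  have hYZ : ∀ c, ∀ y ∈ Y c, y 0 / y 1 ∈ Z := fun c y hy => Finset.mem_union_right _
    (Finset.mem_union_right _ (Finset.mem_biUnion.2 ⟨c, Finset.mem_univ _, Finset.mem_image_of_mem _ hy⟩))
  have hdD : ∀ a, d a ≤ Finset.univ.sup d := fun a => Finset.le_sup (f := d) (Finset.mem_univ a)
  obtain ⟨l', hlN', hl'⟩ := Nat.exists_infinite_primes
    (max (2 * Finset.univ.sup d) 3 + 1 + ∑ c, ∑ y ∈ Y c, ol σ y)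
  have hlN : max (2 * Finset.univ.sup d) 3 < l' := by omega
  have hlY : ∀ c, ∀ y ∈ Y c, 0 < ol σ y ∧ ol σ y < l' := by
    intro c y hy
    have h1 : ol σ y ≤ ∑ y ∈ Y c, ol σ y := Finset.single_le_sum (f := fun y => ol σ y) (fun _ _ => Nat.zero_le _) hy
    have h2 : ∑ y ∈ Y c, ol σ y ≤ ∑ c, ∑ y ∈ Y c, ol σ y :=
      Finset.single_le_sum (f := fun c => ∑ y ∈ Y c, ol σ y) (fun _ _ => Nat.zero_le _) (Finset.mem_univ c)
    refine ⟨?_, by omega⟩
    unfold ol
    by_cases hy1 : y 1 = 0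
    · rw [pr_inf y hy1, per_none]
      exact one_pos
    · obtain ⟨n, hn, hn'⟩ := fin_orbit K s hs _ (hY c y hy)
      have h3 : pr y = some (y 0 / y 1) := by
        unfold pr
        rw [if_neg hy1]
      rw [h3]
      refine Function.IsPeriodicPt.minimalPeriod_pos (n := n) hn ?_
      change (Option.map σ)^[n] (some (y 0 / y 1)) = some (y 0 / y 1)
      rw [option_iterate, hσdef]
      exact congrArg some hn'
  obtain ⟨p, hp, τ, σ', hpN, hUn, hσ'p, hper', htr⟩ := exCs A hA hAc s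
    (fun z hz => fin_orbit K s hs z (hAalg z hz)) Z hZ zz l' hl' (max (2 * Finset.univ.sup d) 3)
  have hper : ∀ z ∈ Z, ∀ m : ℕ, σ'^[m] (rd τ z) = rd τ z ↔ σ^[m] z = z := by
    intro z hz m
    rw [hper' z hz m, hσdef]
    rfl
  have hcharp : CharP (kk p) p := charP_kk p
  have halg : IsAlgClosed (kk p) := Pool.Agent.Helper46.OB.algClosed_kk p
  have hp3 : 3 ≤ p := (lt_of_le_of_lt (le_max_right _ 3) hpN).le
  have hpD : ∀ a, d a < p := by
    intro a
    have h1 := hdD a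
    have h2 := lt_of_le_of_lt (le_max_left _ 3) hpN
    omega
  have hlD : 2 * Finset.univ.sup d < l' := lt_of_le_of_lt (le_max_left _ 3) hlN
  have hmemS : ∀ z, (z ∈ T ∨ z = 0) → z ∈ Sf τ σ' := by
    rintro z (hz | rfl)
    · refine (mem_Sf τ σ').2 ⟨(hUn z (hTZ z hz)).1, ?_⟩
      exact (hper z (hTZ z hz) 1).2 (hσ z (hT z hz))
    · exact zero_mem _
  have hTn : ∀ n i, (ev F)^[n] t i ∈ Sf τ σ' := by
    intro n
    induction n with
    | zero => exact fun i => hmemS _ (Or.inl (hTt i))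
    | succ n ih =>
      rw [Function.iterate_succ_apply']
      exact fun i => eval₂_mem (fun s _ => hmemS _ (hTF i s)) ih
  have hat : ∀ n q, at' C ((ev F)^[n] t) q ∈ Sf τ σ' := fun n q => eval₂_mem (fun s _ => hmemS _ (hTC q s)) (hTn n)
  have hDn : ∀ n, ∃ g ∈ D₀, ‖τ (eval ((ev F)^[n] t) g)‖ = 1 := by
    intro n
    induction n with
    | zero =>
      obtain ⟨g, hg, hne⟩ := (hDD t).1 htD
      exact ⟨g, hg, (hUn _ (hTZ _ (hTDt g hg))).2 hne⟩
    | succ n ih =>
      rw [Function.iterate_succ_apply']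
      exact huD p τ (fun z hz => hUn z (hZ₃Z z hz)) _ ((hBB _).1 (horb n).1.1)
        (fun i => ((mem_Sf τ σ').1 (hTn n i)).1) ih
  have hg : ∀ n a (x : Fin 2 → kk p), x ≠ 0 → ev (form (fun q => rd τ (at' C ((ev F)^[n] t) q)) a) x ≠ 0 := fun n =>
    hred p τ (fun z hz => hUn z (hZ₁Z z hz)) _ ((hBB _).1 (horb n).1.1) (fun i => ((mem_Sf τ σ').1 (hTn n i)).1) (hDn n)
  obtain ⟨F', T₁, N₁, hT1, hperF, hF', hev, hJ⟩ := hjac p τ (fun z hz => hUn z (hZ₂Z z hz)) (fun n => (ev F)^[n] t)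
    (fun n => (hBB _).1 (horb n).1.1) (fun n i => ((mem_Sf τ σ').1 (hTn n i)).1) hDn
    (fun n => Function.iterate_succ_apply' _ _ _) (fun i s => ((mem_Sf τ σ').1 (hmemS _ (hTF i s))).1)
    (fun n i => by rw [← hσ'p]; exact ((mem_Sf τ σ').1 (hTn n i)).2)
  -- the reduced sets
  let Yb : Fin k → Set (Fin 2 → kk p) := fun c => (fun (y : Fin 2 → ℂ) (i : Fin 2) => rd τ (nv y i)) '' (Y c : Set (Fin 2 → ℂ))
  have hnv : ∀ c, ∀ y ∈ Y c, (∀ i, ‖τ (nv y i)‖ ≤ 1) ∧ ∃ i, ‖τ (nv y i)‖ = 1 := fun c y hy =>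
    nv_int τ (hUn _ (hYZ c y hy)).1
  have holY : ∀ c, ∀ y ∈ Y c, (fun i => rd τ (nv y i)) ≠ 0 ∧ ol σ' (fun i => rd τ (nv y i)) = ol σ y := fun c y hy =>
    ol_nv τ σ σ' (hper _ (hYZ c y hy))
  have holY' : ∀ c (x : Fin 2 → kk p), x ≠ 0 → InP (Yb c) x → 0 < ol σ' x ∧ ol σ' x < l' := by
    rintro c x hx ⟨_, ⟨y, hy, rfl⟩, hxy⟩
    have h1 : ol σ' x = ol σ y := by
      rw [← (holY c y hy).2]
      exact congrArg (Function.minimalPeriod (Option.map σ')) (pr_prop hx (holY c y hy).1 hxy)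
    rw [h1]
    exact hlY c y hy
  -- coordinates which are not algebraic
  have htra : ∀ b, zz b ∉ A → ∀ (x : Fin 2 → kk p) (e : ℕ), 1 ≤ e → Smooth (Finset.univ.sup d) e → 0 < ol σ' x →
      Function.minimalPeriod (Option.map σ') (rp τ (α b)) = e * ol σ' x → l' ∣ ol σ' x := by
    intro b hb x e he hesm hpos heq
    have hα1 : α b 1 ≠ 0 := by
      intro h3
      apply hb
      change α b 0 / α b 1 ∈ A
      rw [h3, div_zero]
      exact A.zero_mem
    obtain ⟨h8, h9⟩ := htr b hb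
    have hpos' : 0 < Function.minimalPeriod (Option.map σ') (rp τ (α b)) := by
      rw [heq]
      exact Nat.mul_pos he hpos
    have h10 : l' ∣ Function.minimalPeriod (Option.map σ') (rp τ (α b)) := by
      refine h9 _ hpos' ?_
      have h4 : (Option.map σ')^[Function.minimalPeriod (Option.map σ') (rp τ (α b))] (rp τ (α b)) =
          rp τ (α b) := Function.isPeriodicPt_minimalPeriod _ _
      have h5 : rp τ (α b) = some (rd τ (zz b)) := by
        rw [rp, if_pos ⟨hα1, h8⟩]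
      rw [h5, option_iterate, Option.some_inj] at h4
      rw [h5]
      exact h4
    rw [heq] at h10
    rcases hl'.dvd_mul.1 h10 with h11 | h11
    · have h12 := hesm l' hl' h11
      omega
    · exact h11
  have hola : ∀ b, zz b ∈ A → Function.minimalPeriod (Option.map σ') (rp τ (α b)) = ol σ (α b) := by
    intro b hb
    by_cases hα1 : α b 1 = 0
    · rw [rp, if_neg (fun h3 => h3.1 hα1), ol, pr_inf _ hα1, per_none, per_none]
    · have h3 : pr (α b) = some (zz b) := by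
        unfold pr
        rw [if_neg hα1]
      rw [rp, if_pos ⟨hα1, (hUn _ (hzzZ b hb)).1⟩, ol, h3]
      exact per_eq τ σ σ' _ (hper _ (hzzZ b hb))
  -- the other coordinates
  have key : ∀ a b, Adm π a b → ¬ E b → ∀ n (x : Fin 2 → kk p), x ≠ 0 →
      ¬ InP (Yb (π a)) (chain (fun j q => rd τ (at' C ((ev F)^[n + j] t) q)) π N (π a) x) →
      ((wrh (fun q => rd τ (at' C ((ev F)^[n + N] t) q)) a
        (chain (fun j q => rd τ (at' C ((ev F)^[n + j] t) q)) π N (π a) x) = 0 ∧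
        ol σ' x = ol σ' (chain (fun j q => rd τ (at' C ((ev F)^[n + j] t) q)) π N (π a) x)) ∨
        InP (Yb a) (ev (form (fun q => rd τ (at' C ((ev F)^[n + N] t) q)) a)
          (chain (fun j q => rd τ (at' C ((ev F)^[n + j] t) q)) π N (π a) x))) →
      ∀ e, 1 ≤ e → Smooth (Finset.univ.sup d) e →
        Function.minimalPeriod (Option.map σ') (rp τ (α b)) ≠ e * ol σ' x := by
    intro a b hab hEb n x hx0 hyY hbad e he hesm heq
    have hy0 : chain (fun j q => rd τ (at' C ((ev F)^[n + j] t) q)) π N (π a) x ≠ 0 :=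
      chain_ne98' _ (fun j => hg (n + j)) π N (π a) x hx0
    by_cases hb : zz b ∈ A
    swap
    · -- not algebraic
      have hbound : 0 < ol σ' x ∧ ¬ l' ∣ ol σ' x := by
        rcases hbad with ⟨hw, -⟩ | hin
        · obtain ⟨e', he', hesm', hx⟩ := ol_chain σ' (fun j q => rd τ (at' C ((ev F)^[n + j] t) q))
            (fun j q => ((mem_Sf τ σ').1 (hat (n + j) q)).2) hd (fun j => hg (n + j)) π N (π a) x hx0
          obtain ⟨h6, h7⟩ := Pool.Agent.Helper10.OS.crS p σ' (fun q => rd τ (at' C ((ev F)^[n + N] t) q))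
            (fun q => ((mem_Sf τ σ').1 (hat (n + N) q)).2) a (hd a) (hpD a) (hg (n + N) a) _ hy0 hw
          refine ⟨by rw [hx]; exact Nat.mul_pos he' h6, fun h10 => ?_⟩
          rw [hx] at h10
          have h13 := hdD a
          rcases hl'.dvd_mul.1 h10 with h11 | h11
          · have h12 := hesm' l' hl' h11
            omega
          · have h14 := Nat.le_of_dvd h6 h11
            omega
        · obtain ⟨e', he', hesm', hx⟩ := ol_chain σ' (fun j q => rd τ (at' C ((ev F)^[n + j] t) q))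
            (fun j q => ((mem_Sf τ σ').1 (hat (n + j) q)).2) hd (fun j => hg (n + j)) π (N + 1) a x hx0
          obtain ⟨h6, h7⟩ := holY' a _ (hg (n + N) a _ hy0) hin
          change ol σ' x = e' * ol σ' (ev (form (fun q => rd τ (at' C ((ev F)^[n + N] t) q)) a)
            (chain (fun j q => rd τ (at' C ((ev F)^[n + j] t) q)) π N (π a) x)) at hx
          refine ⟨by rw [hx]; exact Nat.mul_pos he' h6, fun h10 => ?_⟩
          rw [hx] at h10
          rcases hl'.dvd_mul.1 h10 with h11 | h11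
          · have h12 := hesm' l' hl' h11
            omega
          · have h14 := Nat.le_of_dvd h6 h11
            omega
      exact hbound.2 (htra b hb x e he hesm hbound.1 heq)
    · have hdeg' : ∀ j, HasDeg (at' C ((ev F)^[n + j] t)) := fun j =>
        hdeg _ (horb (n + j)).1.1 (horb (n + j)).1.2
      obtain ⟨c', z', hc', hz', hcz, hbz⟩ : ∃ c' z' : Fin 2 → ℂ, Lft τ x c' ∧
          Lft τ (chain (fun j q => rd τ (at' C ((ev F)^[n + j] t) q)) π N (π a) x) z' ∧
          z' 0 * chain (fun j => at' C ((ev F)^[n + j] t)) π N (π a) c' 1 =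
            z' 1 * chain (fun j => at' C ((ev F)^[n + j] t)) π N (π a) c' 0 ∧
          ((wrh (at' C ((ev F)^[n + N] t)) a z' = 0 ∧
            ol σ' x = ol σ' (chain (fun j q => rd τ (at' C ((ev F)^[n + j] t) q)) π N (π a) x)) ∨ ∃ u ∈ Y a,
            nv u 0 * ev (form (at' C ((ev F)^[n + N] t)) a) z' 1 =
              nv u 1 * ev (form (at' C ((ev F)^[n + N] t)) a) z' 0) := by
        rcases hbad with ⟨hw, hol⟩ | ⟨_, ⟨u, hu, rfl⟩, hux⟩
        · obtain ⟨c', z', h1, h2, h3, h4⟩ := liftWr τ (fun j => at' C ((ev F)^[n + j] t))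
            (fun j q => ((mem_Sf τ σ').1 (hat (n + j) q)).1) hd (fun j => hg (n + j)) π hpD N a (π a) x hx0 hw
          exact ⟨c', z', h1, h2, h3, Or.inl ⟨h4, hol⟩⟩
        · obtain ⟨c', z', h1, h2, h3, h4⟩ := liftIn τ (fun j => at' C ((ev F)^[n + j] t))
            (fun j q => ((mem_Sf τ σ').1 (hat (n + j) q)).1) hd (fun j => hg (n + j)) π N a (π a) x hx0 (nv u)
            ⟨(hnv a u hu).1, (hnv a u hu).2, by linear_combination -hux⟩
          exact ⟨c', z', h1, h2, h3, Or.inr ⟨u, hu, h4⟩⟩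
      have hw0 : chain (fun j => at' C ((ev F)^[n + j] t)) π N (π a) c' ≠ 0 :=
        chain_neC _ hdeg' π N (π a) c' hc'.ne_zero
      obtain ⟨l, hl⟩ := prop98 hz'.ne_zero hcz
      have hInY : ∀ u ∈ Y a, nv u 0 * ev (form (at' C ((ev F)^[n + N] t)) a) z' 1 =
          nv u 1 * ev (form (at' C ((ev F)^[n + N] t)) a) z' 0 →
          InP (Y a : Set (Fin 2 → ℂ)) (ev (form (at' C ((ev F)^[n + N] t)) a)
            (chain (fun j => at' C ((ev F)^[n + j] t)) π N (π a) c')) := by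
        intro u hu h1
        refine ⟨u, hu, ?_⟩
        have h2 := prop_trans (nv_ne u) (show ev (form (at' C ((ev F)^[n + N] t)) a) z' 0 * nv u 1 =
          nv u 0 * ev (form (at' C ((ev F)^[n + N] t)) a) z' 1 by rw [h1, mul_comm])
          (show nv u 0 * u 1 = u 0 * nv u 1 from (nv_prop u).symm)
        rw [hl, form_smul98]
        show l ^ d a * ev (form (at' C ((ev F)^[n + N] t)) a) z' 0 * u 1 =
          u 0 * (l ^ d a * ev (form (at' C ((ev F)^[n + N] t)) a) z' 1)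
        linear_combination l ^ d a * h2
      have hBad : Bad F C π t Y N n a c' := by
        refine ⟨?_, ?_⟩
        · rintro ⟨u, hu, hwu⟩
          have h1 := prop_trans hw0 (show z' 0 * chain (fun j => at' C ((ev F)^[n + j] t)) π N (π a) c' 1 =
            chain (fun j => at' C ((ev F)^[n + j] t)) π N (π a) c' 0 * z' 1 by rw [hcz, mul_comm]) hwu
          have h2 := prop_trans (hY0 _ u hu) h1 (nv_prop u)
          have h3 := rd_prop τ hz'.1 (hnv _ u hu).1 h2
          have hζ : (fun i => rd τ (z' i)) ≠ 0 := by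
            obtain ⟨-, ⟨i, hi⟩, -⟩ := hz'
            intro h0
            exact Pool.Agent.Helper11.OB.rd_ne_zero τ hi (congrFun h0 i)
          have h4 := hz'.2.2
          refine hyY ⟨_, ⟨u, hu, rfl⟩, ?_⟩
          exact prop_trans (y := fun i => rd τ (z' i)) (z := fun i => rd τ (nv u i)) hζ
            (show _ * rd τ (z' 1) = rd τ (z' 0) * _ by rw [h4, mul_comm]) h3
        · rcases hbz with ⟨h1, -⟩ | ⟨u, hu, h1⟩
          · left
            rw [hl, Pool.Agent.Helper10.OS.wrh_smul', h1, mul_zero]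
          · exact Or.inr (hInY u hu h1)
      have hcS : c' 0 / c' 1 ∈ Z := hSZ _ (hS.mem_toFinset.2 ⟨n, a, b, c', hab, hEb, hc'.ne_zero, hBad, rfl⟩)
      have holx : ol σ' x = ol σ c' := by
        by_cases hc1 : c' 1 = 0
        · unfold ol
          rw [(Lft_pr hx0 hc').1 hc1, pr_inf c' hc1, per_none, per_none]
        · have h3 : pr c' = some (c' 0 / c' 1) := by
            unfold pr
            rw [if_neg hc1]
          unfold ol
          rw [(Lft_pr hx0 hc').2 hc1 (hUn _ hcS).1, h3]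
          exact per_eq τ σ σ' _ (hper _ hcS)
      rw [hola b hb, holx] at heq
      obtain ⟨hn1, hyU, hn2⟩ := h a b hab hEb n c' hc'.ne_zero hBad e hesm heq
      have hyS := hUZ _ hyU (hpair n a c' hc'.ne_zero hBad).2
      rcases hbz with ⟨-, hol⟩ | ⟨u, hu, h1⟩
      · apply hn2
        have hprz : pr z' = pr (chain (fun j => at' C ((ev F)^[n + j] t)) π N (π a) c') :=
          pr_prop hz'.ne_zero hw0 (by rw [hcz, mul_comm])
        have holy : ol σ' (chain (fun j q => rd τ (at' C ((ev F)^[n + j] t) q)) π N (π a) x) =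
            ol σ (chain (fun j => at' C ((ev F)^[n + j] t)) π N (π a) c') := by
          by_cases hz1 : z' 1 = 0
          · unfold ol
            rw [(Lft_pr hy0 hz').1 hz1, ← hprz, pr_inf z' hz1, per_none, per_none]
          · have h3 : pr z' = some (z' 0 / z' 1) := by
              unfold pr
              rw [if_neg hz1]
            have h5 : z' 0 / z' 1 ∈ Z := by
              have h6 : z' 0 / z' 1 = chain (fun j => at' C ((ev F)^[n + j] t)) π N (π a) c' 0 /
                  chain (fun j => at' C ((ev F)^[n + j] t)) π N (π a) c' 1 := by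
                have h7 : chain (fun j => at' C ((ev F)^[n + j] t)) π N (π a) c' 1 ≠ 0 := by
                  intro h8
                  have h9 := pr_inf _ h8
                  rw [← hprz, h3] at h9
                  exact absurd h9 (by simp)
                rw [div_eq_div_iff hz1 h7, hcz, mul_comm]
              rw [h6]
              exact hyS
            unfold ol
            rw [(Lft_pr hy0 hz').2 hz1 (hUn _ h5).1, ← hprz, h3]
            exact per_eq τ σ σ' _ (hper _ h5)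
        rw [← holy, ← holx]
        exact hol.symm
      · exact hn1 (hInY u hu h1)
  refine coreR hd F C π t α hα p hp3 hpD τ σ' hσ'p (fun i s => hmemS _ (hTF i s)) (fun q s => hmemS _ (hTC q s))
    (fun i => hmemS _ (Or.inl (hTt i))) hg F' T₁ N₁ hT1 hperF hF' hev hJ N E Yb ?_ ?_ (fun a b hab hEb n x hx0 hy hin => key a b hab hEb n x hx0 hy (Or.inr hin))
    (fun a b hab hEb n x hx0 hy hw hol => key a b hab hEb n x hx0 hy (Or.inl ⟨hw, hol⟩)) V hV
  · -- exempt coordinates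
    intro a b hab hEb n x hx0 hw e he hesm heq
    obtain ⟨h6, h7⟩ := Pool.Agent.Helper10.OS.crS p σ' (fun q => rd τ (at' C ((ev F)^[n] t) q))
      (fun q => ((mem_Sf τ σ').1 (hat n q)).2) a (hd a) (hpD a) (hg n a) x hx0 hw
    have h13 := hdD a
    by_cases hb : zz b ∈ A
    · rw [hola b hb] at heq
      rcases (hEdef b).1 hEb with h1 | ⟨l, hl, hld, hlb⟩
      · exact h1 (hAalg _ hb)
      · rw [heq] at hlb
        rcases hl.dvd_mul.1 hlb with h2 | h2
        · have h3 := hesm l hl h2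
          have h4 : Finset.univ.sup d < l := (Finset.sup_lt_iff hl.pos).2 fun a' _ => by
            have h5 := hld a'
            have h8 := hd a'
            have h9 := hl.two_le
            omega
          omega
        · have h3 := Nat.le_of_dvd h6 h2
          have h4 := hld a
          omega
    · have h1 := htra b hb x e he hesm h6 heq
      have h2 := Nat.le_of_dvd h6 h1
      omega
  · -- the first steps
    intro β hβα hβ1 hβ0 hrel hint hne n hn c hc hEc hin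
    obtain ⟨e, he, hesm, heq⟩ := hrel n c
    obtain ⟨hpos, hlt⟩ := holY' c _ (hne n c) hin
    by_cases hb : zz (π^[n] c) ∈ A
    swap
    · have h1 := htra _ hb _ e he hesm hpos heq
      exact absurd (Nat.le_of_dvd hpos h1) (not_le.2 hlt)
    obtain ⟨_, ⟨y, hy, rfl⟩, hxy⟩ := hin
    obtain ⟨l, hl, hαl⟩ := hβα (π^[n] c)
    have hp1 : nv (α (π^[n] c)) 0 * β (π^[n] c) 1 = nv (α (π^[n] c)) 1 * β (π^[n] c) 0 := by
      have h1 := nv_prop (α (π^[n] c))
      have h2 : α (π^[n] c) 0 = l * β (π^[n] c) 0 := congrFun hαl 0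
      have h3 : α (π^[n] c) 1 = l * β (π^[n] c) 1 := congrFun hαl 1
      refine mul_left_cancel₀ hl ?_
      linear_combination nv (α (π^[n] c)) 1 * h2 - nv (α (π^[n] c)) 0 * h3 - h1
    obtain ⟨u, hu⟩ := prop98 (nv_ne (α (π^[n] c))) hp1
    obtain ⟨hnα, i₀, hi₀⟩ := nv_int τ (hUn _ (hzzZ _ hb)).1
    have hu1 : ‖τ u‖ = 1 := by
      have hui : ∀ i, ‖τ (β (π^[n] c) i)‖ = ‖τ u‖ * ‖τ (nv (α (π^[n] c)) i)‖ := by
        intro i
        rw [congrFun hu i, map_mul, norm_mul]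
      refine le_antisymm ?_ ?_
      · have h1 := hβ1 (π^[n] c) i₀
        rw [hui, hi₀, mul_one] at h1
        exact h1
      · by_contra hcon
        push Not at hcon
        apply hβ0 (π^[n] c)
        funext i
        refine rd_eq_zero98 τ ?_
        rw [hui]
        calc ‖τ u‖ * ‖τ (nv (α (π^[n] c)) i)‖ ≤ ‖τ u‖ * 1 := mul_le_mul_of_nonneg_left (hnα i) (norm_nonneg _)
          _ < 1 := by rw [mul_one]; exact hcon
    obtain ⟨D₁, hD₁⟩ := sys_scale1 F C π t β α' u n c hu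
    have hp2 : nv (α (π^[n] c)) 0 * α (π^[n] c) 1 = nv (α (π^[n] c)) 1 * α (π^[n] c) 0 := by
      have h1 := nv_prop (α (π^[n] c))
      linear_combination -h1
    obtain ⟨l₂, hl₂⟩ := prop98 (nv_ne (α (π^[n] c))) hp2
    obtain ⟨D₂, hD₂⟩ := sys_scale1 F C π t α α' l₂ n c hl₂
    have hΔne : Δ n c y ≠ 0 := by
      intro h0
      apply hYa n hn c hc
      refine ⟨y, hy, ?_⟩
      have h1 : ((sysS F C π)^[n] (t, α')).2 c 0 * nv y 1 = nv y 0 * ((sysS F C π)^[n] (t, α')).2 c 1 :=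
        sub_eq_zero.1 h0
      have h2 := prop_trans (nv_ne y) h1 (show nv y 0 * y 1 = y 0 * nv y 1 from (nv_prop y).symm)
      rw [hD₂]
      show l₂ ^ D₂ * ((sysS F C π)^[n] (t, α')).2 c 0 * y 1 = y 0 * (l₂ ^ D₂ * ((sysS F C π)^[n] (t, α')).2 c 1)
      linear_combination l₂ ^ D₂ * h2
    have hΔA : Δ n c y ∈ A := by
      have h1 : ∀ i, α' (π^[n] c) i ∈ A := fun i => nv_mem A hb i
      exact A.sub_mem (A.mul_mem (sys_mem F C π t A hatA α' n c h1 0) (nv_mem A (hYA c y hy) 1))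
        (A.mul_mem (nv_mem A (hYA c y hy) 0) (sys_mem F C π t A hatA α' n c h1 1))
    have hΔ1 := (hUn _ (hΔZ n c y hn hy hΔA)).2 hΔne
    have h5 : ((sysS F C π)^[n] (t, β)).2 c 0 * nv y 1 - nv y 0 * ((sysS F C π)^[n] (t, β)).2 c 1 =
        u ^ D₁ * Δ n c y := by
      rw [hD₁]
      show u ^ D₁ * ((sysS F C π)^[n] (t, α')).2 c 0 * nv y 1 - nv y 0 * (u ^ D₁ * ((sysS F C π)^[n] (t, α')).2 c 1) =
        u ^ D₁ * (((sysS F C π)^[n] (t, α')).2 c 0 * nv y 1 - nv y 0 * ((sysS F C π)^[n] (t, α')).2 c 1)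
      ring
    have h6 : ‖τ (((sysS F C π)^[n] (t, β)).2 c 0 * nv y 1 - nv y 0 * ((sysS F C π)^[n] (t, β)).2 c 1)‖ = 1 := by
      rw [h5, map_mul, norm_mul, map_pow, norm_pow, hu1, one_pow, one_mul, hΔ1]
    refine Pool.Agent.Helper11.OB.rd_ne_zero τ h6 ?_
    have hm1 : ∀ z w : ℂ, ‖τ z‖ ≤ 1 → ‖τ w‖ ≤ 1 → ‖τ (z * w)‖ ≤ 1 := by
      intro z w hz hw
      rw [map_mul, norm_mul]
      exact mul_le_one₀ hz (norm_nonneg _) hw
    rw [Pool.Agent.Helper11.OB.rd_sub τ (hm1 _ _ (hint n c 0) ((hnv c y hy).1 1))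
      (hm1 _ _ ((hnv c y hy).1 0) (hint n c 1)), rd_mul98 τ (hint n c 0) ((hnv c y hy).1 1),
      rd_mul98 τ ((hnv c y hy).1 0) (hint n c 1)]
    exact sub_eq_zero.2 hxy

end

end Pool.Agent.Helper26.HI
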