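import Mathlib
import Pool.Agent.Helper26.OS.Fin5
import Pool.Agent.Helper26.OT.Form
import Pool.Agent.Helper26.HI.FinD
import Pool.Agent.Helper26.HI.FinR
import Pool.Agent.Helper26.HI.FormQ

/-!
# HI: the theorem in the form of the result file, with finite sets and exempt coordinates
-/

set_option autoImplicit false

namespace Pool.Agent.Helper26.HI

open MvPolynomial Pool.Agent.Helper61.TH Pool.Agent.Helper87.FK Pool.Agent.Helper26.OB Pool.Agent.Helper26.OS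
open Pool.Agent.Helper26.OT

noncomputable section

theorem formR {m k : ℕ} (K : Subfield ℂ) (B : Set (MvPolynomial (Fin m) ℂ)) (hB : ∀ g ∈ B, ∀ s, coeff s g ∈ K)
    (D : Set (MvPolynomial (Fin m) ℂ)) (hD : ∀ g ∈ D, ∀ s, coeff s g ∈ K)
    (F : Fin m → MvPolynomial (Fin m) ℂ) (hF : ∀ i s, coeff s (F i) ∈ K)
    (hFX : ∀ t : Fin m → ℂ, ((∀ g ∈ B, eval t g = 0) ∧ ∃ g ∈ D, eval t g ≠ 0) →
      (∀ g ∈ B, eval (ev F t) g = 0) ∧ ∃ g ∈ D, eval (ev F t) g ≠ 0)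
    (het : ∀ t : Fin m → ℂ, ((∀ g ∈ B, eval t g = 0) ∧ ∃ g ∈ D, eval t g ≠ 0) → ∀ v : Fin m → ℂ,
      (∀ i, ∑ j, eval t (pderiv j (F i)) * v j = 0) → (∀ g ∈ B, ∑ j, eval t (pderiv j g) * v j = 0) → v = 0)
    (d : Fin k → ℕ) (hd : ∀ a, 1 ≤ d a) (C : Idx d → MvPolynomial (Fin m) ℂ) (hC : ∀ q s, coeff s (C q) ∈ K)
    (hdeg : ∀ t : Fin m → ℂ, ((∀ g ∈ B, eval t g = 0) ∧ ∃ g ∈ D, eval t g ≠ 0) → HasDeg (OS.at' C t))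
    (π : Fin k → Fin k) (t : Fin m → ℂ) (ht : ∀ i, t i ∈ K)
    (htX : (∀ g ∈ B, eval t g = 0) ∧ ∃ g ∈ D, eval t g ≠ 0)
    (α : Fin k → Fin 2 → ℂ) (hα : ∀ b, α b ≠ 0)
    (h : (∃ l : ℕ, l.Prime ∧ ((∀ a, 2 * d a - 2 < l) ∨ Pol C ∧ ∀ a, d a < l) ∧ k ≤ l ∧
        ∀ b, (∃ a, Adm π a b ∧ 2 ≤ d a) → Transcendental K (α b 0 / α b 1) ∨
          l ∣ (minpoly K (α b 0 / α b 1)).natDegree) ∨
      ∃ (r : ℕ) (σ : ℂ ≃+* ℂ) (Y : Fin k → Finset (Fin 2 → ℂ)) (U : Finset ℂ), (∀ z ∈ K, σ z = z) ∧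
        (∀ a, ∀ y ∈ Y a, y ≠ 0 ∧ IsAlgebraic K (y 0 / y 1)) ∧
        (∀ n, n ≤ r → ∀ a, Adm π a a → ¬ ∃ y ∈ Y a, ((sysS F C π)^[n] (t, α)).2 a 0 * y 1 =
          y 0 * ((sysS F C π)^[n] (t, α)).2 a 1) ∧
        {z : ℂ | ∃ (n : ℕ) (a b : Fin k) (x : Fin 2 → ℂ), Adm π a b ∧
          ¬ (Transcendental K (α b 0 / α b 1) ∨ ∃ l : ℕ, l.Prime ∧ (∀ a, 2 * d a - 2 < l) ∧
            l ∣ sInf {n | 1 ≤ n ∧ σ^[n] (α b 0) * α b 1 = α b 0 * σ^[n] (α b 1)}) ∧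
          (x ≠ 0 ∧ (¬ ∃ y ∈ Y (π a), ((sysS F C π)^[r] ((ev F)^[n] t, fun _ => x)).2 (π a) 0 * y 1 =
            y 0 * ((sysS F C π)^[r] ((ev F)^[n] t, fun _ => x)).2 (π a) 1) ∧
            (wrh (OS.at' C ((ev F)^[n + r] t)) a (((sysS F C π)^[r] ((ev F)^[n] t, fun _ => x)).2 (π a)) = 0 ∨
              ∃ y ∈ Y a, fm C a ((ev F)^[n + r] t) (((sysS F C π)^[r] ((ev F)^[n] t, fun _ => x)).2 (π a)) 0 * y 1 =
                y 0 * fm C a ((ev F)^[n + r] t) (((sysS F C π)^[r] ((ev F)^[n] t, fun _ => x)).2 (π a)) 1)) ∧ z = x 0 / x 1}.Finite ∧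
        ∀ a b, Adm π a b → ¬ (Transcendental K (α b 0 / α b 1) ∨ ∃ l : ℕ, l.Prime ∧ (∀ a, 2 * d a - 2 < l) ∧
            l ∣ sInf {n | 1 ≤ n ∧ σ^[n] (α b 0) * α b 1 = α b 0 * σ^[n] (α b 1)}) → ∀ (n : ℕ) (x : Fin 2 → ℂ),
          (x ≠ 0 ∧ (¬ ∃ y ∈ Y (π a), ((sysS F C π)^[r] ((ev F)^[n] t, fun _ => x)).2 (π a) 0 * y 1 =
            y 0 * ((sysS F C π)^[r] ((ev F)^[n] t, fun _ => x)).2 (π a) 1) ∧
            (wrh (OS.at' C ((ev F)^[n + r] t)) a (((sysS F C π)^[r] ((ev F)^[n] t, fun _ => x)).2 (π a)) = 0 ∨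
              ∃ y ∈ Y a, fm C a ((ev F)^[n + r] t) (((sysS F C π)^[r] ((ev F)^[n] t, fun _ => x)).2 (π a)) 0 * y 1 =
                y 0 * fm C a ((ev F)^[n + r] t) (((sysS F C π)^[r] ((ev F)^[n] t, fun _ => x)).2 (π a)) 1)) →
        ∀ e, (∀ q : ℕ, q.Prime → q ∣ e → ∃ a', q ≤ d a') →
          sInf {n | 1 ≤ n ∧ σ^[n] (α b 0) * α b 1 = α b 0 * σ^[n] (α b 1)} =
            e * sInf {n | 1 ≤ n ∧ σ^[n] (x 0) * x 1 = x 0 * σ^[n] (x 1)} →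
          (¬ ∃ y ∈ Y a, fm C a ((ev F)^[n + r] t) (((sysS F C π)^[r] ((ev F)^[n] t, fun _ => x)).2 (π a)) 0 * y 1 =
            y 0 * fm C a ((ev F)^[n + r] t) (((sysS F C π)^[r] ((ev F)^[n] t, fun _ => x)).2 (π a)) 1) ∧
          ((sysS F C π)^[r] ((ev F)^[n] t, fun _ => x)).2 (π a) 0 /
            ((sysS F C π)^[r] ((ev F)^[n] t, fun _ => x)).2 (π a) 1 ∈ U ∧
          sInf {j | 1 ≤ j ∧ σ^[j] (((sysS F C π)^[r] ((ev F)^[n] t, fun _ => x)).2 (π a) 0) *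
            ((sysS F C π)^[r] ((ev F)^[n] t, fun _ => x)).2 (π a) 1 =
              ((sysS F C π)^[r] ((ev F)^[n] t, fun _ => x)).2 (π a) 0 *
                σ^[j] (((sysS F C π)^[r] ((ev F)^[n] t, fun _ => x)).2 (π a) 1)} ≠
            sInf {n | 1 ≤ n ∧ σ^[n] (x 0) * x 1 = x 0 * σ^[n] (x 1)})
    (V : Set (MvPolynomial (Fin m ⊕ Fin k × Fin 2) ℂ))
    (hV : ∀ G ∈ V, ∃ g : Fin k → ℕ, ∀ s ∈ G.support, ∀ b, ∑ i, s (Sum.inr (b, i)) = g b) : ∃ S : Finset (ℕ × ℕ),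
      {n : ℕ | ∀ G ∈ V, eval (Sum.elim ((sysS F C π)^[n] (t, α)).1 fun q =>
        ((sysS F C π)^[n] (t, α)).2 q.1 q.2) G = 0} = {n | ∃ q ∈ S, ∃ j, n = q.1 + q.2 * j} := by
  classical
  have hun : ∀ t : Fin m → ℂ, (∀ g ∈ B, eval t g = 0) → (∃ g ∈ D, eval t g ≠ 0) →
      ¬ Pool.Agent.Helper10.V3.Ram B F t := by
    rintro t ht ht' ⟨v, hv, h1, h2⟩
    exact hv (het t ⟨ht, ht'⟩ v h1 h2)
  rcases h with ⟨l, hl, hld, hk, h⟩ | ⟨r, σ, Y, U, hσ, hY, hYa, hS, h⟩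
  · exact finD K B hB D hD F hF (fun t h1 h2 => hFX t ⟨h1, h2⟩) hun d hd C hC (fun t h1 h2 => hdeg t ⟨h1, h2⟩) π t ht
      htX.1 htX.2 α hα l hl hld hk h V hV
  · simp only [sys_chain, fm_eq] at hS h
    let E : Fin k → Prop := fun b => Transcendental K (α b 0 / α b 1) ∨ ∃ l : ℕ, l.Prime ∧ (∀ a, 2 * d a - 2 < l) ∧
      l ∣ sInf {n | 1 ≤ n ∧ σ^[n] (α b 0) * α b 1 = α b 0 * σ^[n] (α b 1)}
    have hE : ∀ b, E b ↔ Transcendental K (α b 0 / α b 1) ∨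
        ∃ l : ℕ, l.Prime ∧ (∀ a, 2 * d a - 2 < l) ∧ l ∣ ol (σ : ℂ →+* ℂ) (α b) := by
      intro b
      rw [Pool.Agent.Helper38.OB.ol_eq']
    refine finR K B hB D hD F hF (fun t h1 h2 => hFX t ⟨h1, h2⟩) hun d hd C hC (fun t h1 h2 => hdeg t ⟨h1, h2⟩) π t ht
      htX.1 htX.2 α hα σ hσ r E hE Y (fun c y hy => (hY c y hy).1) (fun c y hy => (hY c y hy).2) hYa
      (hS.subset ?_) U ?_ V hV
    · rintro z ⟨n, a, b, x, hab, hb, hx0, hbad, rfl⟩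
      exact ⟨n, a, b, x, hab, hb, ⟨hx0, hbad⟩, rfl⟩
    · intro a b hab hb n x hx0 hbad e he heq
      have h0 : ∀ q : ℕ, q.Prime → q ∣ e → ∃ a', q ≤ d a' := by
        intro q hq hqe
        have h1 := he q hq hqe
        have h2 : (Finset.univ : Finset (Fin k)).Nonempty := ⟨a, Finset.mem_univ _⟩
        obtain ⟨a', -, ha'⟩ := Finset.exists_mem_eq_sup _ h2 d
        exact ⟨a', ha' ▸ h1⟩
      obtain ⟨h1, hU, h2⟩ := h a b hab hb n x ⟨hx0, hbad⟩ e h0 (by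
        rw [← Pool.Agent.Helper38.OB.ol_eq', ← Pool.Agent.Helper38.OB.ol_eq']
        exact heq)
      refine ⟨h1, hU, ?_⟩
      rw [Pool.Agent.Helper38.OB.ol_eq', Pool.Agent.Helper38.OB.ol_eq']
      exact h2

end

end Pool.Agent.Helper26.HI
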