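import Mathlib
import Pool.Agent.Helper26.OT.FinC
import Pool.Agent.Helper26.HI.FormR

/-!
# HI: the case of products of projective lines (no base)
-/

set_option autoImplicit false

namespace Pool.Agent.Helper26.HI

open MvPolynomial Pool.Agent.Helper61.TH Pool.Agent.Helper87.FK Pool.Agent.Helper26.OB Pool.Agent.Helper26.OS
open Pool.Agent.Helper26.OT Pool.Agent.Helper98.OT

noncomputable section

theorem fin_form {d : ℕ} (g : Fin (d + 1) → ℂ) (j₀ : Fin (d + 1)) (hj : g j₀ ≠ 0) :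
    {z : ℂ | ∃ x : Fin 2 → ℂ, z = x 0 / x 1 ∧ ∑ j : Fin (d + 1), g j * x 0 ^ (j : ℕ) * x 1 ^ (d - j) = 0}.Finite := by
  classical
  let Q : Polynomial ℂ := ∑ j : Fin (d + 1), Polynomial.C (g j) * Polynomial.X ^ (j : ℕ)
  have hQc : Q.coeff j₀ = g j₀ := by
    rw [Polynomial.finsetSum_coeff, Finset.sum_eq_single j₀]
    · rw [Polynomial.coeff_C_mul, Polynomial.coeff_X_pow, if_pos rfl, mul_one]
    · intro j _ hj
      rw [Polynomial.coeff_C_mul, Polynomial.coeff_X_pow, if_neg, mul_zero]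
      intro h
      exact hj (Fin.ext h.symm)
    · intro h
      exact absurd (Finset.mem_univ _) h
  have hQ : Q ≠ 0 := by
    intro h0
    rw [h0, Polynomial.coeff_zero] at hQc
    exact hj hQc.symm
  refine ((Set.finite_singleton (0 : ℂ)).union (Polynomial.finite_setOfPred_isRoot hQ)).subset ?_
  rintro z ⟨x, rfl, hx⟩
  by_cases hx1 : x 1 = 0
  · left
    rw [hx1, div_zero]
    rfl
  · right
    change Polynomial.IsRoot Q _
    rw [Polynomial.IsRoot.def]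
    have h1 : Q.eval (x 0 / x 1) = ∑ j : Fin (d + 1), g j * (x 0 / x 1) ^ (j : ℕ) := by
      rw [Polynomial.eval_finsetSum]
      refine Finset.sum_congr rfl fun j _ => ?_
      rw [Polynomial.eval_mul, Polynomial.eval_C, Polynomial.eval_pow, Polynomial.eval_X]
    have h2 : x 1 ^ d * Q.eval (x 0 / x 1) = 0 := by
      rw [← hx, h1, Finset.mul_sum]
      refine Finset.sum_congr rfl fun j _ => ?_
      have h3 : x 1 ^ d = x 1 ^ (j : ℕ) * x 1 ^ (d - j) := by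
        rw [← pow_add]
        congr 1
        have := j.2
        omega
      rw [h3, div_pow]
      field_simp
    exact (mul_eq_zero.1 h2).resolve_left (pow_ne_zero _ hx1)

theorem fin_crit {k : ℕ} {d : Fin k → ℕ} (c : Idx d → ℂ) (hdeg : HasDeg c) (a : Fin k) (hd : 1 ≤ d a) :
    {z : ℂ | ∃ x : Fin 2 → ℂ, z = x 0 / x 1 ∧ wrh c a x = 0}.Finite := by
  classical
  have hW := Pool.Agent.Helper10.OB.wp_ne_zero c hdeg a hd
  refine ((Set.finite_singleton (0 : ℂ)).union (Polynomial.finite_setOfPred_isRoot hW)).subset ?_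
  rintro z ⟨x, rfl, hw⟩
  by_cases hx1 : x 1 = 0
  · left
    rw [hx1, div_zero]
    rfl
  · right
    have h3 := Pool.Agent.Helper10.OB.eval_wp c a (fun i => (x 1)⁻¹ * x i) (inv_mul_cancel₀ hx1)
    rw [Pool.Agent.Helper10.OB.wrh_smul, hw, mul_zero] at h3
    change Polynomial.IsRoot _ _
    rw [Polynomial.IsRoot.def, div_eq_inv_mul]
    exact h3

theorem fin_step {k : ℕ} {d : Fin k → ℕ} (c : Idx d → ℂ) (hdeg : HasDeg c) (b : Fin k) (hd : 1 ≤ d b) (S : Set ℂ)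
    (hS : S.Finite) : {z : ℂ | ∃ x : Fin 2 → ℂ, z = x 0 / x 1 ∧ ev (form c b) x 0 / ev (form c b) x 1 ∈ S}.Finite := by
  classical
  obtain ⟨j₁, hj₁⟩ := comb_ne c hdeg b hd 0 1 (fun h => one_ne_zero h.2)
  have h1 := fin_form (fun j => 0 * c ⟨b, (0, j)⟩ + 1 * c ⟨b, (1, j)⟩) j₁ hj₁
  have h2 : ∀ s : ℂ, {z : ℂ | ∃ x : Fin 2 → ℂ, z = x 0 / x 1 ∧ ∑ j : Fin (d b + 1),
      (1 * c ⟨b, (0, j)⟩ + (-s) * c ⟨b, (1, j)⟩) * x 0 ^ (j : ℕ) * x 1 ^ (d b - j) = 0}.Finite := by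
    intro s
    obtain ⟨j₂, hj₂⟩ := comb_ne c hdeg b hd 1 (-s) (fun h => one_ne_zero h.1)
    exact fin_form (fun j => 1 * c ⟨b, (0, j)⟩ + (-s) * c ⟨b, (1, j)⟩) j₂ hj₂
  have key : ∀ (u v : ℂ) (x : Fin 2 → ℂ), ∑ j : Fin (d b + 1), (u * c ⟨b, (0, j)⟩ + v * c ⟨b, (1, j)⟩) * x 0 ^ (j : ℕ) *
      x 1 ^ (d b - j) = u * ev (form c b) x 0 + v * ev (form c b) x 1 := by
    intro u v x
    rw [Pool.Agent.Helper10.OS.ev_form, Pool.Agent.Helper10.OS.ev_form, Finset.mul_sum, Finset.mul_sum,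
      ← Finset.sum_add_distrib]
    refine Finset.sum_congr rfl fun j _ => ?_
    ring
  refine (h1.union (hS.biUnion fun s _ => h2 s)).subset ?_
  rintro z ⟨x, rfl, hx⟩
  by_cases hw1 : ev (form c b) x 1 = 0
  · left
    refine ⟨x, rfl, ?_⟩
    rw [key, hw1]
    ring
  · right
    refine Set.mem_biUnion hx ⟨x, rfl, ?_⟩
    rw [key]
    field_simp
    ring

theorem fin_chain {k : ℕ} {d : Fin k → ℕ} (c : Idx d → ℂ) (hdeg : HasDeg c) (hd : ∀ a, 1 ≤ d a) (π : Fin k → Fin k)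
    (N : ℕ) (b : Fin k) (S : Set ℂ) (hS : S.Finite) : {z : ℂ | ∃ x : Fin 2 → ℂ, z = x 0 / x 1 ∧
      chain (fun _ => c) π N b x 0 / chain (fun _ => c) π N b x 1 ∈ S}.Finite := by
  induction N generalizing b S with
  | zero =>
    refine hS.subset ?_
    rintro z ⟨x, rfl, hx⟩
    exact hx
  | succ N ih =>
    refine (ih (π b) _ (fin_step c hdeg b (hd b) S hS)).subset ?_
    rintro z ⟨x, rfl, hx⟩
    exact ⟨x, rfl, chain (fun _ => c) π N (π b) x, rfl, hx⟩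

theorem at_const {k : ℕ} {d : Fin k → ℕ} (c : Idx d → ℂ) (t : Fin 0 → ℂ) :
    at' (fun q => (MvPolynomial.C (c q) : MvPolynomial (Fin 0) ℂ)) t = c := by
  funext q
  exact eval_C _

/-- no base -/
theorem formM {k : ℕ} (K : Subfield ℂ) (d : Fin k → ℕ) (hd : ∀ a, 1 ≤ d a) (c : Idx d → ℂ) (hc : ∀ q, c q ∈ K)
    (hdeg : HasDeg c) (π : Fin k → Fin k) (α : Fin k → Fin 2 → ℂ) (hα : ∀ b, α b ≠ 0)
    (h : (∃ l : ℕ, l.Prime ∧ (∀ a, 2 * d a - 2 < l) ∧ k ≤ l ∧
        ∀ b, (∃ a, Adm π a b ∧ 2 ≤ d a) → Transcendental K (α b 0 / α b 1) ∨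
          l ∣ (minpoly K (α b 0 / α b 1)).natDegree) ∨
      ∃ (E : Finset (Fin 2 → ℂ)) (σ : ℂ ≃+* ℂ) (r : ℕ), (∀ y ∈ E, y ≠ 0 ∧ IsAlgebraic K (y 0 / y 1)) ∧
        (∀ (a : Fin k) (x : Fin 2 → ℂ), InP (E : Set (Fin 2 → ℂ)) (ev (form c a) x) → InP (E : Set (Fin 2 → ℂ)) x) ∧
        (∀ b, ¬ InP (E : Set (Fin 2 → ℂ)) (α b)) ∧ (∀ z ∈ K, σ z = z) ∧
        ∀ a b, Adm π a b → IsAlgebraic K (α b 0 / α b 1) → ∀ x : Fin 2 → ℂ, x ≠ 0 →
          (chain (fun _ => c) π r (π a) x ≠ 0 ∧ wrh c a (chain (fun _ => c) π r (π a) x) = 0) →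
          ¬ InP (E : Set (Fin 2 → ℂ)) (chain (fun _ => c) π r (π a) x) →
          ol (σ : ℂ →+* ℂ) (chain (fun _ => c) π r (π a) x) ≠ ol (σ : ℂ →+* ℂ) x ∨
          ∀ e : ℕ, (∀ q : ℕ, q.Prime → q ∣ e → ∃ a', q ≤ d a') →
            ol (σ : ℂ →+* ℂ) (α b) ≠ e * ol (σ : ℂ →+* ℂ) x)
    (V : Set (MvPolynomial (Fin k × Fin 2) ℂ))
    (hV : ∀ G ∈ V, ∃ g : Fin k → ℕ, ∀ s ∈ G.support, ∀ b, ∑ i, s (b, i) = g b) : ∃ S : Finset (ℕ × ℕ),
      {n : ℕ | ∀ G ∈ V, eval (fun q => (fun (x : Fin k → Fin 2 → ℂ) (a : Fin k) => ev (form c a) (x (π a)))^[n] α q.1 q.2)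
        G = 0} = {n | ∃ q ∈ S, ∃ j, n = q.1 + q.2 * j} := by
  classical
  let C : Idx d → MvPolynomial (Fin 0) ℂ := fun q => MvPolynomial.C (c q)
  let F : Fin 0 → MvPolynomial (Fin 0) ℂ := fun i => i.elim0
  let t : Fin 0 → ℂ := fun i => i.elim0
  have hat : ∀ t : Fin 0 → ℂ, at' C t = c := at_const c
  have hsys : ∀ (n : ℕ) (x : Fin k → Fin 2 → ℂ), ((sysS F C π)^[n] (t, x)).2 =
      (fun (x : Fin k → Fin 2 → ℂ) (a : Fin k) => ev (form c a) (x (π a)))^[n] x := by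
    intro n x
    induction n with
    | zero => rfl
    | succ n ih =>
      rw [Function.iterate_succ_apply', Function.iterate_succ_apply', ← ih]
      funext a
      change ev (form (at' C ((sysS F C π)^[n] (t, x)).1) a) (((sysS F C π)^[n] (t, x)).2 (π a)) = _
      rw [hat]
  obtain ⟨S, hS⟩ := formR K ∅ (fun g hg => absurd hg (Set.notMem_empty g)) {1} (by
      intro g hg s
      rw [Set.mem_singleton_iff.1 hg, coeff_one]
      split_ifs
      · exact K.one_mem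
      · exact K.zero_mem) F (fun i => i.elim0)
    (fun t _ => ⟨fun g hg => absurd hg (Set.notMem_empty g), 1, rfl, by simp⟩)
    (fun t _ v _ _ => funext fun i => i.elim0) d hd C (by
      intro q s
      change coeff s (MvPolynomial.C (c q)) ∈ K
      rw [coeff_C]
      split_ifs
      · exact hc q
      · exact K.zero_mem) (fun t _ => by
        rw [hat]
        exact hdeg) π t (fun i => i.elim0)
    ⟨fun g hg => absurd hg (Set.notMem_empty g), 1, rfl, by simp⟩ α hα (by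
      rcases h with ⟨l, hl, hld, hk, h⟩ | ⟨E, σ, r, hE, hback, hαE, hσ, h⟩
      · exact Or.inl ⟨l, hl, Or.inl hld, hk, h⟩
      · right
        have hmoved : ∀ (n : ℕ) (a : Fin k) (x : Fin 2 → ℂ), ((sysS F C π)^[r] ((ev F)^[n] t, fun _ => x)).2 (π a) =
            chain (fun _ => c) π r (π a) x := by
          intro n a x
          rw [sys_chain]
          have h1 : (fun j => at' C ((ev F)^[n + j] t)) = fun _ => c := funext fun j => hat _
          rw [h1]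
        let U₀ : Set ℂ := ⋃ a : Fin k, {z : ℂ | ∃ x : Fin 2 → ℂ, z = x 0 / x 1 ∧ wrh c a x = 0}
        have hU₀ : U₀.Finite := Set.finite_iUnion fun a => fin_crit c hdeg a (hd a)
        refine ⟨r, σ, fun _ => E, hU₀.toFinset, hσ, fun _ => hE, ?_, ?_, ?_⟩
        · intro n _ a _
          rw [hsys]
          clear hmoved
          suffices h1 : ∀ n a, ¬ InP (E : Set (Fin 2 → ℂ))
              ((fun (x : Fin k → Fin 2 → ℂ) (a : Fin k) => ev (form c a) (x (π a)))^[n] α a) from h1 n a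
          intro n
          induction n with
          | zero => exact hαE
          | succ n ih =>
            intro a h1
            rw [Function.iterate_succ_apply'] at h1
            exact ih (π a) (hback a _ h1)
        · refine (Set.finite_iUnion fun a : Fin k => fin_chain c hdeg hd π r (π a) U₀ hU₀).subset ?_
          rintro z ⟨n, a, b, x, -, -, ⟨hx0, hnot, hor⟩, rfl⟩
          refine Set.mem_iUnion.2 ⟨a, x, rfl, Set.mem_iUnion.2 ⟨a, _, rfl, ?_⟩⟩
          rw [hmoved] at hnot hor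
          rcases hor with h1 | h1
          · have h2 : OS.at' C ((ev F)^[n + r] t) = c := hat _
            rw [h2] at h1
            exact h1
          · rw [fm_eq] at h1
            have h2 : OS.at' C ((ev F)^[n + r] t) = c := hat _
            rw [h2] at h1
            exact absurd (hback a _ h1) hnot
        · intro a b hab hb n x ⟨hx0, hnot, hor⟩ e he heq
          rw [hmoved] at hnot hor ⊢
          rw [fm_eq] at hor ⊢
          have h2 : OS.at' C ((ev F)^[n + r] t) = c := hat _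
          rw [h2] at hor ⊢
          have hnin : ¬ InP (E : Set (Fin 2 → ℂ)) (ev (form c a) (chain (fun _ => c) π r (π a) x)) :=
            fun h1 => hnot (hback a _ h1)
          have hw : wrh c a (chain (fun _ => c) π r (π a) x) = 0 := by
            rcases hor with h1 | h1
            · exact h1
            · exact absurd h1 hnin
          refine ⟨hnin, hU₀.mem_toFinset.2 (Set.mem_iUnion.2 ⟨a, _, rfl, hw⟩), ?_⟩
          have halg : IsAlgebraic K (α b 0 / α b 1) := by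
            by_contra h1
            exact hb (Or.inl h1)
          rw [← Pool.Agent.Helper38.OB.ol_eq', ← Pool.Agent.Helper38.OB.ol_eq'] at heq
          rw [← Pool.Agent.Helper38.OB.ol_eq', ← Pool.Agent.Helper38.OB.ol_eq']
          rcases h a b hab halg x hx0 ⟨chain_neC _ (fun _ => hdeg) π r (π a) x hx0, hw⟩ hnot with h1 | h1
          · exact h1
          · exact absurd heq (h1 e he))
    ((rename Sum.inr) '' V) (by
      rintro _ ⟨G, hG, rfl⟩
      obtain ⟨g, hg⟩ := hV G hG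
      refine ⟨g, fun s hs b => ?_⟩
      rw [support_rename_of_injective Sum.inr_injective] at hs
      obtain ⟨s', hs', rfl⟩ := Finset.mem_image.1 hs
      rw [← hg s' hs' b]
      refine Finset.sum_congr rfl fun i _ => ?_
      exact Finsupp.mapDomain_apply Sum.inr_injective _ _)
  refine ⟨S, ?_⟩
  rw [← hS]
  ext n
  simp only [Set.mem_ofPred_eq, Set.forall_mem_image]
  refine forall₂_congr fun G _ => ?_
  rw [eval_rename]
  have h1 : (Sum.elim ((sysS F C π)^[n] (t, α)).1 fun q => ((sysS F C π)^[n] (t, α)).2 q.1 q.2) ∘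
      (Sum.inr : Fin k × Fin 2 → Fin 0 ⊕ Fin k × Fin 2) =
      fun q => (fun (x : Fin k → Fin 2 → ℂ) (a : Fin k) => ev (form c a) (x (π a)))^[n] α q.1 q.2 := by
    funext q
    change ((sysS F C π)^[n] (t, α)).2 q.1 q.2 = _
    rw [hsys]
  rw [h1]

theorem it_chain {k : ℕ} {d : Fin k → ℕ} (c : Idx d → ℂ) (π : Fin k → Fin k) (r : ℕ) (b : Fin k) (x : Fin 2 → ℂ) :
    (fun (x : Fin k → Fin 2 → ℂ) (a : Fin k) => ev (form c a) (x (π a)))^[r] (fun _ => x) b =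
      chain (fun _ => c) π r b x := by
  induction r generalizing b with
  | zero => rfl
  | succ r ih =>
    rw [Function.iterate_succ_apply']
    change ev (form c b) _ = ev (form c b) _
    rw [ih]

/-- the values of the rational functions -/
def rm {k : ℕ} {d : Fin k → ℕ} (c : Idx d → ℂ) (a : Fin k) (x : Fin 2 → ℂ) : Fin 2 → ℂ :=
  fun i => ∑ j : Fin (d a + 1), c ⟨a, (i, j)⟩ * x 0 ^ (j : ℕ) * x 1 ^ (d a - j)

theorem rm_eq {k : ℕ} {d : Fin k → ℕ} (c : Idx d → ℂ) (a : Fin k) (x : Fin 2 → ℂ) : rm c a x = ev (form c a) x := by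
  funext i
  rw [Pool.Agent.Helper10.OS.ev_form]
  rfl

/-- the endomorphism -/
def en {k : ℕ} {d : Fin k → ℕ} (c : Idx d → ℂ) (π : Fin k → Fin k) (x : Fin k → Fin 2 → ℂ) : Fin k → Fin 2 → ℂ :=
  fun a => rm c a (x (π a))

theorem en_eq {k : ℕ} {d : Fin k → ℕ} (c : Idx d → ℂ) (π : Fin k → Fin k) :
    en c π = fun (x : Fin k → Fin 2 → ℂ) (a : Fin k) => ev (form c a) (x (π a)) := by
  funext x a
  exact rm_eq c a _

theorem formM' {k : ℕ} (K : Subfield ℂ) (d : Fin k → ℕ) (hd : ∀ a, 1 ≤ d a) (c : Idx d → ℂ) (hc : ∀ q, c q ∈ K)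
    (hdeg : HasDeg c) (π : Fin k → Fin k) (α : Fin k → Fin 2 → ℂ) (hα : ∀ b, α b ≠ 0)
    (h : (∃ l : ℕ, l.Prime ∧ (∀ a, 2 * d a - 2 < l) ∧ k ≤ l ∧
        ∀ b, (∃ a, Adm π a b ∧ 2 ≤ d a) → Transcendental K (α b 0 / α b 1) ∨
          l ∣ (minpoly K (α b 0 / α b 1)).natDegree) ∨
      ∃ (E : Finset (Fin 2 → ℂ)) (σ : ℂ ≃+* ℂ) (r : ℕ), (∀ y ∈ E, y ≠ 0 ∧ IsAlgebraic K (y 0 / y 1)) ∧
        (∀ (a : Fin k) (x : Fin 2 → ℂ), (∃ y ∈ E, rm c a x 0 * y 1 = y 0 * rm c a x 1) →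
          ∃ y ∈ E, x 0 * y 1 = y 0 * x 1) ∧
        (∀ b, ¬ ∃ y ∈ E, α b 0 * y 1 = y 0 * α b 1) ∧ (∀ z ∈ K, σ z = z) ∧
        ∀ a b, Adm π a b → IsAlgebraic K (α b 0 / α b 1) → ∀ x : Fin 2 → ℂ, x ≠ 0 →
          ((en c π)^[r] (fun _ => x) (π a) ≠ 0 ∧ wrh c a ((en c π)^[r] (fun _ => x) (π a)) = 0) →
          (¬ ∃ y ∈ E, (en c π)^[r] (fun _ => x) (π a) 0 * y 1 = y 0 * (en c π)^[r] (fun _ => x) (π a) 1) →
          sInf {n | 1 ≤ n ∧ σ^[n] ((en c π)^[r] (fun _ => x) (π a) 0) * (en c π)^[r] (fun _ => x) (π a) 1 =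
            (en c π)^[r] (fun _ => x) (π a) 0 * σ^[n] ((en c π)^[r] (fun _ => x) (π a) 1)} ≠
            sInf {n | 1 ≤ n ∧ σ^[n] (x 0) * x 1 = x 0 * σ^[n] (x 1)} ∨
          ∀ e : ℕ, (∀ q : ℕ, q.Prime → q ∣ e → ∃ a', q ≤ d a') →
            sInf {n | 1 ≤ n ∧ σ^[n] (α b 0) * α b 1 = α b 0 * σ^[n] (α b 1)} ≠
              e * sInf {n | 1 ≤ n ∧ σ^[n] (x 0) * x 1 = x 0 * σ^[n] (x 1)})
    (V : Set (MvPolynomial (Fin k × Fin 2) ℂ))
    (hV : ∀ G ∈ V, ∃ g : Fin k → ℕ, ∀ s ∈ G.support, ∀ b, ∑ i, s (b, i) = g b) : ∃ S : Finset (ℕ × ℕ),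
      {n : ℕ | ∀ G ∈ V, eval (fun q => (en c π)^[n] α q.1 q.2) G = 0} = {n | ∃ q ∈ S, ∃ j, n = q.1 + q.2 * j} := by
  rw [en_eq]
  refine formM K d hd c hc hdeg π α hα ?_ V hV
  rcases h with h | ⟨E, σ, r, hE, hback, hαE, hσ, h⟩
  · exact Or.inl h
  · refine Or.inr ⟨E, σ, r, hE, fun a x hx => hback a x ?_, hαE, hσ, fun a b hab halg x hx0 hcr hnot => ?_⟩
    · rw [rm_eq]
      exact hx
    · have h1 := h a b hab halg x hx0
      rw [en_eq, it_chain] at h1
      simp only [Pool.Agent.Helper38.OB.ol_eq']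
      exact h1 hcr hnot

end

end Pool.Agent.Helper26.HI
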