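import Mathlib
import Pool.Agent.Helper26.OS.Fin5
import Pool.Agent.Helper26.OT.Form
import Pool.Agent.Helper26.HI.FinD

/-!
# HI: the theorem in the form of the result file
-/

set_option autoImplicit false

namespace Pool.Agent.Helper26.HI

open MvPolynomial Pool.Agent.Helper61.TH Pool.Agent.Helper87.FK Pool.Agent.Helper26.OB Pool.Agent.Helper26.OS
open Pool.Agent.Helper26.OT

noncomputable section

theorem formP {m k : ℕ} (K : Subfield ℂ) (B : Set (MvPolynomial (Fin m) ℂ)) (hB : ∀ g ∈ B, ∀ s, coeff s g ∈ K)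
    (D : Set (MvPolynomial (Fin m) ℂ)) (hD : ∀ g ∈ D, ∀ s, coeff s g ∈ K)
    (F : Fin m → MvPolynomial (Fin m) ℂ) (hF : ∀ i s, coeff s (F i) ∈ K)
    (hFX : ∀ t : Fin m → ℂ, ((∀ g ∈ B, eval t g = 0) ∧ ∃ g ∈ D, eval t g ≠ 0) →
      (∀ g ∈ B, eval (ev F t) g = 0) ∧ ∃ g ∈ D, eval (ev F t) g ≠ 0)
    (het : ∀ t : Fin m → ℂ, ((∀ g ∈ B, eval t g = 0) ∧ ∃ g ∈ D, eval t g ≠ 0) → ∀ v : Fin m → ℂ,
      (∀ i, ∑ j, eval t (pderiv j (F i)) * v j = 0) → (∀ g ∈ B, ∑ j, eval t (pderiv j g) * v j = 0) → v = 0)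
    (d : Fin k → ℕ) (hd : ∀ a, 1 ≤ d a) (C : Idx d → MvPolynomial (Fin m) ℂ) (hC : ∀ q s, coeff s (C q) ∈ K)
    (hdeg : ∀ t : Fin m → ℂ, ((∀ g ∈ B, eval t g = 0) ∧ ∃ g ∈ D, eval t g ≠ 0) → HasDeg (OS.at' C t))
    (π : Fin k → Fin k) (t : Fin m → ℂ) (ht : ∀ i, t i ∈ K)
    (htX : (∀ g ∈ B, eval t g = 0) ∧ ∃ g ∈ D, eval t g ≠ 0)
    (α : Fin k → Fin 2 → ℂ) (hα : ∀ b, α b ≠ 0)
    (h : (∃ l : ℕ, l.Prime ∧ ((∀ a, 2 * d a - 2 < l) ∨ Pol C ∧ ∀ a, d a < l) ∧ k ≤ l ∧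
        ∀ b, (∃ a, Adm π a b ∧ 2 ≤ d a) → Transcendental K (α b 0 / α b 1) ∨
          l ∣ (minpoly K (α b 0 / α b 1)).natDegree) ∨
      ∃ (r : ℕ) (σ : ℂ ≃+* ℂ), (∀ z ∈ K, σ z = z) ∧
        {z : ℂ | ∃ (n : ℕ) (a : Fin k) (x : Fin 2 → ℂ), (x ≠ 0 ∧ wrh (OS.at' C ((ev F)^[n + r] t)) a
          (((sysS F C π)^[r] ((ev F)^[n] t, fun _ => x)).2 (π a)) = 0) ∧ z = x 0 / x 1}.Finite ∧
        ∀ a b, Adm π a b → IsAlgebraic K (α b 0 / α b 1) → ∀ (n : ℕ) (x : Fin 2 → ℂ),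
        (x ≠ 0 ∧ wrh (OS.at' C ((ev F)^[n + r] t)) a
          (((sysS F C π)^[r] ((ev F)^[n] t, fun _ => x)).2 (π a)) = 0) → (Pol C → α b 1 ≠ 0 → x 1 ≠ 0) →
        ∀ e, (∀ q : ℕ, q.Prime → q ∣ e → ∃ a', q ≤ d a') →
          sInf {n | 1 ≤ n ∧ σ^[n] (α b 0) * α b 1 = α b 0 * σ^[n] (α b 1)} ≠
            e * sInf {n | 1 ≤ n ∧ σ^[n] (x 0) * x 1 = x 0 * σ^[n] (x 1)})
    (V : Set (MvPolynomial (Fin m ⊕ Fin k × Fin 2) ℂ))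
    (hV : ∀ G ∈ V, ∃ g : Fin k → ℕ, ∀ s ∈ G.support, ∀ b, ∑ i, s (Sum.inr (b, i)) = g b) : ∃ S : Finset (ℕ × ℕ),
      {n : ℕ | ∀ G ∈ V, eval (Sum.elim ((sysS F C π)^[n] (t, α)).1 fun q =>
        ((sysS F C π)^[n] (t, α)).2 q.1 q.2) G = 0} = {n | ∃ q ∈ S, ∃ j, n = q.1 + q.2 * j} := by
  classical
  have hun : ∀ t : Fin m → ℂ, (∀ g ∈ B, eval t g = 0) → (∃ g ∈ D, eval t g ≠ 0) →
      ¬ Pool.Agent.Helper10.V3.Ram B F t := by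
    rintro t ht ht' ⟨v, hv, h1, h2⟩
    exact hv (het t ⟨ht, ht'⟩ v h1 h2)
  rcases h with ⟨l, hl, hld, hk, h⟩ | ⟨r, σ, hσ, hS, h⟩
  · exact finD K B hB D hD F hF (fun t h1 h2 => hFX t ⟨h1, h2⟩) hun d hd C hC (fun t h1 h2 => hdeg t ⟨h1, h2⟩) π t ht
      htX.1 htX.2 α hα l hl hld hk h V hV
  · simp only [sys_chain] at hS h
    have hS' : {z : ℂ | ∃ (n : ℕ) (a : Fin k) (x : Fin 2 → ℂ), x ≠ 0 ∧ wrh (OS.at' C ((ev F)^[n + r] t)) a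
        (chain (fun j => OS.at' C ((ev F)^[n + j] t)) π r (π a) x) = 0 ∧ z = x 0 / x 1}.Finite := by
      refine hS.subset ?_
      rintro z ⟨n, a, x, hx0, hw, rfl⟩
      exact ⟨n, a, x, ⟨hx0, hw⟩, rfl⟩
    refine finP K B hB D hD F hF (fun t h1 h2 => hFX t ⟨h1, h2⟩) hun d hd C hC (fun t h1 h2 => hdeg t ⟨h1, h2⟩) π t ht
      htX.1 htX.2 α hα σ hσ r hS' ?_ V hV
    intro a b hab halg n x hx0 hw hpl e he heq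
    refine h a b hab halg n x ⟨hx0, hw⟩ hpl e (fun q hq hqe => ?_) ?_
    · have h1 := he q hq hqe
      have h2 : (Finset.univ : Finset (Fin k)).Nonempty := ⟨a, Finset.mem_univ _⟩
      obtain ⟨a', -, ha'⟩ := Finset.exists_mem_eq_sup _ h2 d
      exact ⟨a', ha' ▸ h1⟩
    · rw [← Pool.Agent.Helper38.OB.ol_eq', ← Pool.Agent.Helper38.OB.ol_eq']
      exact heq

end

end Pool.Agent.Helper26.HI
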