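import Mathlib
import Pool.Agent.Helper26.HI.Defs

/-!
# HI: Hilbert irreducibility over `ℤ[t₁, ..., tᵣ]`. Statements of the blocks
-/

set_option autoImplicit false

namespace Pool.Agent.Helper26.HI

open MvPolynomial

noncomputable section

/-- **HC1**: a determinant of values of polynomials at points divisible by `p` -/
theorem det_dvd {r : ℕ} {J : Type} [Fintype J] [DecidableEq J] (p : ℤ) (w : ℕ)
    (hw : ∀ κ : J → (Fin r →₀ ℕ), Function.Injective κ → w ≤ ∑ j, ∑ k, κ j k)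
    (G : J → MvPolynomial (Fin r) ℤ) (u : J → Fin r → ℤ) :
    p ^ w ∣ (Matrix.of fun i j => eval (fun k => p * u i k) (G j)).det := sorry

/-- **HC2**: Hensel's lemma with parameters -/
theorem hensel_poly {r : ℕ} (P : Polynomial (MvPolynomial (Fin r) ℤ)) (p : ℕ) (hp : p.Prime) (t₀ : Fin r → ℤ)
    (x₀ : ℤ) (h1 : ¬ (p : ℤ) ∣ V P.derivative t₀ x₀) (w : ℕ) :
    ∃ g : MvPolynomial (Fin r) ℤ, ∀ (u : Fin r → ℤ) (x : ℤ), V P (fun k => t₀ k + p * u k) x = 0 →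
      (p : ℤ) ∣ x - x₀ → (p : ℤ) ^ w ∣ x - eval (fun k => p * u k) g := sorry

/-- **HC12**: the determinant of the monomials at points of one residue class -/
theorem class_dvd {r : ℕ} (P : Polynomial (MvPolynomial (Fin r) ℤ)) (p : ℕ) (hp : p.Prime) (t₀ : Fin r → ℤ)
    (x₀ : ℤ) (h1 : ¬ (p : ℤ) ∣ V P.derivative t₀ x₀) {J : Type} [Fintype J] [DecidableEq J]
    (a : J → Fin r → ℕ) (b : J → ℕ) (w : ℕ)
    (hw : ∀ κ : J → (Fin r →₀ ℕ), Function.Injective κ → w ≤ ∑ j, ∑ k, κ j k)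
    (t : J → Fin r → ℤ) (x : J → ℤ) (ht : ∀ i k, (p : ℤ) ∣ t i k - t₀ k) (hx : ∀ i, (p : ℤ) ∣ x i - x₀)
    (hP : ∀ i, V P (t i) (x i) = 0) :
    (p : ℤ) ^ w ∣ (Matrix.of fun i j => (∏ k, t i k ^ a j k) * x i ^ b j).det := sorry

/-- **HC3**: vanishing minors give a linear relation -/
theorem exists_rel {J Y : Type} [Fintype J] [DecidableEq J] (v : Y → J → ℤ)
    (h : ∀ y : J → Y, (Matrix.of fun i j => v (y i) j).det = 0) :
    ∃ q : J → ℤ, q ≠ 0 ∧ ∀ y, ∑ j, q j * v y j = 0 := sorry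

/-- **HC4**: elimination of `x`, with a uniform bound of the degree -/
theorem elim {r : ℕ} (P : Polynomial (MvPolynomial (Fin r) ℤ)) (hPm : P.Monic) (hirr : Irreducible P) (A : ℕ) :
    ∃ δ : ℕ, ∀ Q : Polynomial (MvPolynomial (Fin r) ℤ), Q ≠ 0 → Q.natDegree < P.natDegree →
      (∀ n, (Q.coeff n).totalDegree ≤ A) → ∃ R : MvPolynomial (Fin r) ℤ, R ≠ 0 ∧ R.totalDegree ≤ δ ∧
      ∀ (t : Fin r → ℤ) (x : ℤ), V P t x = 0 → V Q t x = 0 → eval t R = 0 := sorry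

/-- **HC4'**: the discriminant -/
theorem disc {r : ℕ} (P : Polynomial (MvPolynomial (Fin r) ℤ)) (hPm : P.Monic) (hirr : Irreducible P) :
    ∃ Δ : MvPolynomial (Fin r) ℤ, Δ ≠ 0 ∧ ∀ (t : Fin r → ℤ) (x m : ℤ), m ∣ V P t x → m ∣ V P.derivative t x →
      m ∣ eval t Δ := sorry

/-- **HC5**: the choice of the monomials -/
theorem comb (r n κ₀ : ℕ) (hr : 1 ≤ r) (hn : 2 ≤ n) : ∃ (m : ℕ) (a : Fin m → Fin r → ℕ), Function.Injective a ∧
    ∀ κ : Fin m × Fin n → (Fin r →₀ ℕ), Function.Injective κ →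
      ∑ j : Fin m × Fin n, ((∑ k, a j.1 k) + κ₀ * (j.2 : ℕ)) < ∑ j, ∑ k, κ j k := sorry

/-- **HC6**: the size of the roots -/
theorem root_le {r : ℕ} (P : Polynomial (MvPolynomial (Fin r) ℤ)) (hPm : P.Monic) : ∃ κ₀ B : ℕ, ∀ N : ℕ, 1 ≤ N →
    ∀ (t : Fin r → ℤ) (x : ℤ), (∀ k, |t k| ≤ N) → V P t x = 0 → |x| ≤ B * (N : ℤ) ^ κ₀ := sorry

/-- **HC6'**: the size of the determinant -/
theorem det_le {r : ℕ} {J : Type} [Fintype J] [DecidableEq J] (a : J → Fin r → ℕ) (b : J → ℕ) (κ₀ B N : ℕ)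
    (t : J → Fin r → ℤ) (x : J → ℤ) (ht : ∀ i k, |t i k| ≤ N) (hx : ∀ i, |x i| ≤ B * (N : ℤ) ^ κ₀) :
    |(Matrix.of fun i j => (∏ k, t i k ^ a j k) * x i ^ b j).det| ≤
      ((Fintype.card J).factorial * B ^ (∑ j, b j) : ℕ) * (N : ℤ) ^ (∑ j, ((∑ k, a j k) + κ₀ * b j)) := sorry

/-- **HC7**: zeros of a polynomial in an affine box -/
theorem sz_affine {r : ℕ} (R : MvPolynomial (Fin r) ℤ) (hR : R ≠ 0) (δ : ℕ) (hδ : R.totalDegree ≤ δ)
    (t₀ : Fin r → ℤ) (p h : ℕ) (hp : 0 < p) :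
    h * ((box r h).filter fun u : Fin r → ℕ => eval (fun k => t₀ k + p * (u k : ℤ)) R = 0).card ≤ δ * h ^ r := sorry

/-- **HC7'**: zeros of a polynomial modulo `p` -/
theorem sing_count {r : ℕ} (Δ : MvPolynomial (Fin r) ℤ) (hΔ : Δ ≠ 0) : ∃ p₀ C : ℕ, ∀ p, p.Prime → p₀ ≤ p →
    ∀ h : ℕ, p * ((box r (p * h)).filter fun t : Fin r → ℕ => (p : ℤ) ∣ eval (fun k => (t k : ℤ)) Δ).card ≤
      C * (p * h) ^ r := sorry

/-- **HC**: for most `t` the polynomial `P(t, x)` has no integral root -/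
theorem hilbert_count {r : ℕ} (hr : 1 ≤ r) (P : Polynomial (MvPolynomial (Fin r) ℤ)) (hPm : P.Monic)
    (hirr : Irreducible P) (hn : 2 ≤ P.natDegree) : ∃ C : ℕ, ∀ h : ℕ, 1 ≤ h → ∃ p₀ : ℕ, ∀ p : ℕ, p.Prime →
      p₀ ≤ p → h * (bad P (p * h)).card ≤ C * (p * h) ^ r := sorry

/-- **LO**: extension of a ring homomorphism into `ℂ` to an integral extension -/
theorem extend_hom {A B : Type} [CommRing A] [CommRing B] [Algebra A B] [Algebra.IsIntegral A B]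
    (hinj : Function.Injective (algebraMap A B)) (f : A →+* ℂ) : ∃ φ : B →+* ℂ, ∀ a, φ (algebraMap A B a) = f a := sorry

/-- **RS**: the resolvents -/
theorem resolvents {r : ℕ} (P : Polynomial (MvPolynomial (Fin r) ℤ)) (hPm : P.Monic) (hirr : Irreducible P) :
    ∃ S : Finset (Polynomial (MvPolynomial (Fin r) ℤ)),
      (∀ Q ∈ S, Q.Monic ∧ Irreducible Q ∧ 2 ≤ Q.natDegree) ∧
      ∀ t : Fin r → ℤ, (∀ Q ∈ S, ∀ x : ℤ, V Q t x ≠ 0) → Irreducible (P.map (eval t)) := sorry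

/-- **HIT**: Hilbert's irreducibility theorem -/
theorem hit {r : ℕ} (P : Polynomial (MvPolynomial (Fin r) ℤ)) (hPm : P.Monic) (hirr : Irreducible P)
    (D : MvPolynomial (Fin r) ℤ) (hD : D ≠ 0) : ∃ t : Fin r → ℤ, eval t D ≠ 0 ∧ Irreducible (P.map (eval t)) := sorry

end

end Pool.Agent.Helper26.HI
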