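import Mathlib
import Pool.Agent.Helper26.OT.Eng

/-!
# HI: the engine for a system which depends periodically on the time (statement)
-/

set_option autoImplicit false

namespace Pool.Agent.Helper26.HI

open MvPolynomial Pool.Agent.Helper61.TH Pool.Agent.Helper87.FK Pool.Agent.Helper26.OB Pool.Agent.Helper26.OS

noncomputable section

/-- **EP** (from `engC` of Helper26/OT/Eng.lean, applied to the words over one period): the system `P n` is used at the
time `n`, and `P (n + T) = P n` for `n ≥ N₁` -/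
theorem engP {ι : Type} [Fintype ι] [DecidableEq ι] {k : ℕ} (P : ℕ → Fin k → ι → MvPolynomial ι ℂ) (T N₁ : ℕ)
    (hT : 1 ≤ T) (hper : ∀ n, N₁ ≤ n → P (n + T) = P n) (p : ℕ) [Fact p.Prime] (hp3 : 3 ≤ p)
    (τ : ℂ →+* PadicAlgCl p) (hP : ∀ n b i s, ‖τ (coeff s (P n b i))‖ ≤ 1) (π : Fin k → Fin k)
    (Y : ℕ → Fin k → ι → ℂ) (hY : ∀ b i, ‖τ (Y 0 b i)‖ ≤ 1) (hstep : ∀ n b, Y (n + 1) b = evI (P n b) (Y n (π b)))
    (H : ∀ a, Adm π a a → ∀ n, ‖τ (jacI (P n a) (Y n (π a))).det‖ = 1)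
    (V : Set (MvPolynomial (Fin k × ι) ℂ)) : ∃ S : Finset (ℕ × ℕ),
      {m : ℕ | ∀ G ∈ V, eval (fun q => Y m q.1 q.2) G = 0} = {m | ∃ q ∈ S, ∃ j, m = q.1 + q.2 * j} := sorry

end

end Pool.Agent.Helper26.HI
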