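import Mathlib
import Pool.Agent.Helper26.OT.Core

/-!
# HI: unramified maps of closed sets (statement)
-/

set_option autoImplicit false

namespace Pool.Agent.Helper26.HI

open MvPolynomial Pool.Agent.Helper61.TH Pool.Agent.Helper87.FK Pool.Agent.Helper26.OB Pool.Agent.Helper26.OS

noncomputable section

/-- **UR1** (Nullstellensatz over `A` in the variables `t, v`: for each `l` the polynomials `g(t)`, `∑ ∂g/∂t_j(t) v_j` (`g ∈ B`),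
`∑ ∂F_i/∂t_j(t) v_j` and `v_l - 1` have no common zero, so they generate the unit ideal over `A`; `Z`: all coefficients; in the
residue field scale `v` to `v_l = 1`) -/
theorem ker_res (A : Subfield ℂ) (hA : ∀ z : ℂ, IsAlgebraic A z → z ∈ A) {m : ℕ} (B : Finset (MvPolynomial (Fin m) ℂ))
    (hB : ∀ g ∈ B, ∀ s, coeff s g ∈ A) (F : Fin m → MvPolynomial (Fin m) ℂ) (hF : ∀ i s, coeff s (F i) ∈ A)
    (hun : ∀ t : Fin m → ℂ, (∀ g ∈ B, eval t g = 0) → ∀ v : Fin m → ℂ,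
      (∀ i, ∑ j, eval t (pderiv j (F i)) * v j = 0) → (∀ g ∈ B, ∑ j, eval t (pderiv j g) * v j = 0) → v = 0) :
    ∃ Z : Finset ℂ, (∀ z ∈ Z, z ∈ A) ∧ ∀ (p : ℕ) [Fact p.Prime] (τ : ℂ →+* PadicAlgCl p), Un τ Z →
      (∀ i s, ‖τ (coeff s (F i))‖ ≤ 1) ∧ (∀ g ∈ B, ∀ s, ‖τ (coeff s g)‖ ≤ 1) ∧
      ∀ t : Fin m → ℂ, (∀ g ∈ B, eval t g = 0) → (∀ i, ‖τ (t i)‖ ≤ 1) → ∀ v : Fin m → kk p,
        (∀ i, ∑ j, rd τ (eval t (pderiv j (F i))) * v j = 0) →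
        (∀ g ∈ B, ∑ j, rd τ (eval t (pderiv j g)) * v j = 0) → v = 0 := sorry

/-- **UR2** (linear algebra: a complement of the image of `M`, the kernel of `M` is mapped isomorphically onto it by `c G`) -/
theorem exists_comb {κ : Type} [Field κ] {m l : ℕ} (M : Matrix (Fin m) (Fin m) κ) (G : Matrix (Fin l) (Fin m) κ)
    (h : ∀ v : Fin m → κ, M.mulVec v = 0 → G.mulVec v = 0 → v = 0) :
    ∃ c : Matrix (Fin m) (Fin l) κ, (M + c * G).det ≠ 0 := sorry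

/-- **UR3** (the image of `τ` contains the roots of unity of `PadicAlgCl p`) -/
theorem rd_surj {p : ℕ} [Fact p.Prime] (τ : ℂ →+* PadicAlgCl p) (x : kk p) : ∃ z : ℂ, ‖τ z‖ ≤ 1 ∧ rd τ z = x := sorry

/-- **UR** (from UR1, UR2, UR3: `F' = F + ∑ c g`, `g ∈ B`, the `c` being lifts of the entries of the matrix of UR2 for the residue of `t`) -/
theorem unrB (A : Subfield ℂ) (hA : ∀ z : ℂ, IsAlgebraic A z → z ∈ A) {m : ℕ} (B : Finset (MvPolynomial (Fin m) ℂ))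
    (hB : ∀ g ∈ B, ∀ s, coeff s g ∈ A) (F : Fin m → MvPolynomial (Fin m) ℂ) (hF : ∀ i s, coeff s (F i) ∈ A)
    (hun : ∀ t : Fin m → ℂ, (∀ g ∈ B, eval t g = 0) → ∀ v : Fin m → ℂ,
      (∀ i, ∑ j, eval t (pderiv j (F i)) * v j = 0) → (∀ g ∈ B, ∑ j, eval t (pderiv j g) * v j = 0) → v = 0) :
    ∃ Z : Finset ℂ, (∀ z ∈ Z, z ∈ A) ∧ ∀ (p : ℕ) [Fact p.Prime] (τ : ℂ →+* PadicAlgCl p), Un τ Z →
      ∀ t : Fin m → ℂ, (∀ g ∈ B, eval t g = 0) → (∀ i, ‖τ (t i)‖ ≤ 1) →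
      ∃ F' : Fin m → MvPolynomial (Fin m) ℂ, (∀ i s, ‖τ (coeff s (F' i))‖ ≤ 1) ∧
        ∀ t' : Fin m → ℂ, (∀ g ∈ B, eval t' g = 0) → (∀ i, ‖τ (t' i - t i)‖ < 1) →
          ev F' t' = ev F t' ∧ ‖τ (jac F' t').det‖ = 1 := sorry

end

end Pool.Agent.Helper26.HI
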